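import Pool.Agent.Work.MP_34d05d_al.A4

set_option autoImplicit false

/-!
# The automorphism group of a truncated polynomial ring is soluble
-/

namespace Pool.Agent.Work.MP_34d05d_al

open Polynomial

variable {K : Type} [Field K] {n : ℕ}

/-- automorphisms which are trivial modulo `x^(k+2)` -/
def Gk (K : Type) [Field K] (n k : ℕ) : Subgroup (TP K n ≃ₐ[K] TP K n) where
  carrier := {σ | (rt K n) ^ (k + 2) ∣ σ (rt K n) - rt K n}
  one_mem' := by
    show (rt K n) ^ (k + 2) ∣ (1 : TP K n ≃ₐ[K] TP K n) (rt K n) - rt K n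
    rw [AlgEquiv.one_apply, sub_self]
    exact dvd_zero _
  mul_mem' := by
    intro σ τ hσ hτ
    have h1 : (rt K n) ^ (k + 2) ∣ σ (τ (rt K n)) - τ (rt K n) := by
      have := hom_congr (σ : TP K n →ₐ[K] TP K n) (AlgHom.id K (TP K n)) _ hσ (τ (rt K n))
      exact this
    have h2 := dvd_add h1 hτ
    have e : σ (τ (rt K n)) - τ (rt K n) + (τ (rt K n) - rt K n) = (σ * τ) (rt K n) - rt K n := by
      rw [sub_add_sub_cancel]
      rfl
    rw [e] at h2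
    exact h2
  inv_mem' := by
    intro σ hσ
    have h1 : (rt K n) ^ (k + 2) ∣ σ (σ⁻¹ (rt K n)) - σ⁻¹ (rt K n) := by
      have := hom_congr (σ : TP K n →ₐ[K] TP K n) (AlgHom.id K (TP K n)) _ hσ (σ⁻¹ (rt K n))
      exact this
    have e : σ (σ⁻¹ (rt K n)) = rt K n := by
      have : σ (σ⁻¹ (rt K n)) = (σ * σ⁻¹) (rt K n) := rfl
      rw [this, mul_inv_cancel, AlgEquiv.one_apply]
    rw [e, dvd_sub_comm] at h1
    exact h1

theorem comm_of (σ τ : TP K n ≃ₐ[K] TP K n) (w : TP K n)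
    (h : w ∣ σ (τ (rt K n)) - τ (σ (rt K n))) : w ∣ (σ * τ * σ⁻¹ * τ⁻¹) (rt K n) - rt K n := by
  have h1 := hom_congr ((σ : TP K n →ₐ[K] TP K n).comp (τ : TP K n →ₐ[K] TP K n))
    ((τ : TP K n →ₐ[K] TP K n).comp (σ : TP K n →ₐ[K] TP K n)) w h ((σ⁻¹ * τ⁻¹) (rt K n))
  have e1 : ((σ : TP K n →ₐ[K] TP K n).comp (τ : TP K n →ₐ[K] TP K n)) ((σ⁻¹ * τ⁻¹) (rt K n)) =
      (σ * τ * σ⁻¹ * τ⁻¹) (rt K n) := rfl
  have e2 : ((τ : TP K n →ₐ[K] TP K n).comp (σ : TP K n →ₐ[K] TP K n)) ((σ⁻¹ * τ⁻¹) (rt K n)) =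
      (τ * σ * (σ⁻¹ * τ⁻¹)) (rt K n) := rfl
  rw [e1, e2] at h1
  have e3 : τ * σ * (σ⁻¹ * τ⁻¹) = 1 := by group
  rwa [e3, AlgEquiv.one_apply] at h1

theorem comm_zero (σ τ : TP K n ≃ₐ[K] TP K n) :
    (rt K n) ^ (0 + 2) ∣ σ (τ (rt K n)) - τ (σ (rt K n)) := by
  obtain ⟨t, r, -, hr⟩ := aut_form σ
  obtain ⟨s, q, -, hq⟩ := aut_form τ
  rw [hr, hq]
  simp only [map_mul, map_add, AlgEquiv.commutes, hr, hq]
  generalize algebraMap K (TP K n) t = T
  generalize algebraMap K (TP K n) s = S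
  generalize rt K n = x
  refine ⟨S * r + (T + x * r) ^ 2 * σ q - (T * q + (S + x * q) ^ 2 * τ r), ?_⟩
  ring

theorem comm_succ (k : ℕ) (σ τ : TP K n ≃ₐ[K] TP K n) (hσ : σ ∈ Gk K n k) (hτ : τ ∈ Gk K n k) :
    (rt K n) ^ (k + 1 + 2) ∣ σ (τ (rt K n)) - τ (σ (rt K n)) := by
  obtain ⟨r, hr⟩ : (rt K n) ^ (k + 2) ∣ σ (rt K n) - rt K n := hσ
  obtain ⟨q, hq⟩ : (rt K n) ^ (k + 2) ∣ τ (rt K n) - rt K n := hτ
  obtain ⟨a, r1, rfl⟩ := dec r
  obtain ⟨b, q1, rfl⟩ := dec q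
  have hr' : σ (rt K n) = rt K n + (rt K n) ^ (k + 2) * (algebraMap K (TP K n) a + rt K n * r1) := by
    rw [← hr]; ring
  have hq' : τ (rt K n) = rt K n + (rt K n) ^ (k + 2) * (algebraMap K (TP K n) b + rt K n * q1) := by
    rw [← hq]; ring
  obtain ⟨u, hu⟩ := Polynomial.powAddExpansion (1 : TP K n)
    ((rt K n) ^ (k + 1) * (algebraMap K (TP K n) a + rt K n * r1)) (k + 2)
  obtain ⟨v, hv⟩ := Polynomial.powAddExpansion (1 : TP K n)
    ((rt K n) ^ (k + 1) * (algebraMap K (TP K n) b + rt K n * q1)) (k + 2)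
  have e1 : (σ (rt K n)) ^ (k + 2) = (rt K n) ^ (k + 2) * (1 + ((k + 2 : ℕ) : TP K n) *
      ((rt K n) ^ (k + 1) * (algebraMap K (TP K n) a + rt K n * r1)) + u *
      ((rt K n) ^ (k + 1) * (algebraMap K (TP K n) a + rt K n * r1)) ^ 2) := by
    have : σ (rt K n) = rt K n * (1 + (rt K n) ^ (k + 1) *
      (algebraMap K (TP K n) a + rt K n * r1)) := by rw [hr']; ring
    rw [this, mul_pow, hu, one_pow, one_pow]
    ring
  have e2 : (τ (rt K n)) ^ (k + 2) = (rt K n) ^ (k + 2) * (1 + ((k + 2 : ℕ) : TP K n) *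
      ((rt K n) ^ (k + 1) * (algebraMap K (TP K n) b + rt K n * q1)) + v *
      ((rt K n) ^ (k + 1) * (algebraMap K (TP K n) b + rt K n * q1)) ^ 2) := by
    have : τ (rt K n) = rt K n * (1 + (rt K n) ^ (k + 1) *
      (algebraMap K (TP K n) b + rt K n * q1)) := by rw [hq']; ring
    rw [this, mul_pow, hv, one_pow, one_pow]
    ring
  have e3 : σ (τ (rt K n)) = σ (rt K n) + (σ (rt K n)) ^ (k + 2) *
      (algebraMap K (TP K n) b + σ (rt K n) * σ q1) := by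
    conv_lhs => rw [hq']
    simp only [map_add, map_mul, map_pow, AlgEquiv.commutes]
  have e4 : τ (σ (rt K n)) = τ (rt K n) + (τ (rt K n)) ^ (k + 2) *
      (algebraMap K (TP K n) a + τ (rt K n) * τ r1) := by
    conv_lhs => rw [hr']
    simp only [map_add, map_mul, map_pow, AlgEquiv.commutes]
  have e5 : σ (rt K n) * σ q1 = rt K n * (1 + (rt K n) ^ (k + 1) *
      (algebraMap K (TP K n) a + rt K n * r1)) * σ q1 := by rw [hr']; ring
  have e6 : τ (rt K n) * τ r1 = rt K n * (1 + (rt K n) ^ (k + 1) *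
      (algebraMap K (TP K n) b + rt K n * q1)) * τ r1 := by rw [hq']; ring
  rw [e3, e4, e5, e6, e1, e2, hr', hq']
  generalize algebraMap K (TP K n) a = A
  generalize algebraMap K (TP K n) b = B
  generalize σ q1 = q2
  generalize τ r1 = r2
  generalize rt K n = x
  generalize ((k + 2 : ℕ) : TP K n) = κ
  refine ⟨r1 - q1 + (κ * (x ^ k * (A + x * r1)) + u * (x ^ k * (A + x * r1)) *
      (x ^ (k + 1) * (A + x * r1))) * (B + x * (1 + x ^ (k + 1) * (A + x * r1)) * q2) +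
      (1 + x ^ (k + 1) * (A + x * r1)) * q2 -
      ((κ * (x ^ k * (B + x * q1)) + v * (x ^ k * (B + x * q1)) *
      (x ^ (k + 1) * (B + x * q1))) * (A + x * (1 + x ^ (k + 1) * (B + x * q1)) * r2) +
      (1 + x ^ (k + 1) * (B + x * q1)) * r2), ?_⟩
  ring

theorem derived_le (k : ℕ) : derivedSeries (TP K n ≃ₐ[K] TP K n) (k + 1) ≤ Gk K n k := by
  induction k with
  | zero =>
    rw [derivedSeries_succ, derivedSeries_zero, Subgroup.commutator_le]
    intro σ _ τ _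
    rw [commutatorElement_def]
    exact comm_of σ τ _ (comm_zero σ τ)
  | succ k ih =>
    rw [derivedSeries_succ, Subgroup.commutator_le]
    intro σ hσ τ hτ
    rw [commutatorElement_def]
    exact comm_of σ τ _ (comm_succ k σ τ (ih hσ) (ih hτ))

theorem soluble : Group.IsSolvable (TP K n ≃ₐ[K] TP K n) := by
  rw [Group.isSolvable_def]
  refine ⟨n + 1, ?_⟩
  rw [eq_bot_iff]
  refine (derived_le n).trans ?_
  intro σ hσ
  have h : (rt K n) ^ (n + 2) ∣ σ (rt K n) - rt K n := hσ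
  rw [rt_pow, zero_dvd_iff, sub_eq_zero] at h
  rw [Subgroup.mem_bot]
  exact aut_ext _ _ h

end Pool.Agent.Work.MP_34d05d_al
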