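import Mathlib

set_option autoImplicit false

/-!
# Sums of squares of greatest common divisors
-/

namespace Pool.Agent.Work.MP_34d05d_al

open Finset

theorem gcd_sum (M : ℕ) (B : ℝ) (hB0 : 0 ≤ B)
    (hB : ∀ e : ℕ, e ∣ M → e ≠ M → (e : ℝ) ≤ B) (n : ℕ) (hn : n < M) :
    ((∑ d ∈ Icc 1 n, (Nat.gcd M d) ^ 2 : ℕ) : ℝ) ≤ n * #M.divisors * B := by
  have hM : M ≠ 0 := by omega
  have h1 : ∀ d ∈ Icc 1 n, (Nat.gcd M d) ^ 2 ≤
      ∑ e ∈ M.divisors.erase M, if e ∣ d then e ^ 2 else 0 := by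
    intro d hd
    rw [Finset.mem_Icc] at hd
    have hg : Nat.gcd M d ∈ M.divisors.erase M := by
      rw [Finset.mem_erase, Nat.mem_divisors]
      refine ⟨?_, Nat.gcd_dvd_left _ _, hM⟩
      have := Nat.le_of_dvd (by omega) (Nat.gcd_dvd_right M d)
      omega
    have := Finset.single_le_sum (f := fun e => if e ∣ d then e ^ 2 else 0)
      (fun e _ => Nat.zero_le _) hg
    simp only [Nat.gcd_dvd_right, if_true] at this
    exact this
  have h2 : ∑ d ∈ Icc 1 n, (Nat.gcd M d) ^ 2 ≤ ∑ e ∈ M.divisors.erase M, e * n := by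
    refine (Finset.sum_le_sum h1).trans ?_
    rw [Finset.sum_comm]
    refine Finset.sum_le_sum fun e he => ?_
    rw [← Finset.sum_filter, Finset.sum_const, smul_eq_mul]
    have h3 : #((Icc 1 n).filter (fun d => e ∣ d)) = n / e := by
      have := Nat.Ioc_filter_dvd_card_eq_div n e
      rw [← this]
      congr 1
    rw [h3]
    calc n / e * e ^ 2 = (n / e * e) * e := by ring
      _ ≤ n * e := Nat.mul_le_mul_right _ (Nat.div_mul_le_self n e)
      _ = e * n := mul_comm _ _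
  have h3 : ((∑ d ∈ Icc 1 n, (Nat.gcd M d) ^ 2 : ℕ) : ℝ) ≤
      ∑ e ∈ M.divisors.erase M, (e : ℝ) * n := by
    exact_mod_cast h2
  refine h3.trans ?_
  calc ∑ e ∈ M.divisors.erase M, (e : ℝ) * n ≤ ∑ _e ∈ M.divisors.erase M, B * n := by
        refine Finset.sum_le_sum fun e he => ?_
        rw [Finset.mem_erase, Nat.mem_divisors] at he
        exact mul_le_mul_of_nonneg_right (hB e he.2.1 he.1) (Nat.cast_nonneg _)
    _ = #(M.divisors.erase M) * (B * n) := by rw [Finset.sum_const, nsmul_eq_mul]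
    _ ≤ #M.divisors * (B * n) := by
        apply mul_le_mul_of_nonneg_right _ (by positivity)
        exact_mod_cast Finset.card_erase_le
    _ = n * #M.divisors * B := by ring

theorem tau_le (M : ℕ) (hM : M ≠ 0) (y X : ℝ) (hy : 1 < y)
    (h : ∀ q : ℕ, q.Prime → q ∣ M → y ≤ q) (hX : (M : ℝ) ≤ X) :
    (#M.divisors : ℝ) ≤ 2 ^ (Real.log X / Real.log y) := by
  have hly : 0 < Real.log y := Real.log_pos hy
  rw [Nat.card_divisors hM]
  have h1 : ((∏ x ∈ M.primeFactors, (M.factorization x + 1) : ℕ) : ℝ) ≤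
      (2 : ℝ) ^ (∑ x ∈ M.primeFactors, M.factorization x) := by
    rw [← Finset.prod_pow_eq_pow_sum]
    push_cast
    refine Finset.prod_le_prod (fun x _ => by positivity) fun x _ => ?_
    have : M.factorization x + 1 ≤ 2 ^ M.factorization x := Nat.lt_two_pow_self
    exact_mod_cast this
  refine h1.trans ?_
  rw [← Real.rpow_natCast]
  apply Real.rpow_le_rpow_of_exponent_le (by norm_num)
  rw [le_div_iff₀ hly]
  have h2 : y ^ (∑ x ∈ M.primeFactors, M.factorization x) ≤ M := by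
    have h3 : (M : ℝ) = ∏ x ∈ M.primeFactors, (x : ℝ) ^ M.factorization x := by
      have h4 := Nat.prod_factorization_pow_eq_self hM
      conv_lhs => rw [← h4]
      rw [Finsupp.prod, Nat.support_factorization]
      push_cast
      rfl
    rw [h3, ← Finset.prod_pow_eq_pow_sum]
    refine Finset.prod_le_prod (fun x _ => by positivity) fun x hx => ?_
    exact pow_le_pow_left₀ (by linarith) (h x (Nat.prime_of_mem_primeFactors hx)
      (Nat.dvd_of_mem_primeFactors hx)) _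
  have h4 := Real.log_le_log (by positivity) (h2.trans hX)
  rwa [Real.log_pow] at h4

theorem proper_le (M : ℕ) (hM : M ≠ 0) (y : ℝ) (hy : 0 < y)
    (h : ∀ q : ℕ, q.Prime → q ∣ M → y ≤ q) (e : ℕ) (he : e ∣ M) (heM : e ≠ M) :
    (e : ℝ) ≤ M / y := by
  obtain ⟨k, rfl⟩ := he
  have hk : k ≠ 1 := by rintro rfl; simp at heM
  have hk0 : k ≠ 0 := by rintro rfl; simp at hM
  obtain ⟨q, hq, hqk⟩ := Nat.exists_prime_and_dvd hk
  have h1 : y ≤ q := h q hq (hqk.trans (Dvd.intro_left e rfl))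
  have h2 : (q : ℝ) ≤ k := by exact_mod_cast Nat.le_of_dvd (by omega) hqk
  rw [le_div_iff₀ hy]
  push_cast
  exact mul_le_mul_of_nonneg_left (h1.trans h2) (Nat.cast_nonneg _)

theorem gcd_two (M d : ℕ) : (Nat.gcd (2 * M) d) ^ 2 ≤ 4 * (Nat.gcd M d) ^ 2 := by
  rcases Nat.eq_zero_or_pos (Nat.gcd M d) with h0 | h0
  · have h1 : M = 0 := Nat.eq_zero_of_gcd_eq_zero_left h0
    have h2 : d = 0 := Nat.eq_zero_of_gcd_eq_zero_right h0
    subst h1 h2
    simp
  · have h1 : Nat.gcd d (2 * M) ∣ Nat.gcd d 2 * Nat.gcd d M := Nat.gcd_mul_right_dvd_mul_gcd d 2 M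
    rw [Nat.gcd_comm d (2 * M), Nat.gcd_comm d M] at h1
    have h3 : 0 < Nat.gcd d 2 := Nat.gcd_pos_of_pos_right _ (by norm_num)
    have h2 := Nat.le_of_dvd (Nat.mul_pos h3 h0) h1
    have h4 : Nat.gcd d 2 ≤ 2 := Nat.le_of_dvd (by norm_num) (Nat.gcd_dvd_right d 2)
    have h5 : Nat.gcd (2 * M) d ≤ 2 * Nat.gcd M d := h2.trans (Nat.mul_le_mul_right _ h4)
    calc (Nat.gcd (2 * M) d) ^ 2 ≤ (2 * Nat.gcd M d) ^ 2 := Nat.pow_le_pow_left h5 2
      _ = 4 * (Nat.gcd M d) ^ 2 := by ring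

end Pool.Agent.Work.MP_34d05d_al
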