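import Mathlib
import Pool.Agent.Work.MP_2dba45_nt.Sv.Mert1

set_option autoImplicit false

/-!
# The density `1/(p-1)`: Mertens estimates
-/

namespace Pool.Agent.Work.MP_34d05d_al.Sh

open Finset
open Pool.Agent.Work.MP_2dba45_nt.Sv Pool.Agent.Work.MP_2dba45_nt.Psum
  Pool.Agent.Work.MP_2dba45_nt.Mert

/-- local density of the shifted primes -/
noncomputable def g2 (p : ℕ) : ℝ := 1 / ((p - 1 : ℕ) : ℝ)

/-- its multiplicative extension to finite sets -/
noncomputable def G2 (T : Finset ℕ) : ℝ := ∏ p ∈ T, g2 p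

/-- odd primes below `z` -/
def PO (z : ℕ) : Finset ℕ := (range z).filter (fun p => p.Prime ∧ p ≠ 2)

theorem mem_PO {z p : ℕ} : p ∈ PO z ↔ p < z ∧ p.Prime ∧ p ≠ 2 := by simp [PO]

theorem g2_nonneg (p : ℕ) : 0 ≤ g2 p := by unfold g2; positivity

theorem G2_nonneg (T : Finset ℕ) : 0 ≤ G2 T := Finset.prod_nonneg fun p _ => g2_nonneg p

theorem g2_eq (p : ℕ) (hp : 2 ≤ p) : g2 p = 1 / p + 1 / (((p : ℝ) - 1) * p) := by
  unfold g2
  have h1 : ((p - 1 : ℕ) : ℝ) = (p : ℝ) - 1 := by rw [Nat.cast_sub (by omega)]; simp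
  have h2 : (2 : ℝ) ≤ p := by exact_mod_cast hp
  rw [h1]
  have h3 : (p : ℝ) - 1 ≠ 0 := by linarith
  have h4 : (p : ℝ) ≠ 0 := by linarith
  field_simp
  ring

theorem g2_le (p : ℕ) (hp : 2 ≤ p) : g2 p ≤ 2 / p := by
  unfold g2
  have h1 : ((p - 1 : ℕ) : ℝ) = (p : ℝ) - 1 := by rw [Nat.cast_sub (by omega)]; simp
  have h2 : (2 : ℝ) ≤ p := by exact_mod_cast hp
  rw [h1, div_le_div_iff₀ (by linarith) (by linarith)]
  linarith

theorem g2_half (p : ℕ) (hp : 3 ≤ p) : g2 p ≤ 1 / 2 := by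
  unfold g2
  have h2 : (2 : ℝ) ≤ ((p - 1 : ℕ) : ℝ) := by exact_mod_cast (by omega : 2 ≤ p - 1)
  exact one_div_le_one_div_of_le (by norm_num) h2

theorem tel (w z : ℕ) (hw : 1 ≤ w) (hwz : w ≤ z) :
    ∑ p ∈ Ioc w z, 1 / (((p : ℝ) - 1) * p) = 1 / w - 1 / z := by
  induction z, hwz using Nat.le_induction with
  | base => simp
  | succ z hz ih =>
    have hI : Ioc w (z + 1) = insert (z + 1) (Ioc w z) := by
      ext x; simp only [Finset.mem_Ioc, Finset.mem_insert]; omega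
    rw [hI, Finset.sum_insert (by simp), ih]
    have h1 : (1 : ℝ) ≤ z := by exact_mod_cast hw.trans hz
    have h2 : (1 : ℝ) ≤ w := by exact_mod_cast hw
    push_cast
    rw [add_sub_cancel_right]
    have : (z : ℝ) ≠ 0 := by linarith
    have : (w : ℝ) ≠ 0 := by linarith
    have : (z : ℝ) + 1 ≠ 0 := by linarith
    field_simp
    ring

theorem psum_g2 : ∃ C : ℝ, 0 ≤ C ∧ ∀ w z : ℕ, 2 ≤ w → w ≤ z →
    |∑ p ∈ (Ioc w z).filter Nat.Prime, g2 p -
      (Real.log (Real.log z) - Real.log (Real.log w))| ≤ C / Real.log w := by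
  obtain ⟨C, hC⟩ := mertens_one
  have hC0 : 0 ≤ C := (abs_nonneg _).trans (hC 1 one_pos)
  refine ⟨2 * C + 8, by linarith, fun w z hw hwz => ?_⟩
  have h1 := mt_psum (fun n => if n.Prime then (1 : ℝ) else 0) C hC0 (fun N hN => by
    have h := hC N hN
    rw [Finset.sum_filter] at h
    convert h using 3
    refine Finset.sum_congr rfl fun n _ => ?_
    split_ifs <;> simp) w z hw hwz
  have hwr : (2 : ℝ) ≤ w := by exact_mod_cast hw
  have hlw : 0 < Real.log w := Real.log_pos (by linarith)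
  have e1 : ∑ p ∈ (Ioc w z).filter Nat.Prime, g2 p =
      ∑ n ∈ Ioc w z, (if n.Prime then (1 : ℝ) else 0) / n +
        ∑ p ∈ (Ioc w z).filter Nat.Prime, 1 / (((p : ℝ) - 1) * p) := by
    rw [Finset.sum_filter, Finset.sum_filter, ← Finset.sum_add_distrib]
    refine Finset.sum_congr rfl fun n hn => ?_
    split_ifs with h
    · rw [g2_eq n h.two_le]
    · simp
  have e2 : 0 ≤ ∑ p ∈ (Ioc w z).filter Nat.Prime, 1 / (((p : ℝ) - 1) * p) := by
    refine Finset.sum_nonneg fun p hp => ?_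
    have h2 := (Finset.mem_filter.1 hp).2.two_le
    have h3 : (2 : ℝ) ≤ p := by exact_mod_cast h2
    have : 0 ≤ (p : ℝ) - 1 := by linarith
    positivity
  have e3 : ∑ p ∈ (Ioc w z).filter Nat.Prime, 1 / (((p : ℝ) - 1) * p) ≤ 1 / Real.log w := by
    have h4 : ∑ p ∈ (Ioc w z).filter Nat.Prime, 1 / (((p : ℝ) - 1) * p) ≤
        ∑ p ∈ Ioc w z, 1 / (((p : ℝ) - 1) * p) := by
      refine Finset.sum_le_sum_of_subset_of_nonneg (Finset.filter_subset _ _) fun p hp _ => ?_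
      have h2 := (Finset.mem_Ioc.1 hp).1
      have h3 : (2 : ℝ) ≤ p := by exact_mod_cast (by omega : 2 ≤ p)
      have : 0 ≤ (p : ℝ) - 1 := by linarith
      positivity
    rw [tel w z (by omega) hwz] at h4
    have h5 : 1 / (w : ℝ) ≤ 1 / Real.log w := by
      apply one_div_le_one_div_of_le hlw
      linarith [Real.log_le_sub_one_of_pos (x := (w : ℝ)) (by linarith)]
    have h6 : (0 : ℝ) ≤ 1 / z := by positivity
    linarith
  rw [e1]
  have e4 : (2 * C + 8) / Real.log w = (2 * C + 7) / Real.log w + 1 / Real.log w := by ring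
  rw [e4]
  rw [abs_le] at h1 ⊢
  have h7 : 0 ≤ 1 / Real.log w := by positivity
  constructor
  · linarith [h1.1]
  · linarith [h1.2]

theorem sum_g2 : ∃ C : ℝ, 0 ≤ C ∧ ∀ w x : ℝ, 2 ≤ w → w ≤ x →
    |∑ p ∈ (Ico ⌈w⌉₊ ⌈x⌉₊).filter Nat.Prime, g2 p -
      (Real.log (Real.log x) - Real.log (Real.log w))| ≤ C / Real.log w := by
  obtain ⟨C, hC0, hC⟩ := psum_g2
  refine ⟨C + 6, by linarith, fun w x hw hwx => ?_⟩
  set W := ⌈w⌉₊ with hW
  set X := ⌈x⌉₊ with hX
  have hwW : w ≤ W := Nat.le_ceil w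
  have hWw : (W : ℝ) ≤ w + 1 := (Nat.ceil_lt_add_one (by linarith)).le
  have hxX : x ≤ X := Nat.le_ceil x
  have hXx : (X : ℝ) ≤ x + 1 := (Nat.ceil_lt_add_one (by linarith)).le
  have hWX : W ≤ X := Nat.ceil_le_ceil hwx
  have hW2 : 2 ≤ W := by
    have : (2 : ℝ) ≤ W := hw.trans hwW
    exact_mod_cast this
  have hlw : 0 < Real.log w := Real.log_pos (by linarith)
  have hlW : Real.log w ≤ Real.log W := Real.log_le_log (by linarith) hwW
  have hlx : Real.log w ≤ Real.log x := Real.log_le_log (by linarith) hwx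
  have h1 := hC W X hW2 hWX
  have h2 := mt_loglog hw hwW hWw
  have h3 := mt_loglog (hw.trans hwx) hxX hXx
  have h4 : ∀ Y : ℕ, w ≤ Y → 0 ≤ (if Y.Prime then g2 Y else 0) ∧
      (if Y.Prime then g2 Y else 0) ≤ 2 / Real.log w := by
    intro Y hY
    have hb : 2 / (Y : ℝ) ≤ 2 / Real.log w := by
      apply div_le_div_of_nonneg_left (by norm_num) hlw
      have := Real.log_le_sub_one_of_pos (x := w) (by linarith)
      linarith
    split_ifs with hp
    · exact ⟨g2_nonneg Y, (g2_le Y hp.two_le).trans hb⟩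
    · exact ⟨le_rfl, by positivity⟩
  have h5 := h4 W hwW
  have h6 := h4 X (hwx.trans hxX)
  have h7 : C / Real.log W ≤ C / Real.log w := div_le_div_of_nonneg_left hC0 hlw hlW
  have h8 : 1 / Real.log x ≤ 1 / Real.log w := one_div_le_one_div_of_le hlw hlx
  rw [mt_shift g2 W X hWX]
  have e6 : (C + 6) / Real.log w = C / Real.log w + 2 / Real.log w + 2 / Real.log w
      + 1 / Real.log w + 1 / Real.log w := by ring
  rw [e6]
  have h0 : 0 ≤ 1 / Real.log w := by positivity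
  have h00 : 0 ≤ 2 / Real.log w := by positivity
  rw [abs_le] at h1 ⊢
  constructor
  · linarith [h1.1, h2.1, h2.2, h3.1, h3.2, h5.1, h5.2, h6.1, h6.2]
  · linarith [h1.2, h2.1, h2.2, h3.1, h3.2, h5.1, h5.2, h6.1, h6.2]

/-- block sums -/
theorem g2_block : ∃ L₀ : ℝ, 0 ≤ L₀ ∧ ∀ (z : ℕ) (y : ℝ), 1 ≤ y →
    ∑ p ∈ (PO z).filter (fun p : ℕ => y ≤ (p : ℝ) ∧ (p : ℝ) < y ^ 2), g2 p ≤ L₀ := by
  obtain ⟨C, hC0, hC⟩ := sum_g2
  have hl2 : 0 < Real.log 2 := Real.log_pos (by norm_num)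
  refine ⟨Real.log 2 + C / Real.log 2 + 1, by positivity, fun z y hy => ?_⟩
  rcases lt_or_ge y 2 with h | h
  · have hsub : (PO z).filter (fun p : ℕ => y ≤ (p : ℝ) ∧ (p : ℝ) < y ^ 2) ⊆ {3} := by
      intro p hp
      rw [Finset.mem_filter, mem_PO] at hp
      have h1 : (p : ℝ) < 4 := by nlinarith [hp.2.2]
      have h2 : p < 4 := by exact_mod_cast h1
      have h3 := hp.1.2.1.two_le
      have h4 := hp.1.2.2
      rw [Finset.mem_singleton]
      omega
    refine (Finset.sum_le_sum_of_subset_of_nonneg hsub fun p _ _ => g2_nonneg p).trans ?_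
    rw [Finset.sum_singleton]
    have h5 := g2_half 3 le_rfl
    have h6 : 0 ≤ C / Real.log 2 := by positivity
    linarith
  · have hy0 : 0 < y := by linarith
    have hly : 0 < Real.log y := Real.log_pos (by linarith)
    have h1 := hC y (y ^ 2) h (by nlinarith)
    have h2 : Real.log (Real.log (y ^ 2)) - Real.log (Real.log y) = Real.log 2 := by
      rw [Real.log_pow, Real.log_mul (by norm_num) hly.ne']
      push_cast
      ring
    rw [h2] at h1
    have h3 : C / Real.log y ≤ C / Real.log 2 :=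
      div_le_div_of_nonneg_left hC0 hl2 (Real.log_le_log (by norm_num) h)
    have hsub : (PO z).filter (fun p : ℕ => y ≤ (p : ℝ) ∧ (p : ℝ) < y ^ 2) ⊆
        (Ico ⌈y⌉₊ ⌈y ^ 2⌉₊).filter Nat.Prime := by
      intro p hp
      rw [Finset.mem_filter, mem_PO] at hp
      rw [Finset.mem_filter, Finset.mem_Ico]
      exact ⟨⟨Nat.ceil_le.2 hp.2.1, Nat.lt_ceil.2 hp.2.2⟩, hp.1.2.1⟩
    refine (Finset.sum_le_sum_of_subset_of_nonneg hsub fun p _ _ => g2_nonneg p).trans ?_
    linarith [(abs_le.1 h1).2]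

/-- lower bound for the product over the small primes -/
theorem V2_ge : ∃ c : ℝ, 0 < c ∧ ∀ z : ℕ, 3 ≤ z →
    c / Real.log z ≤ ∏ p ∈ PO z, (1 - g2 p) := by
  obtain ⟨C, hC0, hC⟩ := sum_g2
  refine ⟨Real.exp (-(C / Real.log 3 - Real.log (Real.log 3)) - 4 * 2 ^ 2), Real.exp_pos _,
    fun z hz => ?_⟩
  have hzr : (3 : ℝ) ≤ z := by exact_mod_cast hz
  have hlz : 0 < Real.log z := Real.log_pos (by linarith)
  have h1 := hC 3 z (by norm_num) hzr
  have h2 : ⌈(3 : ℝ)⌉₊ = 3 := by norm_num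
  rw [h2, Nat.ceil_natCast] at h1
  have h3 : PO z = (Ico 3 z).filter Nat.Prime := by
    ext p
    rw [mem_PO, Finset.mem_filter, Finset.mem_Ico]
    constructor
    · rintro ⟨h1, h2, h3⟩
      have := h2.two_le
      exact ⟨⟨by omega, h1⟩, h2⟩
    · rintro ⟨⟨h1, h2⟩, h3⟩
      exact ⟨h2, h3, by omega⟩
  rw [← h3] at h1
  have h4 : ∑ p ∈ PO z, g2 p ≤ Real.log (Real.log z) + (C / Real.log 3 - Real.log (Real.log 3)) := by
    linarith [(abs_le.1 h1).2]
  have h5 := prod_ge (PO z) (fun p hp => (mem_PO.1 hp).2.1.one_le) g2 (fun p _ => g2_nonneg p)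
    (fun p hp => g2_half p (by
      have h6 := (mem_PO.1 hp).2
      have h7 := h6.1.two_le
      have h8 := h6.2
      omega)) 2 (by norm_num) (fun p hp => g2_le p (mem_PO.1 hp).2.1.two_le)
  refine le_trans ?_ h5
  have e1 : Real.exp (-(C / Real.log 3 - Real.log (Real.log 3)) - 4 * 2 ^ 2) / Real.log z =
      Real.exp (-(C / Real.log 3 - Real.log (Real.log 3)) - 4 * 2 ^ 2 - Real.log (Real.log z)) := by
    rw [Real.exp_sub _ (Real.log (Real.log z)), Real.exp_log hlz]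
  rw [e1]
  apply Real.exp_le_exp.2
  linarith

end Pool.Agent.Work.MP_34d05d_al.Sh
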