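import Mathlib
import Pool.Agent.Work.MP_2dba45_nt.Sv.Defs
import Pool.Agent.Work.MP_34d05d_al.P1

set_option autoImplicit false

/-!
Copy of Sv/Mert2 (MP_2dba45_nt) for the density 1/(p-1). Prime sums of Lipschitz functions of log p / log N.
-/

namespace Pool.Agent.Work.MP_34d05d_al.Sh

open Finset Pool.Agent.Work.MP_2dba45_nt.Sv

/-- the primes with logarithm ratio in `[s, t)` -/
noncomputable def mtS (N : ℕ) (s t : ℝ) : Finset ℕ :=
  open Classical in
  (range N).filter (fun p : ℕ => p.Prime ∧ s ≤ Real.log p / Real.log N ∧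
    Real.log p / Real.log N < t)

theorem mtS_eq (N : ℕ) (hN : 2 ≤ N) (s t : ℝ) (ht : t ≤ 1) :
    mtS N s t = (Ico ⌈(N : ℝ) ^ s⌉₊ ⌈(N : ℝ) ^ t⌉₊).filter Nat.Prime := by
  classical
  have hN1 : (1 : ℝ) < N := by exact_mod_cast (by omega : 1 < N)
  have hN0 : (0 : ℝ) < N := by linarith
  have hl : 0 < Real.log N := Real.log_pos hN1
  ext p
  unfold mtS
  rw [Finset.mem_filter, Finset.mem_filter, Finset.mem_range, Finset.mem_Ico, Nat.ceil_le,
    Nat.lt_ceil]
  have key : p.Prime → ((s ≤ Real.log p / Real.log N ↔ (N : ℝ) ^ s ≤ p) ∧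
      (Real.log p / Real.log N < t ↔ (p : ℝ) < (N : ℝ) ^ t)) := by
    intro hp
    have hp0 : (0 : ℝ) < p := by exact_mod_cast hp.pos
    constructor
    · rw [le_div_iff₀ hl, ← Real.log_rpow hN0, Real.log_le_log_iff (Real.rpow_pos_of_pos hN0 _) hp0]
    · rw [div_lt_iff₀ hl, ← Real.log_rpow hN0, Real.log_lt_log_iff hp0 (Real.rpow_pos_of_pos hN0 _)]
  constructor
  · rintro ⟨_, hp, h1, h2⟩
    exact ⟨⟨(key hp).1.1 h1, (key hp).2.1 h2⟩, hp⟩
  · rintro ⟨⟨h1, h2⟩, hp⟩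
    refine ⟨?_, hp, (key hp).1.2 h1, (key hp).2.2 h2⟩
    have h3 : (N : ℝ) ^ t ≤ (N : ℝ) ^ (1 : ℝ) := Real.rpow_le_rpow_of_exponent_le hN1.le ht
    rw [Real.rpow_one] at h3
    exact_mod_cast lt_of_lt_of_le h2 h3

theorem mt_mass {C : ℝ} (hC : ∀ w x : ℝ, 2 ≤ w → w ≤ x →
    |∑ p ∈ (Ico ⌈w⌉₊ ⌈x⌉₊).filter Nat.Prime, g2 p -
      (Real.log (Real.log x) - Real.log (Real.log w))| ≤ C / Real.log w)
    (N : ℕ) (hN : 2 ≤ N) (s t : ℝ) (hs : 0 < s) (hst : s ≤ t)
    (h2 : 2 ≤ (N : ℝ) ^ s) :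
    |∑ p ∈ (Ico ⌈(N : ℝ) ^ s⌉₊ ⌈(N : ℝ) ^ t⌉₊).filter Nat.Prime, g2 p - Real.log (t / s)|
      ≤ C / (s * Real.log N) := by
  have hN1 : (1 : ℝ) < N := by exact_mod_cast (by omega : 1 < N)
  have hN0 : (0 : ℝ) < N := by linarith
  have hl : 0 < Real.log N := Real.log_pos hN1
  have h3 : (N : ℝ) ^ s ≤ (N : ℝ) ^ t := Real.rpow_le_rpow_of_exponent_le hN1.le hst
  have h4 := hC _ _ h2 h3
  rw [Real.log_rpow hN0, Real.log_rpow hN0] at h4
  have ht : 0 < t := lt_of_lt_of_le hs hst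
  rw [Real.log_mul ht.ne' hl.ne', Real.log_mul hs.ne' hl.ne'] at h4
  rw [Real.log_div ht.ne' hs.ne']
  have h5 : Real.log t + Real.log (Real.log N) - (Real.log s + Real.log (Real.log N))
      = Real.log t - Real.log s := by ring
  rw [h5] at h4
  exact h4

theorem mt_cont {h : ℝ → ℝ} {Λ a b : ℝ} (ha : 0 < a)
    (hL : ∀ v ∈ Set.Icc a b, ∀ w ∈ Set.Icc a b, |h v - h w| ≤ Λ * |v - w|) :
    ContinuousOn (fun v => h v / v) (Set.Icc a b) := by
  have h1 : ContinuousOn h (Set.Icc a b) := by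
    have h2 : LipschitzOnWith (Real.toNNReal Λ) h (Set.Icc a b) := by
      refine LipschitzOnWith.of_dist_le_mul fun x hx y hy => ?_
      rw [Real.dist_eq, Real.dist_eq]
      refine (hL x hx y hy).trans ?_
      exact mul_le_mul_of_nonneg_right (Real.le_coe_toNNReal Λ) (abs_nonneg _)
    exact h2.continuousOn
  refine h1.div continuousOn_id fun x hx => ?_
  have : 0 < x := lt_of_lt_of_le ha hx.1
  exact this.ne'

theorem mt_piece {C : ℝ} (hC0 : 0 ≤ C) (hC : ∀ w x : ℝ, 2 ≤ w → w ≤ x →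
    |∑ p ∈ (Ico ⌈w⌉₊ ⌈x⌉₊).filter Nat.Prime, g2 p -
      (Real.log (Real.log x) - Real.log (Real.log w))| ≤ C / Real.log w)
    (N : ℕ) (hN : 2 ≤ N) (δ s t B Λ r : ℝ) (hδ : 0 < δ) (hs : δ ≤ s) (hst : s ≤ t) (ht : t ≤ 1)
    (h2 : 2 ≤ (N : ℝ) ^ δ) (hB : 0 ≤ B) (hΛ : 0 ≤ Λ) (hr : t - s ≤ r) (h : ℝ → ℝ)
    (hhB : ∀ v ∈ Set.Icc s t, |h v| ≤ B)
    (hhL : ∀ v ∈ Set.Icc s t, ∀ w ∈ Set.Icc s t, |h v - h w| ≤ Λ * |v - w|) :
    |∑ p ∈ mtS N s t, g2 p * h (Real.log p / Real.log N) - ∫ v in s..t, h v / v|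
      ≤ 2 * Λ * r * Real.log (t / s) + (Λ * r + B) * (C / (δ * Real.log N)) := by
  classical
  have hN1 : (1 : ℝ) < N := by exact_mod_cast (by omega : 1 < N)
  have hl : 0 < Real.log N := Real.log_pos hN1
  have hs0 : 0 < s := lt_of_lt_of_le hδ hs
  have ht0 : 0 < t := lt_of_lt_of_le hs0 hst
  have hr0 : 0 ≤ r := le_trans (by linarith) hr
  have h2s : 2 ≤ (N : ℝ) ^ s := h2.trans (Real.rpow_le_rpow_of_exponent_le hN1.le hs)
  have hmass := mt_mass hC N hN s t hs0 hst h2s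
  rw [← mtS_eq N hN s t ht] at hmass
  have hE : C / (s * Real.log N) ≤ C / (δ * Real.log N) :=
    div_le_div_of_nonneg_left hC0 (by positivity) (by gcongr)
  set E := C / (δ * Real.log N) with hEdef
  have hE0 : 0 ≤ E := by positivity
  have hlog0 : 0 ≤ Real.log (t / s) := Real.log_nonneg (by rw [le_div_iff₀ hs0]; linarith)
  set M := ∑ p ∈ mtS N s t, g2 p with hM
  have hMle : M ≤ Real.log (t / s) + E := by
    have := (abs_le.1 (hmass.trans hE)).2
    linarith
  have hs_mem : s ∈ Set.Icc s t := ⟨le_rfl, hst⟩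
  -- the sum against the value at `s`
  have e1 : |∑ p ∈ mtS N s t, g2 p * h (Real.log p / Real.log N) - h s * M| ≤ Λ * r * M := by
    rw [hM, Finset.mul_sum, Finset.mul_sum, ← Finset.sum_sub_distrib]
    refine (Finset.abs_sum_le_sum_abs _ _).trans (Finset.sum_le_sum fun p hp => ?_)
    have hp' := hp
    unfold mtS at hp'
    rw [Finset.mem_filter] at hp'
    have hmem : Real.log p / Real.log N ∈ Set.Icc s t := ⟨hp'.2.2.1, hp'.2.2.2.le⟩
    have e2 : g2 p * h (Real.log p / Real.log N) - h s * g2 p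
        = g2 p * (h (Real.log p / Real.log N) - h s) := by ring
    rw [e2, abs_mul, abs_of_nonneg (g2_nonneg p), mul_comm]
    refine mul_le_mul_of_nonneg_right ?_ (g2_nonneg p)
    refine (hhL _ hmem _ hs_mem).trans (mul_le_mul_of_nonneg_left ?_ hΛ)
    rw [abs_of_nonneg (by linarith [hmem.1])]
    linarith [hmem.2]
  have e3 : |h s * M - h s * Real.log (t / s)| ≤ B * E := by
    rw [← mul_sub, abs_mul]
    exact mul_le_mul (hhB s hs_mem) (hmass.trans hE) (abs_nonneg _) hB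
  have hint1 : ∫ v in s..t, v⁻¹ = Real.log (t / s) := integral_inv_of_pos hs0 ht0
  have hci : IntervalIntegrable (fun v : ℝ => v⁻¹) MeasureTheory.volume s t :=
    intervalIntegral.intervalIntegrable_inv (fun x hx => by
      rw [Set.uIcc_of_le hst] at hx
      exact (lt_of_lt_of_le hs0 hx.1).ne') continuousOn_id
  have hch : IntervalIntegrable (fun v : ℝ => h v / v) MeasureTheory.volume s t := by
    refine ContinuousOn.intervalIntegrable ?_
    rw [Set.uIcc_of_le hst]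
    exact mt_cont hs0 hhL
  have e4 : |h s * Real.log (t / s) - ∫ v in s..t, h v / v| ≤ Λ * r * Real.log (t / s) := by
    rw [← hint1, ← intervalIntegral.integral_const_mul, ← intervalIntegral.integral_sub
      (hci.const_mul _) hch, ← intervalIntegral.integral_const_mul, ← Real.norm_eq_abs]
    refine intervalIntegral.norm_integral_le_of_norm_le hst ?_ (hci.const_mul _)
    refine Filter.Eventually.of_forall fun v hv => ?_
    have hv0 : 0 < v := lt_trans hs0 hv.1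
    have hvm : v ∈ Set.Icc s t := ⟨hv.1.le, hv.2⟩
    have e5 : h s * v⁻¹ - h v / v = (h s - h v) * v⁻¹ := by
      rw [div_eq_mul_inv]; ring
    rw [e5, Real.norm_eq_abs, abs_mul, abs_of_pos (inv_pos.2 hv0)]
    refine mul_le_mul_of_nonneg_right ?_ (inv_pos.2 hv0).le
    refine (hhL _ hs_mem _ hvm).trans (mul_le_mul_of_nonneg_left ?_ hΛ)
    rw [abs_of_nonpos (by linarith [hvm.1])]
    linarith [hvm.2]
  have e6 : Λ * r * M ≤ Λ * r * (Real.log (t / s) + E) :=
    mul_le_mul_of_nonneg_left hMle (by positivity)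
  have e7 : ∑ p ∈ mtS N s t, g2 p * h (Real.log p / Real.log N) - ∫ v in s..t, h v / v
      = (∑ p ∈ mtS N s t, g2 p * h (Real.log p / Real.log N) - h s * M)
        + (h s * M - h s * Real.log (t / s))
        + (h s * Real.log (t / s) - ∫ v in s..t, h v / v) := by ring
  rw [e7]
  refine (abs_add_le _ _).trans ?_
  have e8 := abs_add_le (∑ p ∈ mtS N s t, g2 p * h (Real.log p / Real.log N) - h s * M)
    (h s * M - h s * Real.log (t / s))
  nlinarith

theorem mtS_add (N : ℕ) (a b c : ℝ) (hab : a ≤ b) (hbc : b ≤ c) (f : ℕ → ℝ) :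
    ∑ p ∈ mtS N a c, f p = ∑ p ∈ mtS N a b, f p + ∑ p ∈ mtS N b c, f p := by
  classical
  rw [← Finset.sum_union]
  · congr 1
    ext p
    unfold mtS
    simp only [Finset.mem_union, Finset.mem_filter]
    constructor
    · rintro ⟨h1, h2, h3, h4⟩
      rcases lt_or_ge (Real.log p / Real.log N) b with h | h
      · exact Or.inl ⟨h1, h2, h3, h⟩
      · exact Or.inr ⟨h1, h2, h, h4⟩
    · rintro (⟨h1, h2, h3, h4⟩ | ⟨h1, h2, h3, h4⟩)
      · exact ⟨h1, h2, h3, lt_of_lt_of_le h4 hbc⟩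
      · exact ⟨h1, h2, hab.trans h3, h4⟩
  · rw [Finset.disjoint_left]
    intro p h1 h2
    unfold mtS at h1 h2
    rw [Finset.mem_filter] at h1 h2
    exact absurd h1.2.2.2 (not_lt.2 h2.2.2.1)

theorem mtS_self (N : ℕ) (a : ℝ) : mtS N a a = ∅ := by
  classical
  unfold mtS
  rw [Finset.filter_eq_empty_iff]
  rintro p _ ⟨_, h1, h2⟩
  exact absurd h2 (not_lt.2 h1)

theorem mert_lip (δ B Λ ε : ℝ) (hδ : 0 < δ) (hB : 0 ≤ B) (hΛ : 0 ≤ Λ) (hε : 0 < ε) :
    ∃ N₀ : ℕ, ∀ N : ℕ, N₀ ≤ N → ∀ v₁ v₂ : ℝ, δ ≤ v₁ → v₁ ≤ v₂ → v₂ ≤ 1 → ∀ h : ℝ → ℝ,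
      (∀ v ∈ Set.Icc v₁ v₂, |h v| ≤ B) →
      (∀ v ∈ Set.Icc v₁ v₂, ∀ w ∈ Set.Icc v₁ v₂, |h v - h w| ≤ Λ * |v - w|) →
      |∑ p ∈ (range N).filter (fun p : ℕ => p.Prime ∧ v₁ ≤ Real.log p / Real.log N ∧
          Real.log p / Real.log N < v₂), g2 p * h (Real.log p / Real.log N) -
        ∫ v in v₁..v₂, h v / v| ≤ ε := by
  obtain ⟨C, hC0, hC⟩ := sum_g2
  -- number of pieces
  obtain ⟨m, hm⟩ := exists_nat_gt (4 * Λ * |Real.log δ| / ε)
  have hlogd : 0 ≤ |Real.log δ| := abs_nonneg _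
  have hm0 : (0 : ℝ) < m := lt_of_le_of_lt (by positivity) hm
  have hmne : m ≠ 0 := by rintro rfl; simp at hm0
  have hm1 : 4 * Λ * |Real.log δ| ≤ ε * m := by
    rw [div_lt_iff₀ hε] at hm
    linarith
  -- threshold
  have htend : Filter.Tendsto (fun N : ℕ => Real.log (N : ℝ)) Filter.atTop Filter.atTop :=
    Real.tendsto_log_atTop.comp tendsto_natCast_atTop_atTop
  obtain ⟨N₁, hN₁⟩ := Filter.eventually_atTop.1
    (htend.eventually_ge_atTop (max 1 (max (Real.log 2 / δ) (2 * (Λ + m * B) * C / (δ * ε)))))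
  refine ⟨max N₁ 2, fun N hN v₁ v₂ h1 h12 h21 h hhB hhL => ?_⟩
  have hN2 : 2 ≤ N := (le_max_right _ _).trans hN
  have hlogN := hN₁ N ((le_max_left _ _).trans hN)
  have hl1 : 1 ≤ Real.log N := (le_max_left _ _).trans hlogN
  have hl2 : Real.log 2 / δ ≤ Real.log N :=
    (le_max_left _ _).trans ((le_max_right _ _).trans hlogN)
  have hl3 : 2 * (Λ + m * B) * C / (δ * ε) ≤ Real.log N :=
    (le_max_right _ _).trans ((le_max_right _ _).trans hlogN)
  have hl : 0 < Real.log N := by linarith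
  have hN0 : (0 : ℝ) < N := by exact_mod_cast (by omega : 0 < N)
  have h2 : 2 ≤ (N : ℝ) ^ δ := by
    rw [← Real.log_le_log_iff (by norm_num) (Real.rpow_pos_of_pos hN0 _), Real.log_rpow hN0]
    rw [div_le_iff₀ hδ] at hl2
    linarith
  set r := (v₂ - v₁) / m with hr
  have hr0 : 0 ≤ r := div_nonneg (by linarith) hm0.le
  have hr1 : r ≤ 1 / m := by
    rw [hr]
    exact div_le_div_of_nonneg_right (by linarith) hm0.le
  have hmr : m * r = v₂ - v₁ := by rw [hr]; field_simp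
  have hv1 : 0 < v₁ := lt_of_lt_of_le hδ h1
  have key : ∀ j : ℕ, j ≤ m → |∑ p ∈ mtS N v₁ (v₁ + j * r), g2 p * h (Real.log p / Real.log N)
      - ∫ v in v₁..(v₁ + j * r), h v / v|
      ≤ 2 * Λ * (1 / m) * Real.log ((v₁ + j * r) / v₁)
        + j * ((Λ * (1 / m) + B) * (C / (δ * Real.log N))) := by
    intro j
    induction j with
    | zero =>
      intro _
      simp [mtS_self, hv1.ne']
    | succ j ih =>
      intro hj
      have ih' := ih (by omega)
      have hjm : ((j + 1 : ℕ) : ℝ) ≤ m := by exact_mod_cast hj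
      set s := v₁ + (j : ℝ) * r with hs
      set t := v₁ + ((j + 1 : ℕ) : ℝ) * r with ht
      have hst : t - s = r := by rw [hs, ht]; push_cast; ring
      have hv1s : v₁ ≤ s := by rw [hs]; nlinarith [mul_nonneg (Nat.cast_nonneg (α := ℝ) j) hr0]
      have hsle : s ≤ t := by linarith
      have htv2 : t ≤ v₂ := by
        rw [ht]
        have := mul_le_mul_of_nonneg_right hjm hr0
        linarith
      have hs0 : 0 < s := lt_of_lt_of_le hv1 hv1s
      have hp := mt_piece hC0 hC N hN2 δ s t B Λ (1 / m) hδ (h1.trans hv1s) hsle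
        (htv2.trans h21) h2 hB hΛ (by linarith) h
        (fun v hv => hhB v ⟨hv1s.trans hv.1, hv.2.trans htv2⟩)
        (fun v hv w hw => hhL v ⟨hv1s.trans hv.1, hv.2.trans htv2⟩ w
          ⟨hv1s.trans hw.1, hw.2.trans htv2⟩)
      rw [mtS_add N v₁ s t hv1s hsle]
      have hcont := mt_cont (h := h) (Λ := Λ) (a := v₁) (b := v₂) hv1 hhL
      have hi1 : IntervalIntegrable (fun v => h v / v) MeasureTheory.volume v₁ s := by
        refine ContinuousOn.intervalIntegrable ?_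
        rw [Set.uIcc_of_le hv1s]
        exact hcont.mono (Set.Icc_subset_Icc le_rfl (hsle.trans htv2))
      have hi2 : IntervalIntegrable (fun v => h v / v) MeasureTheory.volume s t := by
        refine ContinuousOn.intervalIntegrable ?_
        rw [Set.uIcc_of_le hsle]
        exact hcont.mono (Set.Icc_subset_Icc hv1s htv2)
      rw [← intervalIntegral.integral_add_adjacent_intervals hi1 hi2]
      have hlog : Real.log (t / v₁) = Real.log (s / v₁) + Real.log (t / s) := by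
        rw [← Real.log_mul (by positivity) (by have : 0 < t := by linarith
                                               positivity)]
        congr 1
        field_simp
      rw [hlog]
      have e1 : ∑ p ∈ mtS N v₁ s, g2 p * h (Real.log p / Real.log N)
          + ∑ p ∈ mtS N s t, g2 p * h (Real.log p / Real.log N)
          - ((∫ v in v₁..s, h v / v) + ∫ v in s..t, h v / v)
          = (∑ p ∈ mtS N v₁ s, g2 p * h (Real.log p / Real.log N) - ∫ v in v₁..s, h v / v)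
            + (∑ p ∈ mtS N s t, g2 p * h (Real.log p / Real.log N) - ∫ v in s..t, h v / v) := by
        ring
      rw [e1]
      refine (abs_add_le _ _).trans ?_
      push_cast
      nlinarith
  have hfin := key m le_rfl
  have hv2 : v₁ + m * r = v₂ := by rw [hmr]; ring
  rw [hv2] at hfin
  have hsum : ∑ p ∈ (range N).filter (fun p : ℕ => p.Prime ∧ v₁ ≤ Real.log p / Real.log N ∧
          Real.log p / Real.log N < v₂), g2 p * h (Real.log p / Real.log N)
      = ∑ p ∈ mtS N v₁ v₂, g2 p * h (Real.log p / Real.log N) := by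
    unfold mtS
    refine Finset.sum_congr ?_ fun _ _ => rfl
    ext p
    simp only [Finset.mem_filter]
  rw [hsum]
  refine hfin.trans ?_
  have hlogle : Real.log (v₂ / v₁) ≤ |Real.log δ| := by
    have h3 : v₂ / v₁ ≤ 1 / δ := by
      rw [div_le_div_iff₀ hv1 hδ]
      nlinarith
    have h4 := Real.log_le_log (div_pos (by linarith) hv1) h3
    rw [one_div, Real.log_inv] at h4
    exact h4.trans (neg_le_abs _)
  have e1 : 2 * Λ * (1 / m) * Real.log (v₂ / v₁) ≤ ε / 2 := by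
    calc 2 * Λ * (1 / m) * Real.log (v₂ / v₁) ≤ 2 * Λ * (1 / m) * |Real.log δ| := by gcongr
      _ = (4 * Λ * |Real.log δ|) / m / 2 := by ring
      _ ≤ (ε * m) / m / 2 := by gcongr
      _ = ε / 2 := by field_simp
  have e2 : (m : ℝ) * ((Λ * (1 / m) + B) * (C / (δ * Real.log N))) ≤ ε / 2 := by
    have h5 : (m : ℝ) * ((Λ * (1 / m) + B) * (C / (δ * Real.log N)))
        = (Λ + m * B) * C / (δ * Real.log N) := by
      field_simp
    rw [h5, div_le_div_iff₀ (by positivity) (by norm_num)]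
    rw [div_le_iff₀ (by positivity)] at hl3
    nlinarith
  linarith

/-- total mass -/
theorem mass_le : ∃ C : ℝ, 0 ≤ C ∧ ∀ δ : ℝ, 0 < δ → δ ≤ 1 → ∃ N₀ : ℕ, ∀ N : ℕ, N₀ ≤ N →
    ∑ p ∈ PQ (pw N δ) N, g2 p ≤ Real.log (1 / δ) + C := by
  obtain ⟨C, hC0, hC⟩ := sum_g2
  have hlog2 : 0 < Real.log 2 := Real.log_pos (by norm_num)
  refine ⟨C / Real.log 2, by positivity, fun δ hδ hδ1 => ?_⟩
  have htend : Filter.Tendsto (fun N : ℕ => Real.log (N : ℝ)) Filter.atTop Filter.atTop :=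
    Real.tendsto_log_atTop.comp tendsto_natCast_atTop_atTop
  obtain ⟨N₁, hN₁⟩ := Filter.eventually_atTop.1
    (htend.eventually_ge_atTop (Real.log 2 / δ))
  refine ⟨max N₁ 2, fun N hN => ?_⟩
  have hN2 : 2 ≤ N := (le_max_right _ _).trans hN
  have hl2 := hN₁ N ((le_max_left _ _).trans hN)
  have hN1 : (1 : ℝ) < N := by exact_mod_cast (by omega : 1 < N)
  have hN0 : (0 : ℝ) < N := by linarith
  have hl : 0 < Real.log N := Real.log_pos hN1
  rw [div_le_iff₀ hδ] at hl2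
  have h2 : 2 ≤ (N : ℝ) ^ δ := by
    rw [← Real.log_le_log_iff (by norm_num) (Real.rpow_pos_of_pos hN0 _), Real.log_rpow hN0]
    linarith
  have h3 := mt_mass hC N hN2 δ 1 hδ hδ1 h2
  rw [Real.rpow_one, Nat.ceil_natCast] at h3
  have h4 : PQ (pw N δ) N = (Ico ⌈(N : ℝ) ^ δ⌉₊ N).filter Nat.Prime := rfl
  rw [h4]
  have h5 : C / (δ * Real.log N) ≤ C / Real.log 2 :=
    div_le_div_of_nonneg_left hC0 hlog2 (by linarith)
  linarith [(abs_le.1 h3).2]

end Pool.Agent.Work.MP_34d05d_al.Sh
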