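import Mathlib
import Pool.Agent.Work.MP_2dba45_nt.Sv.Defs
import Pool.Agent.Work.MP_2dba45_nt.Sv.SRec
import Pool.Agent.Work.MP_2dba45_nt.Sv.DdeInt
import Pool.Agent.Work.MP_2dba45_nt.Sv.DdeLip
import Pool.Agent.Work.MP_2dba45_nt.Sv.DdeForm
import Pool.Agent.Work.MP_2dba45_nt.Sv.Box
import Pool.Agent.Work.MP_34d05d_al.P2

set_option autoImplicit false

/-!
Copy of Sv/MainInd (MP_2dba45_nt) for the density 1/(p-1): the main terms of the Rosser weights.
-/

namespace Pool.Agent.Work.MP_34d05d_al.Sh

open Finset Pool.Agent.Work.MP_2dba45_nt.Sv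

theorem mi_g2_nonneg (p : ℕ) : 0 ≤ g2 p := g2_nonneg p

theorem mi_G2_insert {p : ℕ} {T : Finset ℕ} (h : p ∉ T) : G2 (insert p T) = g2 p * G2 T := by
  unfold G2
  rw [Finset.prod_insert h]

theorem mi_SS_insert (P : Finset ℕ) (a : ℕ → ℕ) (par : Bool) (p : ℕ) (L : ℤ) :
    SS P a par p L (fun T => G2 (insert p T)) = g2 p * SS P a par p L G2 := by
  have h1 : SS P a par p L (fun T => G2 (insert p T)) =
      SS P a par p L (fun T => g2 p * G2 T) := by
    apply SS_congr
    intro T hT
    apply mi_G2_insert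
    intro hp
    have := hT hp
    rw [Finset.mem_filter] at this
    exact lt_irrefl _ this.2
  rw [h1]
  unfold SS
  rw [Finset.mul_sum]
  refine Finset.sum_congr rfl fun T _ => ?_
  ring

theorem mi_rec_false (P : Finset ℕ) (a : ℕ → ℕ) (z : ℕ) (L : ℤ) :
    SS P a false z L G2 = 1 - ∑ p ∈ P.filter (fun p => p < z),
      g2 p * SS P a true p (L - a p) G2 := by
  rw [SS_rec]
  have h0 : G2 ∅ = 1 := by simp [G2]
  rw [h0]
  congr 1
  refine Finset.sum_congr rfl fun p _ => ?_
  rw [if_pos (by simp)]
  exact mi_SS_insert P a true p _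

theorem mi_rec_true (P : Finset ℕ) (a : ℕ → ℕ) (z : ℕ) (L : ℤ) :
    SS P a true z L G2 = 1 - ∑ p ∈ (P.filter (fun p => p < z)).filter (fun p => 3 * (a p : ℤ) ≤ L),
      g2 p * SS P a false p (L - a p) G2 := by
  rw [SS_rec]
  have h0 : G2 ∅ = 1 := by simp [G2]
  rw [h0]
  congr 1
  refine Eq.trans ?_ (Finset.sum_filter _ _).symm
  refine Finset.sum_congr rfl fun p _ => ?_
  by_cases h : 3 * (a p : ℤ) ≤ L
  · rw [if_pos (fun _ => h), if_pos h]
    exact mi_SS_insert P a false p _
  · rw [if_neg (fun h' => h (h' rfl)), if_neg h]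

theorem mi_mem_PQ {N p : ℕ} {δ : ℝ} (hN : 2 ≤ N) :
    p ∈ PQ (pw N δ) N ↔ p.Prime ∧ δ ≤ Real.log p / Real.log N ∧ p < N := by
  unfold PQ
  rw [Finset.mem_filter, Finset.mem_Ico]
  constructor
  · rintro ⟨⟨h1, h2⟩, h3⟩
    refine ⟨h3, ?_, h2⟩
    by_contra hcon
    push Not at hcon
    have := (lt_pw_iff_log N p δ hN h3.one_lt.le).mpr hcon
    omega
  · rintro ⟨h1, h2, h3⟩
    refine ⟨⟨?_, h3⟩, h1⟩
    by_contra hcon
    push Not at hcon
    have := (lt_pw_iff_log N p δ hN h1.one_lt.le).mp hcon
    linarith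

/-- Lipschitz and sup bounds of the integrands. -/
theorem mi_lip (φ : ℝ → ℝ) (A δ τ C v₂ s₀ : ℝ) (hδ : 0 < δ) (hA0 : 0 ≤ A) (hA : A ≤ 5)
    (hC : 0 ≤ C) (hτ0 : 0 ≤ τ) (hτ : τ ≤ 2)
    (hφ1 : ∀ s, s₀ ≤ s → |φ s| ≤ 1) (hφ2 : ∀ s t, s₀ ≤ s → s₀ ≤ t → |φ s - φ t| ≤ C * |s - t|)
    (hv : ∀ v, δ ≤ v → v ≤ v₂ → s₀ ≤ τ / v - 1) :
    (∀ v ∈ Set.Icc δ v₂, |A * (δ / v) * φ (τ / v - 1)| ≤ 5) ∧
    (∀ v ∈ Set.Icc δ v₂, ∀ w ∈ Set.Icc δ v₂,
      |A * (δ / v) * φ (τ / v - 1) - A * (δ / w) * φ (τ / w - 1)| ≤
        (5 * (2 * C / δ ^ 2 + 1 / δ)) * |v - w|) := by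
  constructor
  · intro v hvm
    have hv0 : 0 < v := lt_of_lt_of_le hδ hvm.1
    have h1 : δ / v ≤ 1 := by rw [div_le_one hv0]; exact hvm.1
    have h2 : 0 ≤ δ / v := by positivity
    rw [abs_mul, abs_of_nonneg (by positivity : 0 ≤ A * (δ / v))]
    calc A * (δ / v) * |φ (τ / v - 1)| ≤ 5 * 1 * 1 := by
          apply mul_le_mul _ (hφ1 _ (hv v hvm.1 hvm.2)) (abs_nonneg _) (by norm_num)
          exact mul_le_mul hA h1 h2 (by norm_num)
      _ = 5 := by norm_num
  · intro v hvm w hwm
    have hv0 : 0 < v := lt_of_lt_of_le hδ hvm.1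
    have hw0 : 0 < w := lt_of_lt_of_le hδ hwm.1
    have hinv : |1 / v - 1 / w| ≤ |v - w| / δ ^ 2 := by
      have h3 : 1 / v - 1 / w = (w - v) / (v * w) := by field_simp
      rw [h3, abs_div, abs_sub_comm w v, abs_of_pos (mul_pos hv0 hw0)]
      apply div_le_div_of_nonneg_left (abs_nonneg _) (by positivity)
      calc δ ^ 2 = δ * δ := by ring
        _ ≤ v * w := mul_le_mul hvm.1 hwm.1 hδ.le hv0.le
    have hφd : |φ (τ / v - 1) - φ (τ / w - 1)| ≤ C * (2 * (|v - w| / δ ^ 2)) := by
      refine (hφ2 _ _ (hv v hvm.1 hvm.2) (hv w hwm.1 hwm.2)).trans ?_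
      apply mul_le_mul_of_nonneg_left _ hC
      have h4 : τ / v - 1 - (τ / w - 1) = τ * (1 / v - 1 / w) := by ring
      rw [h4, abs_mul, abs_of_nonneg hτ0]
      exact mul_le_mul hτ hinv (abs_nonneg _) (by norm_num)
    have h5 : A * (δ / v) * φ (τ / v - 1) - A * (δ / w) * φ (τ / w - 1) =
        A * δ * ((1 / v) * (φ (τ / v - 1) - φ (τ / w - 1)) +
          (1 / v - 1 / w) * φ (τ / w - 1)) := by
      field_simp
      ring
    rw [h5, abs_mul, abs_of_nonneg (by positivity : 0 ≤ A * δ)]
    have h6 : |(1 / v) * (φ (τ / v - 1) - φ (τ / w - 1)) + (1 / v - 1 / w) * φ (τ / w - 1)| ≤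
        (1 / δ) * (C * (2 * (|v - w| / δ ^ 2))) + |v - w| / δ ^ 2 * 1 := by
      refine (abs_add_le _ _).trans (add_le_add ?_ ?_)
      · rw [abs_mul, abs_of_pos (by positivity : 0 < 1 / v)]
        apply mul_le_mul _ hφd (abs_nonneg _) (by positivity)
        exact one_div_le_one_div_of_le hδ hvm.1
      · rw [abs_mul]
        exact mul_le_mul hinv (hφ1 _ (hv w hwm.1 hwm.2)) (abs_nonneg _) (by positivity)
    calc A * δ * |(1 / v) * (φ (τ / v - 1) - φ (τ / w - 1)) + (1 / v - 1 / w) * φ (τ / w - 1)|
        ≤ 5 * δ * ((1 / δ) * (C * (2 * (|v - w| / δ ^ 2))) + |v - w| / δ ^ 2 * 1) := by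
          apply mul_le_mul _ h6 (abs_nonneg _) (by positivity)
          exact mul_le_mul_of_nonneg_right hA hδ.le
      _ = (5 * (2 * C / δ ^ 2 + 1 / δ)) * |v - w| := by
          field_simp

theorem mi_index {N : ℕ} {δ ζ : ℝ} (hN : 2 ≤ N) (z : ℕ)
    (hz : ∀ p ∈ PQ (pw N δ) N, (p < z ↔ Real.log p / Real.log N < ζ)) :
    (PQ (pw N δ) N).filter (fun p => p < z) ⊆
      (range N).filter (fun p : ℕ => p.Prime ∧ δ ≤ Real.log p / Real.log N ∧
          Real.log p / Real.log N < ζ) := by
  intro p hp
  rw [Finset.mem_filter] at hp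
  have h1 := (mi_mem_PQ hN).mp hp.1
  rw [Finset.mem_filter, Finset.mem_range]
  exact ⟨h1.2.2, h1.1, h1.2.1, (hz p hp.1).mp hp.2⟩

theorem mi_index' {N : ℕ} {δ ζ : ℝ} (hN : 2 ≤ N) :
    (range N).filter (fun p : ℕ => p.Prime ∧ δ ≤ Real.log p / Real.log N ∧
          Real.log p / Real.log N < ζ) =
      (PQ (pw N δ) N).filter (fun p : ℕ => Real.log p / Real.log N < ζ) := by
  ext p
  rw [Finset.mem_filter, Finset.mem_filter, Finset.mem_range, mi_mem_PQ hN]
  tauto

/-- lower bound step -/
theorem mi_minus {F f : ℝ → ℝ} (h : DDE F f) {δ A Γ ε₁ ζ e τ : ℝ} {K N L z : ℕ} (hN : 2 ≤ N)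
    (hδ : 0 < δ) (hζ : δ ≤ ζ) (hdom : 2 * ζ ≤ τ)
    (hAf : A * f (τ / δ) ≤ 1) (he : 0 ≤ e)
    (hz : ∀ p ∈ PQ (pw N δ) N, (p < z ↔ Real.log p / Real.log N < ζ))
    (hmass : ∑ p ∈ PQ (pw N δ) N, g2 p ≤ Γ)
    (hmert : |∑ p ∈ (range N).filter (fun p : ℕ => p.Prime ∧ δ ≤ Real.log p / Real.log N ∧
          Real.log p / Real.log N < ζ),
          g2 p * (A * (δ / (Real.log p / Real.log N)) * F (τ / (Real.log p / Real.log N) - 1)) -
        ∫ v in δ..ζ, (A * (δ / v) * F (τ / v - 1)) / v| ≤ ε₁)
    (hIH : ∀ p ∈ PQ (pw N δ) N, p < z →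
      SS (PQ (pw N δ) N) (cost K N) true p ((L : ℤ) - cost K N p) G2 ≤
        A * (δ / (Real.log p / Real.log N)) * F (τ / (Real.log p / Real.log N) - 1) + e) :
    A * (δ / ζ) * f (τ / ζ) - (ε₁ + Γ * e) ≤ SS (PQ (pw N δ) N) (cost K N) false z L G2 := by
  have hζ0 : 0 < ζ := lt_of_lt_of_le hδ hζ
  rw [mi_rec_false]
  have hint : ∫ v in δ..ζ, (A * (δ / v) * F (τ / v - 1)) / v =
      A * δ * (f (τ / δ) / δ - f (τ / ζ) / ζ) := by
    rw [← int_F h δ ζ τ hδ hζ hdom, ← intervalIntegral.integral_const_mul]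
    congr 1
    funext v
    rcases eq_or_ne v 0 with hv | hv
    · subst hv; simp
    · field_simp
  rw [hint] at hmert
  have hidx : (range N).filter (fun p : ℕ => p.Prime ∧ δ ≤ Real.log p / Real.log N ∧
          Real.log p / Real.log N < ζ) = (PQ (pw N δ) N).filter (fun p => p < z) := by
    rw [mi_index' hN]
    apply Finset.filter_congr
    intro p hp
    exact (hz p hp).symm
  rw [hidx] at hmert
  have h1 : ∑ p ∈ (PQ (pw N δ) N).filter (fun p => p < z),
      g2 p * SS (PQ (pw N δ) N) (cost K N) true p ((L : ℤ) - cost K N p) G2 ≤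
      ∑ p ∈ (PQ (pw N δ) N).filter (fun p => p < z),
        (g2 p * (A * (δ / (Real.log p / Real.log N)) * F (τ / (Real.log p / Real.log N) - 1)) +
          g2 p * e) := by
    apply Finset.sum_le_sum
    intro p hp
    rw [Finset.mem_filter] at hp
    rw [← mul_add]
    exact mul_le_mul_of_nonneg_left (hIH p hp.1 hp.2) (mi_g2_nonneg p)
  rw [Finset.sum_add_distrib, ← Finset.sum_mul] at h1
  have h2 : (∑ p ∈ (PQ (pw N δ) N).filter (fun p => p < z), g2 p) * e ≤ Γ * e := by
    apply mul_le_mul_of_nonneg_right _ he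
    refine le_trans ?_ hmass
    exact Finset.sum_le_sum_of_subset_of_nonneg (Finset.filter_subset _ _)
      (fun p _ _ => mi_g2_nonneg p)
  have h3 := (abs_le.mp hmert).2
  have h4 : A * δ * (f (τ / δ) / δ - f (τ / ζ) / ζ) =
      A * f (τ / δ) - A * (δ / ζ) * f (τ / ζ) := by
    field_simp
  rw [h4] at h3
  linarith

/-- upper bound step -/
theorem mi_plus {F f : ℝ → ℝ} (h : DDE F f) {δ A Γ ε₁ ζ' e τ : ℝ} {K N L z : ℕ} (hN : 2 ≤ N)
    (hδ : 0 < δ) (hζ : δ ≤ ζ') (hdom : 3 * ζ' ≤ τ)
    (hAF : 1 ≤ A * F (τ / δ)) (he : 0 ≤ e)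
    (hz : ∀ p ∈ PQ (pw N δ) N, ((p < z ∧ 3 * (cost K N p : ℤ) ≤ L) ↔
      Real.log p / Real.log N < ζ'))
    (hmass : ∑ p ∈ PQ (pw N δ) N, g2 p ≤ Γ)
    (hmert : |∑ p ∈ (range N).filter (fun p : ℕ => p.Prime ∧ δ ≤ Real.log p / Real.log N ∧
          Real.log p / Real.log N < ζ'),
          g2 p * (A * (δ / (Real.log p / Real.log N)) * f (τ / (Real.log p / Real.log N) - 1)) -
        ∫ v in δ..ζ', (A * (δ / v) * f (τ / v - 1)) / v| ≤ ε₁)
    (hIH : ∀ p ∈ PQ (pw N δ) N, p < z → 3 * (cost K N p : ℤ) ≤ L →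
      A * (δ / (Real.log p / Real.log N)) * f (τ / (Real.log p / Real.log N) - 1) - e ≤
      SS (PQ (pw N δ) N) (cost K N) false p ((L : ℤ) - cost K N p) G2) :
    SS (PQ (pw N δ) N) (cost K N) true z L G2 ≤
      A * (δ / ζ') * F (τ / ζ') + (ε₁ + Γ * e) := by
  have hζ0 : 0 < ζ' := lt_of_lt_of_le hδ hζ
  rw [mi_rec_true]
  have hint : ∫ v in δ..ζ', (A * (δ / v) * f (τ / v - 1)) / v =
      A * δ * (F (τ / δ) / δ - F (τ / ζ') / ζ') := by
    rw [← int_f h δ ζ' τ hδ hζ hdom, ← intervalIntegral.integral_const_mul]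
    congr 1
    funext v
    rcases eq_or_ne v 0 with hv | hv
    · subst hv; simp
    · field_simp
  rw [hint] at hmert
  have hidx : (range N).filter (fun p : ℕ => p.Prime ∧ δ ≤ Real.log p / Real.log N ∧
          Real.log p / Real.log N < ζ') =
      ((PQ (pw N δ) N).filter (fun p => p < z)).filter (fun p => 3 * (cost K N p : ℤ) ≤ L) := by
    rw [mi_index' hN, Finset.filter_filter]
    apply Finset.filter_congr
    intro p hp
    exact (hz p hp).symm
  rw [hidx] at hmert
  set Q := ((PQ (pw N δ) N).filter (fun p => p < z)).filter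
    (fun p => 3 * (cost K N p : ℤ) ≤ L) with hQ
  have h1 : ∑ p ∈ Q,
        (g2 p * (A * (δ / (Real.log p / Real.log N)) * f (τ / (Real.log p / Real.log N) - 1)) -
          g2 p * e) ≤ ∑ p ∈ Q,
      g2 p * SS (PQ (pw N δ) N) (cost K N) false p ((L : ℤ) - cost K N p) G2 := by
    apply Finset.sum_le_sum
    intro p hp
    rw [hQ, Finset.mem_filter, Finset.mem_filter] at hp
    rw [← mul_sub]
    exact mul_le_mul_of_nonneg_left (hIH p hp.1.1 hp.1.2 hp.2) (mi_g2_nonneg p)
  rw [Finset.sum_sub_distrib, ← Finset.sum_mul] at h1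
  have h2 : (∑ p ∈ Q, g2 p) * e ≤ Γ * e := by
    apply mul_le_mul_of_nonneg_right _ he
    refine le_trans ?_ hmass
    exact Finset.sum_le_sum_of_subset_of_nonneg
      ((Finset.filter_subset _ _).trans (Finset.filter_subset _ _))
      (fun p _ _ => mi_g2_nonneg p)
  have h3 := (abs_le.mp hmert).1
  have h4 : A * δ * (F (τ / δ) / δ - F (τ / ζ') / ζ') =
      A * F (τ / δ) - A * (δ / ζ') * F (τ / ζ') := by
    field_simp
  rw [h4] at h3
  linarith

theorem mi_cmp {A δ ζ' τ κ : ℝ} (hA0 : 0 ≤ A) (hA : A ≤ 5) (hδ : 0 < δ) (hζ : δ < ζ')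
    (h3 : 3 * ζ' ≤ τ) (hκ : τ - 3 * ζ' ≤ 2 * κ) (hκ0 : 0 ≤ κ) :
    A * (δ / ζ') * (1 / 3) ≤ A * δ / τ + 2 * (κ / δ) := by
  have hζ0 : 0 < ζ' := hδ.trans hζ
  have hτ0 : 0 < τ := by linarith
  have h1 : A * (δ / ζ') * (1 / 3) - A * δ / τ = A * δ * (τ - 3 * ζ') / (3 * ζ' * τ) := by
    field_simp
  have h2 : A * δ * (τ - 3 * ζ') / (3 * ζ' * τ) ≤ 5 * δ * (2 * κ) / (9 * δ ^ 2) := by
    have h4 : 0 ≤ τ - 3 * ζ' := by linarith
    apply div_le_div₀ (by positivity) _ (by positivity)
    · nlinarith [mul_le_mul hζ.le hζ.le hδ.le hζ0.le]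
    · apply mul_le_mul (mul_le_mul_of_nonneg_right hA hδ.le) hκ h4 (by positivity)
  have h3 : 5 * δ * (2 * κ) / (9 * δ ^ 2) ≤ 2 * (κ / δ) := by
    rw [show 5 * δ * (2 * κ) / (9 * δ ^ 2) = (10 / 9) * (κ / δ) by field_simp; ring]
    have : 0 ≤ κ / δ := by positivity
    linarith
  linarith

theorem main_ind (F f : ℝ → ℝ) (h : DDE F f) (δ ε : ℝ) (hδ : 0 < δ) (hδ1 : δ ≤ 1 / 10)
    (hε : 0 < ε) : ∃ K₀ : ℕ, ∀ K : ℕ, K₀ ≤ K → ∃ N₀ : ℕ, ∀ N : ℕ, N₀ ≤ N →
      ∀ L : ℕ, 1 ≤ L → L ≤ 2 * K → ∀ (z : ℕ) (ζ : ℝ), δ ≤ ζ → ζ ≤ 1 →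
        (∀ p ∈ PQ (pw N δ) N, (p < z ↔ Real.log p / Real.log N < ζ)) →
        SS (PQ (pw N δ) N) (cost K N) true z L G2 ≤
          1 / f (2 / δ) * (δ / ζ) * F ((L : ℝ) / K / ζ) + ε ∧
        (2 * ζ ≤ (L : ℝ) / K →
          1 / f (2 / δ) * (δ / ζ) * f ((L : ℝ) / K / ζ) - ε ≤
            SS (PQ (pw N δ) N) (cost K N) false z L G2) := by
  classical
  obtain ⟨CF, hCF0, hCF⟩ := lip_F h
  obtain ⟨Cf, hCf0, hCf⟩ := lip_f h
  obtain ⟨Cm, hCm0, hCm⟩ := mass_le
  obtain ⟨Nm, hNm⟩ := hCm δ hδ (by linarith)
  set C : ℝ := max CF Cf with hCdef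
  have hC0 : 0 ≤ C := le_max_of_le_left hCF0
  set R : ℝ := 2 / δ with hR
  have hR20 : 20 ≤ R := by rw [hR, le_div_iff₀ hδ]; linarith
  have hfR : 1 / 5 ≤ f R := f_pos h R (by linarith)
  have hfR0 : 0 < f R := by linarith
  set A : ℝ := 1 / f R with hA
  have hA0 : 0 < A := by positivity
  have hA5 : A ≤ 5 := by rw [hA, div_le_iff₀ hfR0]; linarith
  have hF3 : F 3 = 1 / 3 := h.F3 3 (by norm_num) le_rfl
  have hFR : f R ≤ F 3 := (h.fF R (by linarith)).trans
    (h.Fanti (Set.mem_Ioi.mpr (by norm_num)) (Set.mem_Ioi.mpr (by linarith)) (by linarith))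
  have hA3 : 3 ≤ A := by rw [hA, le_div_iff₀ hfR0]; rw [hF3] at hFR; linarith
  have hAf : ∀ s, s ≤ R → A * f s ≤ 1 := by
    intro s hs
    have h1 := h.fmono hs
    rw [hA, div_mul_eq_mul_div, one_mul, div_le_one hfR0]
    exact h1
  have hAF : ∀ s, 0 < s → s ≤ R → 1 ≤ A * F s := by
    intro s hs0 hs
    have h1 : F R ≤ F s := h.Fanti (Set.mem_Ioi.mpr hs0) (Set.mem_Ioi.mpr (by linarith)) hs
    have h2 := h.fF R (by linarith)
    rw [hA, div_mul_eq_mul_div, one_mul, one_le_div hfR0]
    linarith
  set Γ : ℝ := max (Real.log (1 / δ) + Cm) 1 with hΓ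
  have hΓ1 : 1 ≤ Γ := le_max_right _ _
  set G : ℝ := 2 + Γ with hG
  have hG1 : 1 ≤ G := by linarith
  have hG0 : 0 < G := by linarith
  set η : ℝ := ε / G ^ R with hη
  have hη0 : 0 < η := by positivity
  set Λ : ℝ := 5 * (2 * C / δ ^ 2 + 1 / δ) with hΛ
  obtain ⟨Nl, hNl⟩ := mert_lip δ 5 Λ (η / G) hδ (by norm_num) (by positivity) (by positivity)
  obtain ⟨K₀, hK₀⟩ := exists_nat_gt (max (2 / δ) ((5 * Γ * C + 2) * G / (η * δ)))
  refine ⟨K₀, fun K hK => ⟨max (max Nm Nl) 2, fun N hN => ?_⟩⟩
  have hN2 : 2 ≤ N := le_trans (le_max_right _ _) hN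
  have hNNm : Nm ≤ N := le_trans (le_trans (le_max_left _ _) (le_max_left _ _)) hN
  have hNNl : Nl ≤ N := le_trans (le_trans (le_max_right _ _) (le_max_left _ _)) hN
  have hKr : (K₀ : ℝ) ≤ K := by exact_mod_cast hK
  have hKδ : 2 ≤ (K : ℝ) * δ := by
    have h1 : 2 / δ < K := lt_of_le_of_lt (le_max_left _ _) (lt_of_lt_of_le hK₀ hKr)
    rw [div_lt_iff₀ hδ] at h1
    exact h1.le
  have hK0 : (0 : ℝ) < K := by
    by_contra hcon
    push Not at hcon
    nlinarith
  have hK1 : 1 ≤ K := by exact_mod_cast (by exact_mod_cast hK0 : 0 < K)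
  have hKerr : (5 * Γ * C + 2) / (K * δ) ≤ η / G := by
    have h1 : (5 * Γ * C + 2) * G / (η * δ) < K :=
      lt_of_le_of_lt (le_max_right _ _) (lt_of_lt_of_le hK₀ hKr)
    rw [div_lt_iff₀ (by positivity)] at h1
    rw [div_le_div_iff₀ (by positivity) hG0]
    nlinarith
  have hlogN : 0 < Real.log N := Real.log_pos (by exact_mod_cast hN2)
  have hmass : ∑ p ∈ PQ (pw N δ) N, g2 p ≤ Γ := (hNm N hNNm).trans (le_max_left _ _)
  set E : ℕ → ℝ := fun L => η * G ^ ((L : ℝ) / (K * δ)) with hE
  have hEη : ∀ L, η ≤ E L := by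
    intro L
    have h1 : 1 ≤ G ^ ((L : ℝ) / (K * δ)) := Real.one_le_rpow hG1 (by positivity)
    calc η = η * 1 := (mul_one _).symm
      _ ≤ E L := mul_le_mul_of_nonneg_left h1 hη0.le
  have hElast : ∀ L : ℕ, L ≤ 2 * K → E L ≤ ε := by
    intro L hL
    have h1 : (L : ℝ) / (K * δ) ≤ R := by
      rw [hR, div_le_div_iff₀ (by positivity) hδ]
      have : (L : ℝ) ≤ 2 * K := by exact_mod_cast hL
      nlinarith
    calc E L ≤ η * G ^ R :=
          mul_le_mul_of_nonneg_left (Real.rpow_le_rpow_of_exponent_le hG1 h1) hη0.le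
      _ = ε := by rw [hη]; field_simp
  have hEdec : ∀ L a : ℕ, a ≤ L → (K : ℝ) * δ < a → E (L - a) ≤ E L / G := by
    intro L a haL ha
    have h1 : (((L - a : ℕ) : ℝ)) / (K * δ) ≤ (L : ℝ) / (K * δ) - 1 := by
      rw [Nat.cast_sub haL, sub_div]
      have : 1 ≤ (a : ℝ) / (K * δ) := by rw [one_le_div (by positivity)]; exact ha.le
      linarith
    have h2 : G ^ ((((L - a : ℕ) : ℝ)) / (K * δ)) ≤ G ^ ((L : ℝ) / (K * δ)) / G := by
      calc G ^ ((((L - a : ℕ) : ℝ)) / (K * δ)) ≤ G ^ ((L : ℝ) / (K * δ) - 1) :=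
            Real.rpow_le_rpow_of_exponent_le hG1 h1
        _ = G ^ ((L : ℝ) / (K * δ)) / G := Real.rpow_sub_one hG0.ne' _
    calc E (L - a) ≤ η * (G ^ ((L : ℝ) / (K * δ)) / G) := mul_le_mul_of_nonneg_left h2 hη0.le
      _ = E L / G := by simp only [hE]; ring
  -- lower bound for the upper bound function
  have hPhi : ∀ τ ζ : ℝ, 0 < τ → δ ≤ ζ → A * δ / τ ≤ A * (δ / ζ) * F (τ / ζ) := by
    intro τ ζ hτ hζ
    have hζ0 : 0 < ζ := lt_of_lt_of_le hδ hζ
    have h1 : 1 / τ ≤ F (τ / ζ) / ζ := by
      rcases le_or_gt (τ / ζ) 3 with h3 | h3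
      · rw [h.F3 _ (by positivity) h3]
        apply le_of_eq
        field_simp
      · have h4 : 3 * ζ < τ := by rwa [lt_div_iff₀ hζ0] at h3
        have h5 := int_f h ζ (τ / 3) τ hζ0 (by linarith) (by linarith)
        have h6 : 0 ≤ ∫ v in ζ..(τ / 3), f (τ / v - 1) / v ^ 2 := by
          apply intervalIntegral.integral_nonneg (by linarith)
          intro v _
          exact div_nonneg (h.fnn _) (by positivity)
        have h7 : τ / (τ / 3) = 3 := by field_simp
        rw [h5, h7, hF3] at h6
        have h8 : (1 : ℝ) / 3 / (τ / 3) = 1 / τ := by field_simp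
        linarith
    calc A * δ / τ = A * δ * (1 / τ) := by ring
      _ ≤ A * δ * (F (τ / ζ) / ζ) := mul_le_mul_of_nonneg_left h1 (by positivity)
      _ = A * (δ / ζ) * F (τ / ζ) := by ring
  have hkey : ∀ L : ℕ, 1 ≤ L → L ≤ 2 * K → ∀ (z : ℕ) (ζ : ℝ), δ ≤ ζ → ζ ≤ 1 →
      (∀ p ∈ PQ (pw N δ) N, (p < z ↔ Real.log p / Real.log N < ζ)) →
      SS (PQ (pw N δ) N) (cost K N) true z L G2 ≤
        A * (δ / ζ) * F ((L : ℝ) / K / ζ) + E L ∧
      (2 * ζ ≤ (L : ℝ) / K →
        A * (δ / ζ) * f ((L : ℝ) / K / ζ) - E L ≤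
          SS (PQ (pw N δ) N) (cost K N) false z L G2) := by
    intro L
    induction L using Nat.strong_induction_on with
    | _ L ih =>
      intro hL1 hL2 z ζ hζ hζ1 hz
      have hζ0 : 0 < ζ := lt_of_lt_of_le hδ hζ
      have hLr : (1 : ℝ) ≤ L := by exact_mod_cast hL1
      have hL2r : (L : ℝ) ≤ 2 * K := by exact_mod_cast hL2
      set τ : ℝ := (L : ℝ) / K with hτ
      have hτ0 : 0 < τ := by positivity
      have hτ2 : τ ≤ 2 := by rw [hτ, div_le_iff₀ hK0]; exact hL2r
      have hτK : τ * K = L := by rw [hτ]; field_simp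
      -- facts on primes
      have hprime : ∀ p ∈ PQ (pw N δ) N, δ ≤ Real.log p / Real.log N ∧
          Real.log p / Real.log N ≤ 1 ∧ (K : ℝ) * δ < cost K N p ∧
          Real.log p / Real.log N < (cost K N p : ℝ) / K ∧
          (cost K N p : ℝ) / K ≤ Real.log p / Real.log N + 1 / K ∧
          (∀ q ∈ PQ (pw N δ) N, (q < p ↔ Real.log q / Real.log N < Real.log p / Real.log N)) := by
        intro p hp
        have h1 := (mi_mem_PQ hN2).mp hp
        have hp1 : 1 ≤ p := h1.1.one_lt.le
        have hpz : pw N δ ≤ p := by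
          unfold PQ at hp
          rw [Finset.mem_filter, Finset.mem_Ico] at hp
          exact hp.1.1
        have hcl := cost_close K N p hK1 hN2 hp1
        refine ⟨h1.2.1, ?_, cost_gt K N p δ hN2 hpz hp1, hcl.1, hcl.2, ?_⟩
        · rw [div_le_one hlogN]
          exact Real.log_le_log (by exact_mod_cast hp1) (by exact_mod_cast h1.2.2.le)
        · intro q hq
          have hq1 : 1 ≤ q := ((mi_mem_PQ hN2).mp hq).1.one_lt.le
          rw [div_lt_div_iff_of_pos_right hlogN,
            Real.log_lt_log_iff (by exact_mod_cast hq1) (by exact_mod_cast hp1)]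
          exact_mod_cast Iff.rfl
      set e : ℝ := 5 * C / (K * δ) + E L / G with he
      have he0 : 0 ≤ e := by
        have := (hη0.le.trans (hEη L))
        positivity
      have hbudget : η / G + Γ * e + 2 / (K * δ) ≤ E L := by
        have h1 : Γ * e = 5 * Γ * C / (K * δ) + Γ * (E L / G) := by rw [he]; ring
        have h2 : E L = 2 * (E L / G) + Γ * (E L / G) := by
          rw [← add_mul, ← hG]; field_simp
        have h3 : η / G ≤ E L / G := div_le_div_of_nonneg_right (hEη L) hG0.le
        have h4 : (5 * Γ * C + 2) / (K * δ) = 5 * Γ * C / (K * δ) + 2 / (K * δ) := by ring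
        rw [h4] at hKerr
        linarith
      have hinvK : (1 : ℝ) / K / δ = 1 / (K * δ) := by field_simp
      have hKδinv : 1 / ((K : ℝ) * δ) ≤ 1 / 2 := one_div_le_one_div_of_le (by norm_num) hKδ
      have hKδ2 : 0 ≤ 2 / ((K : ℝ) * δ) := by positivity
      have hτδ : τ / δ ≤ R := by
        rw [hR]; exact div_le_div_of_nonneg_right hτ2 hδ.le
      -- comparison of arguments
      have harg : ∀ p ∈ PQ (pw N δ) N, cost K N p ≤ L →
          |(((L - cost K N p : ℕ) : ℝ)) / K / (Real.log p / Real.log N) -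
            (τ / (Real.log p / Real.log N) - 1)| ≤ 1 / (K * δ) := by
        intro p hp hcL
        obtain ⟨h1, h2, h3, h4, h5, h6⟩ := hprime p hp
        set l := Real.log p / Real.log N with hl
        have hl0 : 0 < l := lt_of_lt_of_le hδ h1
        have h7 : (((L - cost K N p : ℕ) : ℝ)) / K / l - (τ / l - 1) =
            -(((cost K N p : ℝ) / K - l) / l) := by
          rw [Nat.cast_sub hcL, hτ]
          field_simp
          ring
        rw [h7, abs_neg, abs_of_nonneg (div_nonneg (by linarith) hl0.le), ← hinvK]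
        apply div_le_div₀ (by positivity) (by linarith) hδ h1
      constructor
      · -- upper bound
        set q : ℕ := L / 3 with hq
        set ζ' : ℝ := min ζ ((q : ℝ) / K) with hζ'
        have hq3 : 3 * (q : ℝ) ≤ L := by
          have : 3 * q ≤ L := by omega
          exact_mod_cast this
        have hq3' : (L : ℝ) ≤ 3 * q + 2 := by
          have : L ≤ 3 * q + 2 := by omega
          exact_mod_cast this
        have hequiv : ∀ p ∈ PQ (pw N δ) N, ((p < z ∧ 3 * (cost K N p : ℤ) ≤ L) ↔
            Real.log p / Real.log N < ζ') := by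
          intro p hp
          obtain ⟨h1, h2, h3, h4, h5, h6⟩ := hprime p hp
          rw [hz p hp, hζ', lt_min_iff]
          apply and_congr Iff.rfl
          constructor
          · intro h7
            have h8 : cost K N p ≤ q := by omega
            have h9 : (cost K N p : ℝ) / K ≤ (q : ℝ) / K :=
              div_le_div_of_nonneg_right (by exact_mod_cast h8) hK0.le
            linarith
          · intro h7
            have h8 : (cost K N p : ℝ) / K < ((q : ℝ) + 1) / K := by
              rw [add_div]; linarith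
            rw [div_lt_div_iff_of_pos_right hK0] at h8
            have h9 : cost K N p < q + 1 := by exact_mod_cast h8
            omega
        rcases le_or_gt ζ' δ with hcase | hcase
        · -- empty sum
          have hempty : ((PQ (pw N δ) N).filter (fun p => p < z)).filter
              (fun p => 3 * (cost K N p : ℤ) ≤ (L : ℤ)) = ∅ := by
            apply Finset.filter_eq_empty_iff.mpr
            intro p hp h7
            rw [Finset.mem_filter] at hp
            have h8 := (hequiv p hp.1).mp ⟨hp.2, h7⟩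
            have h9 := (hprime p hp.1).1
            linarith
          rw [mi_rec_true, hempty, Finset.sum_empty, sub_zero]
          rcases le_or_gt ζ δ with h1 | h1
          · have h2 : ζ = δ := le_antisymm h1 hζ
            rw [h2, div_self hδ.ne', mul_one]
            have h3 := hAF (τ / δ) (by positivity) hτδ
            have h4 := hη0.trans_le (hEη L)
            linarith
          · have h2 : (q : ℝ) / K ≤ δ := by
              rcases min_le_iff.mp hcase with h3 | h3
              · linarith
              · exact h3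
            have h3 : τ ≤ 3 * δ + 2 / K := by
              have h4 : τ ≤ (3 * q + 2) / K := div_le_div_of_nonneg_right hq3' hK0.le
              have h5 : (3 * (q : ℝ) + 2) / K = 3 * ((q : ℝ) / K) + 2 / K := by ring
              linarith
            have h4 := hPhi τ ζ hτ0 hζ
            have h5 : 1 - 2 / (K * δ) ≤ A * δ / τ := by
              rw [le_div_iff₀ hτ0]
              have h6 : (1 - 2 / ((K : ℝ) * δ)) * τ ≤ 3 * δ := by
                have h7 : 0 ≤ 1 - 2 / ((K : ℝ) * δ) := by
                  have : 2 / ((K : ℝ) * δ) ≤ 1 := by rw [div_le_one (by positivity)]; exact hKδ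
                  linarith
                calc (1 - 2 / ((K : ℝ) * δ)) * τ ≤ (1 - 2 / ((K : ℝ) * δ)) * (3 * δ + 2 / K) :=
                      mul_le_mul_of_nonneg_left h3 h7
                  _ = 3 * δ - 4 / K - 4 / (K * K * δ) := by field_simp; ring
                  _ ≤ 3 * δ := by
                      have : 0 ≤ 4 / (K : ℝ) := by positivity
                      have : 0 ≤ 4 / ((K : ℝ) * K * δ) := by positivity
                      linarith
              nlinarith
            have h6 : 2 / ((K : ℝ) * δ) ≤ E L := by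
              have h7 : 0 ≤ η / G := by positivity
              have h8 : 0 ≤ Γ * e := by positivity
              linarith
            linarith
        · -- main case
          have hζ'0 : 0 < ζ' := hδ.trans hcase
          have hζ'q : ζ' ≤ (q : ℝ) / K := min_le_right _ _
          have hdom : 3 * ζ' ≤ τ := by
            have h1 : 3 * ((q : ℝ) / K) ≤ τ := by
              rw [hτ, ← mul_div_assoc]
              exact div_le_div_of_nonneg_right hq3 hK0.le
            linarith
          have hlip := mi_lip f A δ τ C ζ' 1 hδ hA0.le hA5 hC0 hτ0.le hτ2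
            (fun s hs => by
              rw [abs_of_nonneg (h.fnn s)]
              calc f s ≤ F s := h.fF s (by linarith)
                _ ≤ F 1 := h.Fanti (Set.mem_Ioi.mpr (by norm_num))
                    (Set.mem_Ioi.mpr (by linarith)) hs
                _ = 1 := by rw [h.F3 1 (by norm_num) (by norm_num)]; norm_num)
            (fun s t _ _ => (hCf s t).trans
              (mul_le_mul_of_nonneg_right (le_max_right _ _) (abs_nonneg _)))
            (fun v hv1 hv2 => by
              have hv0 : 0 < v := lt_of_lt_of_le hδ hv1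
              have : 2 ≤ τ / v := by
                rw [le_div_iff₀ hv0]; linarith
              linarith)
          have hm := hNl N hNNl δ ζ' le_rfl hcase.le ((min_le_left _ _).trans hζ1)
            (fun v => A * (δ / v) * f (τ / v - 1)) hlip.1 hlip.2
          have hstep := mi_plus (K := K) (L := L) (z := z) h hN2 hδ hcase.le hdom
            (hAF (τ / δ) (by positivity) hτδ) he0 hequiv hmass hm (by
              intro p hp hpz hpL
              obtain ⟨h1, h2, h3, h4, h5, h6⟩ := hprime p hp
              have ha1 : 1 ≤ cost K N p := by unfold cost; omega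
              have hcL : cost K N p ≤ L := by omega
              have hcast : ((L : ℤ) - cost K N p) = ((L - cost K N p : ℕ) : ℤ) := by
                rw [Nat.cast_sub hcL]
              have hL'1 : 2 * cost K N p ≤ L - cost K N p := by omega
              have hih := (ih (L - cost K N p) (by omega) (by omega) (by omega) p
                (Real.log p / Real.log N) h1 h2 h6).2 (by
                  have h7 : (2 : ℝ) * cost K N p ≤ ((L - cost K N p : ℕ) : ℝ) := by
                    exact_mod_cast hL'1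
                  have h8 : 2 * ((cost K N p : ℝ) / K) ≤ ((L - cost K N p : ℕ) : ℝ) / K := by
                    rw [← mul_div_assoc]
                    exact div_le_div_of_nonneg_right h7 hK0.le
                  linarith)
              rw [hcast]
              refine le_trans ?_ hih
              have hEd := hEdec L (cost K N p) hcL h3
              have hl0 : 0 < Real.log p / Real.log N := lt_of_lt_of_le hδ h1
              have h9 := (hCf (((L - cost K N p : ℕ) : ℝ) / K / (Real.log p / Real.log N))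
                (τ / (Real.log p / Real.log N) - 1)).trans
                (mul_le_mul (le_max_right CF Cf) (harg p hp hcL) (abs_nonneg _) hC0)
              have h10 := (abs_le.mp h9).1
              have h11 : A * (δ / (Real.log p / Real.log N)) ≤ 5 := by
                have : δ / (Real.log p / Real.log N) ≤ 1 := by
                  rw [div_le_one hl0]; exact h1
                calc A * (δ / (Real.log p / Real.log N)) ≤ 5 * 1 :=
                      mul_le_mul hA5 this (by positivity) (by norm_num)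
                  _ = 5 := by norm_num
              have h12 : 0 ≤ A * (δ / (Real.log p / Real.log N)) := by positivity
              have h13 : A * (δ / (Real.log p / Real.log N)) *
                  (f (τ / (Real.log p / Real.log N) - 1) - C * (1 / (K * δ))) ≤
                  A * (δ / (Real.log p / Real.log N)) *
                    f (((L - cost K N p : ℕ) : ℝ) / K / (Real.log p / Real.log N)) :=
                mul_le_mul_of_nonneg_left (by linarith) h12
              have h14 : A * (δ / (Real.log p / Real.log N)) * (C * (1 / (K * δ))) ≤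
                  5 * C / (K * δ) := by
                calc A * (δ / (Real.log p / Real.log N)) * (C * (1 / (K * δ))) ≤
                    5 * (C * (1 / (K * δ))) := mul_le_mul_of_nonneg_right h11 (by positivity)
                  _ = 5 * C / (K * δ) := by ring
              rw [mul_sub] at h13
              rw [he]
              linarith)
          refine hstep.trans ?_
          have hcmp : A * (δ / ζ') * F (τ / ζ') ≤ A * (δ / ζ) * F (τ / ζ) + 2 / (K * δ) := by
            rcases le_or_gt ζ ((q : ℝ) / K) with h1 | h1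
            · have h2 : ζ' = ζ := min_eq_left h1
              rw [h2]
              linarith
            · have h2 : ζ' = (q : ℝ) / K := min_eq_right h1.le
              have h3 : F (τ / ζ') ≤ 1 / 3 := by
                rw [← hF3]
                apply h.Fanti (Set.mem_Ioi.mpr (by norm_num)) (Set.mem_Ioi.mpr (by positivity))
                rw [le_div_iff₀ hζ'0]
                exact hdom
              have h4 : A * (δ / ζ') * F (τ / ζ') ≤ A * (δ / ζ') * (1 / 3) :=
                mul_le_mul_of_nonneg_left h3 (by positivity)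
              have h5 := mi_cmp (κ := 1 / K) hA0.le hA5 hδ hcase hdom (by
                rw [h2, hτ]
                have : (L : ℝ) / K - 3 * ((q : ℝ) / K) = ((L : ℝ) - 3 * q) / K := by ring
                rw [this, ← mul_div_assoc, mul_one]
                exact div_le_div_of_nonneg_right (by linarith) hK0.le) (by positivity)
              have h6 := hPhi τ ζ hτ0 hζ
              have h7 : 2 * ((1 : ℝ) / K / δ) = 2 / (K * δ) := by rw [hinvK]; ring
              rw [h7] at h5
              linarith
          linarith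
      · -- lower bound
        intro hdom
        have hlip := mi_lip F A δ τ C ζ 1 hδ hA0.le hA5 hC0 hτ0.le hτ2
            (fun s hs => by
              have hs0 : 0 < s := by linarith
              rw [abs_of_nonneg ((h.fnn s).trans (h.fF s hs0))]
              calc F s ≤ F 1 := h.Fanti (Set.mem_Ioi.mpr (by norm_num))
                    (Set.mem_Ioi.mpr (by linarith)) hs
                _ = 1 := by rw [h.F3 1 (by norm_num) (by norm_num)]; norm_num)
            (fun s t hs ht => (hCF s t (by linarith) (by linarith)).trans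
              (mul_le_mul_of_nonneg_right (le_max_left _ _) (abs_nonneg _)))
            (fun v hv1 hv2 => by
              have hv0 : 0 < v := lt_of_lt_of_le hδ hv1
              have : 2 ≤ τ / v := by
                rw [le_div_iff₀ hv0]; linarith
              linarith)
        have hm := hNl N hNNl δ ζ le_rfl hζ hζ1
            (fun v => A * (δ / v) * F (τ / v - 1)) hlip.1 hlip.2
        have hstep := mi_minus (K := K) (L := L) (z := z) h hN2 hδ hζ hdom
            (hAf (τ / δ) hτδ) he0 hz hmass hm (by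
              intro p hp hpz
              obtain ⟨h1, h2, h3, h4, h5, h6⟩ := hprime p hp
              have hlζ := (hz p hp).mp hpz
              have hl0 : 0 < Real.log p / Real.log N := lt_of_lt_of_le hδ h1
              have ha1 : 1 ≤ cost K N p := by unfold cost; omega
              have hLbig : 2 * (ζ * K) ≤ L := by
                rw [← hτK, ← mul_assoc]
                exact mul_le_mul_of_nonneg_right hdom hK0.le
              have hζK : 2 ≤ ζ * K := by
                calc (2 : ℝ) ≤ K * δ := hKδ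
                  _ = δ * K := mul_comm _ _
                  _ ≤ ζ * K := mul_le_mul_of_nonneg_right hζ hK0.le
              have hcr : (cost K N p : ℝ) ≤ Real.log p / Real.log N * K + 1 := by
                have h7 : (cost K N p : ℝ) / K * K ≤ (Real.log p / Real.log N + 1 / K) * K :=
                  mul_le_mul_of_nonneg_right h5 hK0.le
                rw [div_mul_cancel₀ _ hK0.ne', add_mul, one_div_mul_cancel hK0.ne'] at h7
                exact h7
              have hcr2 : (cost K N p : ℝ) < ζ * K + 1 :=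
                lt_of_le_of_lt hcr (by
                  have := mul_lt_mul_of_pos_right hlζ hK0
                  linarith)
              have hcL' : (cost K N p : ℝ) + 1 < L := by linarith
              have hcL : cost K N p + 1 < L := by exact_mod_cast hcL'
              have hcast : ((L : ℤ) - cost K N p) = ((L - cost K N p : ℕ) : ℤ) := by
                rw [Nat.cast_sub (by omega)]
              have hih := (ih (L - cost K N p) (by omega) (by omega) (by omega) p
                (Real.log p / Real.log N) h1 h2 h6).1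
              rw [hcast]
              refine hih.trans ?_
              have hEd := hEdec L (cost K N p) (by omega) h3
              have h8 : 1 ≤ τ / (Real.log p / Real.log N) - 1 := by
                have : 2 ≤ τ / (Real.log p / Real.log N) := by
                  rw [le_div_iff₀ hl0]; linarith
                linarith
              have hargp := harg p hp (by omega)
              have h8' : 1 / 20 ≤
                  ((L - cost K N p : ℕ) : ℝ) / K / (Real.log p / Real.log N) := by
                have := (abs_le.mp hargp).1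
                linarith
              have h9 := (hCF (((L - cost K N p : ℕ) : ℝ) / K / (Real.log p / Real.log N))
                (τ / (Real.log p / Real.log N) - 1) h8' (by linarith)).trans
                (mul_le_mul (le_max_left CF Cf) hargp (abs_nonneg _) hC0)
              have h10 := (abs_le.mp h9).2
              have h11 : A * (δ / (Real.log p / Real.log N)) ≤ 5 := by
                have : δ / (Real.log p / Real.log N) ≤ 1 := by
                  rw [div_le_one hl0]; exact h1
                calc A * (δ / (Real.log p / Real.log N)) ≤ 5 * 1 :=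
                      mul_le_mul hA5 this (by positivity) (by norm_num)
                  _ = 5 := by norm_num
              have h12 : 0 ≤ A * (δ / (Real.log p / Real.log N)) := by positivity
              have h13 : A * (δ / (Real.log p / Real.log N)) *
                    F (((L - cost K N p : ℕ) : ℝ) / K / (Real.log p / Real.log N)) ≤
                  A * (δ / (Real.log p / Real.log N)) *
                  (F (τ / (Real.log p / Real.log N) - 1) + C * (1 / (K * δ))) :=
                mul_le_mul_of_nonneg_left (by linarith) h12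
              have h14 : A * (δ / (Real.log p / Real.log N)) * (C * (1 / (K * δ))) ≤
                  5 * C / (K * δ) := by
                calc A * (δ / (Real.log p / Real.log N)) * (C * (1 / (K * δ))) ≤
                    5 * (C * (1 / (K * δ))) := mul_le_mul_of_nonneg_right h11 (by positivity)
                  _ = 5 * C / (K * δ) := by ring
              rw [mul_add] at h13
              rw [he]
              linarith)
        refine le_trans ?_ hstep
        linarith
  intro L hL1 hL2 z ζ hζ hζ1 hz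
  obtain ⟨h1, h2⟩ := hkey L hL1 hL2 z ζ hζ hζ1 hz
  have h3 := hElast L hL2
  exact ⟨by linarith, fun hd => by linarith [h2 hd]⟩

end Pool.Agent.Work.MP_34d05d_al.Sh
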