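import Mathlib
import Pool.Agent.Work.MP_34d05d_al.P1
import Pool.Agent.Work.BV.Defs

set_option autoImplicit false

/-!
# Counting primes `p = 3 mod 4` with `p = 1` modulo products of small primes
-/

namespace Pool.Agent.Work.MP_34d05d_al.Sh

open Finset Pool.Agent.Work.MP_2dba45_nt.Sv

/-- the residue classes: `cc (4 m) = 2 m + 1` for odd `m` -/
def cc (q : ℕ) : ℕ := if q % 8 = 4 then q / 2 + 1 else 1

theorem cc_four (m : ℕ) (hm : Odd m) : cc (4 * m) = 2 * m + 1 := by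
  obtain ⟨k, rfl⟩ := hm
  unfold cc
  rw [if_pos (by omega)]
  omega

theorem cc_coprime (q : ℕ) : Nat.Coprime (cc q) q := by
  unfold cc
  split_ifs with h
  · obtain ⟨m, rfl⟩ : ∃ m, q = 4 * m := ⟨q / 4, by omega⟩
    have e : 4 * m / 2 + 1 = 2 * m + 1 := by omega
    rw [e]
    have h1 : Nat.Coprime (2 * m + 1) 2 := by
      rw [Nat.coprime_mul_left_add_left]; exact Nat.coprime_one_left _
    have h2 : Nat.Coprime (2 * m + 1) m := by
      rw [Nat.coprime_mul_right_add_left]; exact Nat.coprime_one_left _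
    exact Nat.Coprime.mul_right (show Nat.Coprime (2 * m + 1) (2 * 2) from h1.mul_right h1) h2
  · exact Nat.coprime_one_left _

/-- primes `p ≤ N`, `p = 3 mod 4` -/
def AA (N : ℕ) : Finset ℕ := (Icc 1 N).filter (fun p => p.Prime ∧ p % 4 = 3)

/-- the error term -/
noncomputable def Er (N q : ℕ) : ℝ :=
  (BV.pic N q (cc q) : ℝ) - Nat.primeCounting N / Nat.totient q

theorem pic_eq (N m : ℕ) (hm : Odd m) :
    BV.pic N (4 * m) (cc (4 * m)) = #((AA N).filter (fun p => m ∣ p - 1)) := by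
  unfold BV.pic AA
  rw [Finset.filter_filter, cc_four m hm]
  congr 1
  apply Finset.filter_congr
  intro p hp
  have hp1 := (Finset.mem_Icc.1 hp).1
  have hco : Nat.Coprime 4 m := by
    have : Nat.Coprime 2 m := (Nat.coprime_two_left).2 hm
    exact Nat.Coprime.mul_left (m := 2) (n := 2) this this
  have h1 : p % (4 * m) = (2 * m + 1) % (4 * m) ↔ p ≡ 2 * m + 1 [MOD 4] ∧ p ≡ 2 * m + 1 [MOD m] :=
    (Nat.modEq_and_modEq_iff_modEq_mul hco).symm
  have h2 : p ≡ 2 * m + 1 [MOD 4] ↔ p % 4 = 3 := by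
    obtain ⟨k, rfl⟩ := hm
    unfold Nat.ModEq
    omega
  have h3 : p ≡ 2 * m + 1 [MOD m] ↔ m ∣ p - 1 := by
    rw [← Nat.modEq_iff_dvd' hp1]
    have : 2 * m + 1 ≡ 1 [MOD m] := by
      unfold Nat.ModEq
      rw [Nat.mul_add_mod']
    exact ⟨fun h => (h.trans this).symm, fun h => h.symm.trans this.symm⟩
  rw [h1, h2, h3]
  tauto

theorem G2_tot (S : Finset ℕ) (hS : ∀ p ∈ S, p.Prime) :
    G2 S = 1 / (Nat.totient (∏ p ∈ S, p) : ℝ) := by
  classical
  induction S using Finset.induction_on with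
  | empty => simp [G2]
  | insert p S hp ih =>
    have hco : Nat.Coprime p (∏ q ∈ S, q) := by
      apply Nat.Coprime.prod_right
      intro q hq
      rw [Nat.coprime_primes (hS p (Finset.mem_insert_self _ _))
        (hS q (Finset.mem_insert_of_mem hq))]
      rintro rfl
      exact hp hq
    rw [Finset.prod_insert hp, Nat.totient_mul hco,
      Nat.totient_prime (hS p (Finset.mem_insert_self _ _))]
    have h1 : G2 (insert p S) = g2 p * G2 S := by unfold G2; rw [Finset.prod_insert hp]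
    rw [h1, ih (fun q hq => hS q (Finset.mem_insert_of_mem hq))]
    unfold g2
    push_cast
    rw [one_div_mul_one_div]

open Classical in
theorem cnt (N : ℕ) (d T : Finset ℕ) (hd : ∀ p ∈ d, p.Prime ∧ p ≠ 2)
    (hT : ∀ p ∈ T, p.Prime ∧ p ≠ 2) (hdT : Disjoint d T) :
    ∑ p ∈ AA N, (if ∀ q ∈ d, q ∣ p - 1 then (1 : ℝ) else 0) *
        (if ∀ q ∈ T, q ∣ p - 1 then (1 : ℝ) else 0) =
      G2 d * G2 T * (Nat.primeCounting N / 2) + Er N (4 * ((∏ q ∈ d, q) * ∏ q ∈ T, q)) := by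
  set m := (∏ q ∈ d, q) * ∏ q ∈ T, q with hm
  have hS : ∀ p ∈ d ∪ T, p.Prime ∧ p ≠ 2 := by
    intro p hp
    rcases Finset.mem_union.1 hp with h | h
    · exact hd p h
    · exact hT p h
  have hmS : m = ∏ q ∈ d ∪ T, q := by rw [hm, Finset.prod_union hdT]
  have hodd : Odd m := by
    rw [hmS]
    apply Finset.prod_induction _ _ (fun a b => Odd.mul) odd_one
    intro p hp
    exact (hS p hp).1.odd_of_ne_two (hS p hp).2
  have h1 : ∀ p, (if ∀ q ∈ d, q ∣ p - 1 then (1 : ℝ) else 0) *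
        (if ∀ q ∈ T, q ∣ p - 1 then (1 : ℝ) else 0) = if m ∣ p - 1 then 1 else 0 := by
    intro p
    have h2 : (m ∣ p - 1) ↔ (∀ q ∈ d, q ∣ p - 1) ∧ (∀ q ∈ T, q ∣ p - 1) := by
      constructor
      · intro h
        constructor
        · intro q hq
          exact ((Finset.dvd_prod_of_mem _ (Finset.mem_union_left T hq)).trans
            (dvd_of_eq hmS.symm)).trans h
        · intro q hq
          exact ((Finset.dvd_prod_of_mem _ (Finset.mem_union_right d hq)).trans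
            (dvd_of_eq hmS.symm)).trans h
      · rintro ⟨h3, h4⟩
        rw [hmS]
        apply Finset.prod_primes_dvd
        · intro q hq
          exact (hS q hq).1.prime
        · intro q hq
          rcases Finset.mem_union.1 hq with h | h
          · exact h3 q h
          · exact h4 q h
    by_cases ha : ∀ q ∈ d, q ∣ p - 1
    · by_cases hb : ∀ q ∈ T, q ∣ p - 1
      · rw [if_pos ha, if_pos hb, if_pos (h2.2 ⟨ha, hb⟩), one_mul]
      · rw [if_pos ha, if_neg hb, if_neg (fun h => hb (h2.1 h).2), mul_zero]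
    · rw [if_neg ha, if_neg (fun h => ha (h2.1 h).1), zero_mul]
  simp_rw [h1]
  rw [Finset.sum_boole]
  unfold Er
  rw [pic_eq N m hodd]
  have hco : Nat.Coprime 4 m := by
    have : Nat.Coprime 2 m := (Nat.coprime_two_left).2 hodd
    exact Nat.Coprime.mul_left (m := 2) (n := 2) this this
  have h4 : Nat.totient 4 = 2 := by decide
  have h5 : G2 d * G2 T = 1 / (Nat.totient m : ℝ) := by
    rw [hmS, ← G2_tot _ (fun p hp => (hS p hp).1)]
    unfold G2
    rw [Finset.prod_union hdT]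
  rw [h5, Nat.totient_mul hco, h4]
  have h6 : (Nat.totient m : ℝ) ≠ 0 := by
    have : 0 < m := hodd.pos
    exact_mod_cast (Nat.totient_pos.2 this).ne'
  push_cast
  field_simp
  ring

open Classical in
theorem expand (N z0 : ℕ) (hz0 : 3 ≤ z0) (lp φ : Finset ℕ → ℝ) :
    ∑ p ∈ AA N, (∑ d ∈ (PO z0).powerset, lp d * (if ∀ q ∈ d, q ∣ p - 1 then (1 : ℝ) else 0)) *
        (∑ T ∈ (PQ z0 N).powerset, φ T * (if ∀ q ∈ T, q ∣ p - 1 then (1 : ℝ) else 0)) =
      (∑ d ∈ (PO z0).powerset, lp d * G2 d) * (∑ T ∈ (PQ z0 N).powerset, φ T * G2 T) *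
          (Nat.primeCounting N / 2) +
        ∑ x ∈ (PO z0).powerset ×ˢ (PQ z0 N).powerset,
          lp x.1 * φ x.2 * Er N (4 * ((∏ q ∈ x.1, q) * ∏ q ∈ x.2, q)) := by
  have h1 : ∀ p, (∑ d ∈ (PO z0).powerset, lp d * (if ∀ q ∈ d, q ∣ p - 1 then (1 : ℝ) else 0)) *
        (∑ T ∈ (PQ z0 N).powerset, φ T * (if ∀ q ∈ T, q ∣ p - 1 then (1 : ℝ) else 0)) =
      ∑ x ∈ (PO z0).powerset ×ˢ (PQ z0 N).powerset, lp x.1 * φ x.2 *
        ((if ∀ q ∈ x.1, q ∣ p - 1 then (1 : ℝ) else 0) *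
          (if ∀ q ∈ x.2, q ∣ p - 1 then (1 : ℝ) else 0)) := by
    intro p
    rw [Finset.sum_mul_sum, Finset.sum_product]
    refine Finset.sum_congr rfl fun d _ => Finset.sum_congr rfl fun T _ => ?_
    ring
  simp_rw [h1]
  rw [Finset.sum_comm]
  have h2 : ∀ x ∈ (PO z0).powerset ×ˢ (PQ z0 N).powerset,
      ∑ p ∈ AA N, lp x.1 * φ x.2 * ((if ∀ q ∈ x.1, q ∣ p - 1 then (1 : ℝ) else 0) *
          (if ∀ q ∈ x.2, q ∣ p - 1 then (1 : ℝ) else 0)) =
      (lp x.1 * G2 x.1) * (φ x.2 * G2 x.2) * (Nat.primeCounting N / 2) +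
        lp x.1 * φ x.2 * Er N (4 * ((∏ q ∈ x.1, q) * ∏ q ∈ x.2, q)) := by
    rintro ⟨d, T⟩ hx
    rw [Finset.mem_product, Finset.mem_powerset, Finset.mem_powerset] at hx
    obtain ⟨hx1, hx2⟩ := hx
    simp only at hx1 hx2 ⊢
    have hd : ∀ p ∈ d, p.Prime ∧ p ≠ 2 := fun p hp => (mem_PO.1 (hx1 hp)).2
    have hT : ∀ p ∈ T, p.Prime ∧ p ≠ 2 := by
      intro p hp
      have h3 := hx2 hp
      unfold PQ at h3
      rw [Finset.mem_filter, Finset.mem_Ico] at h3
      exact ⟨h3.2, by omega⟩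
    have hdT : Disjoint d T := by
      rw [Finset.disjoint_left]
      intro p hp hp2
      have h3 := hx2 hp2
      unfold PQ at h3
      rw [Finset.mem_filter, Finset.mem_Ico] at h3
      have h4 := (mem_PO.1 (hx1 hp)).1
      omega
    rw [← Finset.mul_sum, cnt N d T hd hT hdT]
    ring
  rw [Finset.sum_congr rfl h2, Finset.sum_add_distrib, ← Finset.sum_mul]
  congr 2
  rw [Finset.sum_mul_sum, Finset.sum_product]

theorem errb (N z0 Q : ℕ) (lp φ : Finset ℕ → ℝ) (C1 C2 : ℝ) (hC1 : 0 ≤ C1)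
    (hlp : ∀ d, |lp d| ≤ C1) (hφ : ∀ T, |φ T| ≤ C2)
    (hsupp : ∀ d ∈ (PO z0).powerset, ∀ T ∈ (PQ z0 N).powerset, lp d ≠ 0 → φ T ≠ 0 →
      4 * ((∏ q ∈ d, q) * ∏ q ∈ T, q) ≤ Q) :
    |∑ x ∈ (PO z0).powerset ×ˢ (PQ z0 N).powerset,
          lp x.1 * φ x.2 * Er N (4 * ((∏ q ∈ x.1, q) * ∏ q ∈ x.2, q))| ≤
      C1 * C2 * ∑ q ∈ Icc 1 Q, |Er N q| := by
  classical
  set S := ((PO z0).powerset ×ˢ (PQ z0 N).powerset).filter (fun x => lp x.1 ≠ 0 ∧ φ x.2 ≠ 0)
    with hS
  have h1 : ∑ x ∈ (PO z0).powerset ×ˢ (PQ z0 N).powerset,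
          lp x.1 * φ x.2 * Er N (4 * ((∏ q ∈ x.1, q) * ∏ q ∈ x.2, q)) =
      ∑ x ∈ S, lp x.1 * φ x.2 * Er N (4 * ((∏ q ∈ x.1, q) * ∏ q ∈ x.2, q)) := by
    symm
    apply Finset.sum_subset (Finset.filter_subset _ _)
    intro x hx hx2
    rw [Finset.mem_filter] at hx2
    by_cases ha : lp x.1 = 0
    · rw [ha]; ring
    · by_cases hb : φ x.2 = 0
      · rw [hb]; ring
      · exact absurd ⟨hx, ha, hb⟩ hx2
  have hC2 : 0 ≤ C2 := (abs_nonneg _).trans (hφ ∅)
  have h2 : ∑ x ∈ S, |Er N (4 * ((∏ q ∈ x.1, q) * ∏ q ∈ x.2, q))| ≤ ∑ q ∈ Icc 1 Q, |Er N q| := by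
    have hinj : Set.InjOn (fun x : Finset ℕ × Finset ℕ => 4 * ((∏ q ∈ x.1, q) * ∏ q ∈ x.2, q))
        (S : Set (Finset ℕ × Finset ℕ)) := by
      rintro ⟨d, T⟩ hx ⟨d', T'⟩ hy hxy
      rw [Finset.mem_coe, hS, Finset.mem_filter, Finset.mem_product, Finset.mem_powerset,
        Finset.mem_powerset] at hx hy
      simp only at hx hy hxy
      have hP : ∀ (d T : Finset ℕ), d ⊆ PO z0 → T ⊆ PQ z0 N →
          Nat.primeFactors ((∏ q ∈ d, q) * ∏ q ∈ T, q) = d ∪ T ∧
            d = (d ∪ T).filter (fun p => p < z0) ∧ T = (d ∪ T).filter (fun p => ¬ p < z0) := by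
        intro d T hd hT
        have h3 : ∀ p ∈ d, p.Prime ∧ p < z0 := fun p hp =>
          ⟨(mem_PO.1 (hd hp)).2.1, (mem_PO.1 (hd hp)).1⟩
        have h4 : ∀ p ∈ T, p.Prime ∧ ¬ p < z0 := by
          intro p hp
          have h5 := hT hp
          unfold PQ at h5
          rw [Finset.mem_filter, Finset.mem_Ico] at h5
          exact ⟨h5.2, by omega⟩
        have hdT : Disjoint d T := by
          rw [Finset.disjoint_left]
          intro p hp hp2
          exact (h4 p hp2).2 (h3 p hp).2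
        refine ⟨?_, ?_, ?_⟩
        · rw [← Finset.prod_union hdT]
          apply Nat.primeFactors_prod
          intro p hp
          rcases Finset.mem_union.1 hp with h | h
          · exact (h3 p h).1
          · exact (h4 p h).1
        · ext p
          rw [Finset.mem_filter, Finset.mem_union]
          constructor
          · intro h
            exact ⟨Or.inl h, (h3 p h).2⟩
          · rintro ⟨h | h, h5⟩
            · exact h
            · exact absurd h5 (h4 p h).2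
        · ext p
          rw [Finset.mem_filter, Finset.mem_union]
          constructor
          · intro h
            exact ⟨Or.inr h, (h4 p h).2⟩
          · rintro ⟨h | h, h5⟩
            · exact absurd (h3 p h).2 h5
            · exact h
      obtain ⟨a1, a2, a3⟩ := hP d T hx.1.1 hx.1.2
      obtain ⟨b1, b2, b3⟩ := hP d' T' hy.1.1 hy.1.2
      have h6 : (∏ q ∈ d, q) * ∏ q ∈ T, q = (∏ q ∈ d', q) * ∏ q ∈ T', q := by omega
      rw [h6, b1] at a1
      rw [Prod.mk.injEq]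
      exact ⟨by rw [a2, b2, a1], by rw [a3, b3, a1]⟩
    rw [← Finset.sum_image (f := fun q => |Er N q|) hinj]
    apply Finset.sum_le_sum_of_subset_of_nonneg
    · intro q hq
      obtain ⟨x, hx, rfl⟩ := Finset.mem_image.1 hq
      rw [hS, Finset.mem_filter, Finset.mem_product] at hx
      rw [Finset.mem_Icc]
      refine ⟨?_, hsupp x.1 hx.1.1 x.2 hx.1.2 hx.2.1 hx.2.2⟩
      have h3 : 0 < ∏ q ∈ x.1, q := Finset.prod_pos fun p hp =>
        (mem_PO.1 (Finset.mem_powerset.1 hx.1.1 hp)).2.1.pos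
      have h4 : 0 < ∏ q ∈ x.2, q := Finset.prod_pos fun p hp => by
        have h5 := Finset.mem_powerset.1 hx.1.2 hp
        unfold PQ at h5
        exact (Finset.mem_filter.1 h5).2.pos
      have h5 := Nat.mul_pos h3 h4
      omega
    · intro q _ _
      exact abs_nonneg _
  rw [h1]
  refine (Finset.abs_sum_le_sum_abs _ _).trans ?_
  calc ∑ x ∈ S, |lp x.1 * φ x.2 * Er N (4 * ((∏ q ∈ x.1, q) * ∏ q ∈ x.2, q))|
      ≤ ∑ x ∈ S, C1 * C2 * |Er N (4 * ((∏ q ∈ x.1, q) * ∏ q ∈ x.2, q))| := by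
        refine Finset.sum_le_sum fun x _ => ?_
        rw [abs_mul, abs_mul]
        apply mul_le_mul_of_nonneg_right _ (abs_nonneg _)
        exact mul_le_mul (hlp _) (hφ _) (abs_nonneg _) hC1
    _ = C1 * C2 * ∑ x ∈ S, |Er N (4 * ((∏ q ∈ x.1, q) * ∏ q ∈ x.2, q))| := by
        rw [Finset.mul_sum]
    _ ≤ _ := mul_le_mul_of_nonneg_left h2 (mul_nonneg hC1 hC2)

end Pool.Agent.Work.MP_34d05d_al.Sh
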