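import Mathlib
import Pool.Agent.Work.MP_34d05d_al.P3
import Pool.Agent.Work.MP_34d05d_al.P4
import Pool.Agent.Work.MP_34d05d_al.P5
import Pool.Agent.Work.MP_2dba45_nt.Sv.Dde
import Pool.Agent.Work.MP_2dba45_nt.Sv.SIneq
import Pool.Agent.Work.MP_2dba45_nt.Sv.Split

set_option autoImplicit false

/-!
# Linear sieve for the shifted primes: preparations
-/

namespace Pool.Agent.Work.MP_34d05d_al.Sh

open Finset Pool.Agent.Work.MP_2dba45_nt.Sv

theorem ev_pow (a b C : ℝ) (hab : a < b) :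
    ∀ᶠ N : ℕ in Filter.atTop, C * (N : ℝ) ^ a ≤ (N : ℝ) ^ b := by
  have h1 : Filter.Tendsto (fun x : ℝ => x ^ (b - a)) Filter.atTop Filter.atTop :=
    tendsto_rpow_atTop (by linarith)
  have h2 := (h1.comp (tendsto_natCast_atTop_atTop (R := ℝ))).eventually_ge_atTop C
  filter_upwards [h2, Filter.eventually_ge_atTop 1] with N hN hN1
  have hN0 : (0 : ℝ) < N := by exact_mod_cast hN1
  have h3 : (N : ℝ) ^ b = (N : ℝ) ^ (b - a) * (N : ℝ) ^ a := by
    rw [← Real.rpow_add hN0]; congr 1; ring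
  rw [h3]
  exact mul_le_mul_of_nonneg_right hN (by positivity)

theorem ev_log (C : ℝ) : ∀ᶠ N : ℕ in Filter.atTop, C ≤ Real.log N :=
  (Real.tendsto_log_atTop.comp (tendsto_natCast_atTop_atTop (R := ℝ))).eventually_ge_atTop C

theorem param (η c1 C2 : ℝ) (b₀ : ℕ) (hη : 0 < η) (hc1 : 0 < c1) (hC2 : 0 < C2) :
    ∃ (b : ℕ) (δ : ℝ), b₀ ≤ b ∧ 0 < δ ∧ δ ≤ 1 / 10 ∧ δ * (4 * b + 10) ≤ η / 8 ∧
      Real.exp (-b) * (C2 / δ) ≤ c1 * δ / 2 := by
  set d : ℝ := min 1 (η / 8) with hd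
  have hd0 : 0 < d := lt_min one_pos (by positivity)
  have hd1 : d ≤ 1 := min_le_left _ _
  obtain ⟨m, hm⟩ := exists_nat_gt (2352 * C2 / (c1 * d ^ 2))
  set b : ℕ := max (max b₀ 1) m with hb
  have hb0 : b₀ ≤ b := le_trans (le_max_left _ _) (le_max_left _ _)
  have hb1 : 1 ≤ b := le_trans (le_max_right _ _) (le_max_left _ _)
  have hbm : m ≤ b := le_max_right _ _
  have hb1r : (1 : ℝ) ≤ b := by exact_mod_cast hb1
  have hbr : 2352 * C2 / (c1 * d ^ 2) ≤ b := hm.le.trans (by exact_mod_cast hbm)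
  refine ⟨b, d / (4 * b + 10), hb0, by positivity, ?_, ?_, ?_⟩
  · rw [div_le_iff₀ (by positivity)]
    nlinarith
  · rw [div_mul_cancel₀ _ (by positivity)]
    exact min_le_right _ _
  · have h1 : (b : ℝ) ^ 3 / 6 ≤ Real.exp b := by
      have := Real.pow_div_factorial_le_exp (b : ℝ) (by positivity) 3
      have h6 : ((Nat.factorial 3 : ℕ) : ℝ) = 6 := by norm_num [Nat.factorial]
      rwa [h6] at this
    rw [div_le_iff₀ (by positivity)] at hbr
    have h2 : Real.exp (-b) * (b : ℝ) ^ 3 ≤ 6 := by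
      rw [Real.exp_neg, inv_mul_le_iff₀ (Real.exp_pos _)]
      linarith
    have h3 : (4 * (b : ℝ) + 10) ^ 2 ≤ 196 * (b : ℝ) ^ 2 := by nlinarith
    have h4 : Real.exp (-b) * (C2 / (d / (4 * b + 10))) =
        Real.exp (-b) * C2 * (4 * b + 10) / d := by field_simp
    have h5 : c1 * (d / (4 * b + 10)) / 2 = c1 * d / (2 * (4 * b + 10)) := by field_simp
    rw [h4, h5, div_le_div_iff₀ hd0 (by positivity)]
    have h6 : Real.exp (-b) * (4 * (b : ℝ) + 10) ^ 2 * (2 * C2) ≤ c1 * d ^ 2 := by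
      have h7 : Real.exp (-b) * (4 * (b : ℝ) + 10) ^ 2 ≤ Real.exp (-b) * (196 * (b : ℝ) ^ 2) :=
        mul_le_mul_of_nonneg_left h3 (Real.exp_pos _).le
      have h8 : Real.exp (-b) * (196 * (b : ℝ) ^ 2) * b ≤ 1176 := by nlinarith
      have h9 : 0 < Real.exp (-(b : ℝ)) := Real.exp_pos _
      have h10 : Real.exp (-b) * (4 * (b : ℝ) + 10) ^ 2 * (2 * C2) * b ≤ 1176 * (2 * C2) := by
        calc Real.exp (-b) * (4 * (b : ℝ) + 10) ^ 2 * (2 * C2) * b
            ≤ Real.exp (-b) * (196 * (b : ℝ) ^ 2) * (2 * C2) * b := by gcongr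
          _ = Real.exp (-b) * (196 * (b : ℝ) ^ 2) * b * (2 * C2) := by ring
          _ ≤ 1176 * (2 * C2) := mul_le_mul_of_nonneg_right h8 (by positivity)
      have h11 : 1176 * (2 * C2) ≤ c1 * d ^ 2 * b := by linarith
      have h12 : Real.exp (-b) * (4 * (b : ℝ) + 10) ^ 2 * (2 * C2) * b ≤ c1 * d ^ 2 * b :=
        h10.trans h11
      exact le_of_mul_le_mul_right h12 (by linarith)
    calc Real.exp (-b) * C2 * (4 * b + 10) * (2 * (4 * b + 10))
        = Real.exp (-b) * (4 * (b : ℝ) + 10) ^ 2 * (2 * C2) := by ring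
      _ ≤ c1 * d ^ 2 := h6
      _ = c1 * d * d := by ring

theorem f_pos2 {F f : ℝ → ℝ} (h : DDE F f) (s : ℝ) (hs : 2 < s) : 0 < f s := by
  have key : ∀ s : ℝ, 2 < s → s ≤ 4 → 0 < f s := by
    intro s h2 h4
    rw [f_formula h s h2.le h4]
    exact div_pos (Real.log_pos (by linarith)) (by linarith)
  rcases le_or_gt s 4 with h4 | h4
  · exact key s hs h4
  · exact lt_of_lt_of_le (key 4 (by norm_num) le_rfl) (h.fmono h4.le)

/-- the Rosser weight as a function on sets of primes -/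
noncomputable def rw0 (P : Finset ℕ) (a : ℕ → ℕ) (z : ℕ) (L : ℤ) (T : Finset ℕ) : ℝ :=
  open Classical in
  if T ∈ Dset P a false z L then (-1) ^ (#T) else 0

theorem rw0_abs (P : Finset ℕ) (a : ℕ → ℕ) (z : ℕ) (L : ℤ) (T : Finset ℕ) :
    |rw0 P a z L T| ≤ 1 := by
  unfold rw0
  split_ifs
  · rw [abs_pow, abs_neg, abs_one, one_pow]
  · simp

theorem SS_sum (P : Finset ℕ) (a : ℕ → ℕ) (z : ℕ) (L : ℤ) (f : Finset ℕ → ℝ) :
    SS P a false z L f = ∑ T ∈ P.powerset, rw0 P a z L T * f T := by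
  classical
  have hsub : Dset P a false z L ⊆ P.powerset := by
    intro T hT
    unfold Dset at hT
    rw [Finset.mem_filter, Finset.mem_powerset] at hT
    rw [Finset.mem_powerset]
    exact hT.1.trans (Finset.filter_subset _ _)
  unfold SS
  rw [← Finset.sum_subset hsub (fun T _ hT => by
    unfold rw0
    rw [if_neg hT, zero_mul])]
  refine Finset.sum_congr rfl fun T hT => ?_
  unfold rw0
  rw [if_pos hT]

/-- the level of the Rosser weights -/
theorem rw0_level (K N L z z0 : ℕ) (hK : 1 ≤ K) (hN : 2 ≤ N) (hz0 : 1 ≤ z0)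
    (hz : ∀ p ∈ PQ z0 N, p < z → cost K N p ≤ L) (T : Finset ℕ)
    (hT : rw0 (PQ z0 N) (cost K N) z L T ≠ 0) :
    ((∏ p ∈ T, p : ℕ) : ℝ) ≤ (N : ℝ) ^ ((L : ℝ) / K) := by
  classical
  have hT2 : T ∈ Dset (PQ z0 N) (cost K N) false z L := by
    by_contra hcon
    apply hT
    unfold rw0
    rw [if_neg hcon]
  unfold Dset at hT2
  rw [Finset.mem_filter, Finset.mem_powerset] at hT2
  obtain ⟨hTP, hadm⟩ := hT2
  have hTp : ∀ p ∈ T, 1 ≤ p ∧ cost K N p ≤ L := by
    intro p hp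
    have h1 := Finset.mem_filter.1 (hTP hp)
    have h2 := h1.1
    unfold PQ at h2
    rw [Finset.mem_filter, Finset.mem_Ico] at h2
    exact ⟨h2.2.one_le, hz p h1.1 h1.2⟩
  have hcoe : ((costs (cost K N) T : List ℕ) : Multiset ℕ) = T.val.map (cost K N) := by
    unfold costs
    rw [← Multiset.map_coe, Finset.sort_eq]
  have hpair : (costs (cost K N) T).Pairwise (· ≥ ·) := by
    unfold costs
    rw [List.pairwise_map]
    refine (T.pairwise_sort (· ≥ ·)).imp_of_mem ?_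
    intro x y hx hy hxy
    rw [Finset.mem_sort] at hx hy
    exact cost_mono K N y x hN (hTp y hy).1 hxy
  obtain ⟨μ₁, μ₂, h3, h4, h5⟩ := split_false L 0 (costs (cost K N) T) hpair
    (by simpa using hadm) (by
      intro x hx
      unfold costs at hx
      rw [List.mem_map] at hx
      obtain ⟨p, hp, rfl⟩ := hx
      rw [Finset.mem_sort] at hp
      exact (hTp p hp).2)
  apply prod_le_of_cost K N L hK hN T (fun p hp => (hTp p hp).1)
  rw [← hcoe, h3, Multiset.sum_add]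
  omega

/-- total mass of the density -/
theorem U2_le (N : ℕ) (δ C : ℝ) (hδ : 0 < δ)
    (hm : ∑ p ∈ PQ (pw N δ) N, g2 p ≤ Real.log (1 / δ) + C) (φ : Finset ℕ → ℝ)
    (hφ : ∀ T, |φ T| ≤ 1) :
    ∑ T ∈ (PQ (pw N δ) N).powerset, |φ T| * G2 T ≤ Real.exp C / δ := by
  have h1 : ∑ T ∈ (PQ (pw N δ) N).powerset, |φ T| * G2 T ≤
      ∑ T ∈ (PQ (pw N δ) N).powerset, G2 T := by
    refine Finset.sum_le_sum fun T _ => ?_
    have := mul_le_mul_of_nonneg_right (hφ T) (G2_nonneg T)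
    linarith
  have h2 : ∑ T ∈ (PQ (pw N δ) N).powerset, G2 T = ∏ p ∈ PQ (pw N δ) N, (1 + g2 p) := by
    rw [Finset.prod_one_add]
    rfl
  have h3 : ∏ p ∈ PQ (pw N δ) N, (1 + g2 p) ≤ Real.exp (∑ p ∈ PQ (pw N δ) N, g2 p) := by
    rw [Real.exp_sum]
    refine Finset.prod_le_prod (fun p _ => by linarith [g2_nonneg p]) fun p _ => ?_
    rw [add_comm]
    exact Real.add_one_le_exp _
  have h4 : Real.exp (∑ p ∈ PQ (pw N δ) N, g2 p) ≤ Real.exp C / δ := by
    refine (Real.exp_le_exp.2 hm).trans (le_of_eq ?_)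
    rw [Real.exp_add, Real.exp_log (by positivity)]
    ring
  rw [h2] at h1
  exact h1.trans (h3.trans h4)

theorem nb_le (z N : ℕ) (hz : z ≤ N) (hN : 1 ≤ Real.log N) : (nb z : ℝ) ≤ 3 * Real.log N := by
  have hl2 : 0.6931471803 < Real.log 2 := Real.log_two_gt_d9
  have h1 : Nat.log 2 z ≤ Nat.log 2 N := Nat.log_mono_right hz
  have h2 : (Nat.log 2 N : ℝ) * Real.log 2 ≤ Real.log N := by
    rcases Nat.eq_zero_or_pos N with h | h
    · subst h; simp
    · have h3 : 2 ^ Nat.log 2 N ≤ N := Nat.pow_log_le_self 2 h.ne'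
      have h4 : ((2 : ℝ) ^ Nat.log 2 N) ≤ N := by exact_mod_cast h3
      have h5 := Real.log_le_log (by positivity) h4
      rwa [Real.log_pow] at h5
  unfold nb
  push_cast
  have h3 : (Nat.log 2 z : ℝ) ≤ Nat.log 2 N := by exact_mod_cast h1
  have h4 : (0 : ℝ) ≤ Nat.log 2 N := Nat.cast_nonneg _
  nlinarith

end Pool.Agent.Work.MP_34d05d_al.Sh
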