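import Mathlib
import Pool.Agent.Work.MP_34d05d_al.P6

set_option autoImplicit false

/-!
# Linear sieve for the shifted primes: assembly
-/

namespace Pool.Agent.Work.MP_34d05d_al.Sh

open Finset Pool.Agent.Work.MP_2dba45_nt.Sv

/-- primes `p ≤ N`, `p = 3 mod 4`, such that `p - 1` has no odd prime factor below `N^θ` -/
def Good (N : ℕ) (θ : ℝ) (p : ℕ) : Prop :=
  ∀ q : ℕ, q.Prime → q ≠ 2 → q ∣ p - 1 → (N : ℝ) ^ θ ≤ q

open Classical in
/-- the combinatorial part -/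
theorem comb (N z0 : ℕ) (θ : ℝ) (K L : ℕ) (lp dp : Finset ℕ → ℝ)
    (hsub : ∀ B ⊆ PO z0, (if B = ∅ then (1 : ℝ) else 0) ≤ ∑ d ∈ B.powerset, lp d ∧
          ∑ d ∈ B.powerset, lp d - (if B = ∅ then (1 : ℝ) else 0) ≤ ∑ d ∈ B.powerset, dp d)
    (p : ℕ) (hp : p ∈ AA N) :
    (∑ d ∈ (PO z0).powerset, lp d * (if ∀ q ∈ d, q ∣ p - 1 then (1 : ℝ) else 0)) *
        (∑ T ∈ (PQ z0 N).powerset, rw0 (PQ z0 N) (cost K N) (pw N θ) L T *
          (if ∀ q ∈ T, q ∣ p - 1 then (1 : ℝ) else 0)) -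
      (∑ d ∈ (PO z0).powerset, dp d * (if ∀ q ∈ d, q ∣ p - 1 then (1 : ℝ) else 0)) *
        (∑ T ∈ (PQ z0 N).powerset, |rw0 (PQ z0 N) (cost K N) (pw N θ) L T| *
          (if ∀ q ∈ T, q ∣ p - 1 then (1 : ℝ) else 0)) ≤
      (if Good N θ p then 1 else 0) := by
  have e1 : ∀ μ : Finset ℕ → ℝ,
      ∑ d ∈ ((PO z0).filter (fun q => q ∣ p - 1)).powerset, μ d =
      ∑ d ∈ (PO z0).powerset, μ d * (if ∀ q ∈ d, q ∣ p - 1 then (1 : ℝ) else 0) := by
    intro μ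
    simp_rw [mul_ite, mul_one, mul_zero]
    rw [← Finset.sum_filter]
    refine Finset.sum_congr ?_ fun _ _ => rfl
    ext d
    simp only [Finset.mem_powerset, Finset.mem_filter, Finset.subset_iff]
    constructor
    · intro h
      exact ⟨fun p hp => (h hp).1, fun p hp => (h hp).2⟩
    · intro h p hp
      exact ⟨h.1 hp, h.2 p hp⟩
  have e2 : ∑ T ∈ (PQ z0 N).powerset, rw0 (PQ z0 N) (cost K N) (pw N θ) L T *
          (if ∀ q ∈ T, q ∣ p - 1 then (1 : ℝ) else 0) =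
      SS (PQ z0 N) (cost K N) false (pw N θ) L
        (fun T => if T ⊆ (PQ z0 N).filter (fun q => q ∣ p - 1) then 1 else 0) := by
    rw [SS_sum]
    refine Finset.sum_congr rfl fun T hT => ?_
    congr 1
    have hTP := Finset.mem_powerset.mp hT
    have : (∀ q ∈ T, q ∣ p - 1) ↔ T ⊆ (PQ z0 N).filter (fun q => q ∣ p - 1) := by
      constructor
      · intro h q hq
        exact Finset.mem_filter.mpr ⟨hTP hq, h q hq⟩
      · intro h q hq
        exact (Finset.mem_filter.mp (h hq)).2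
    simp only [this]
  rw [← e1 lp, ← e1 dp]
  obtain ⟨h1, h2⟩ := hsub _ (Finset.filter_subset (fun q => q ∣ p - 1) _)
  set B2 := (PO z0).filter (fun q => q ∣ p - 1) with hB2
  set Λ := ∑ d ∈ B2.powerset, lp d
  set Δ := ∑ d ∈ B2.powerset, dp d
  set Ωa := ∑ T ∈ (PQ z0 N).powerset, |rw0 (PQ z0 N) (cost K N) (pw N θ) L T| *
          (if ∀ q ∈ T, q ∣ p - 1 then (1 : ℝ) else 0) with hΩa
  set Ω := ∑ T ∈ (PQ z0 N).powerset, rw0 (PQ z0 N) (cost K N) (pw N θ) L T *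
          (if ∀ q ∈ T, q ∣ p - 1 then (1 : ℝ) else 0) with hΩ
  have h3 : |Ω| ≤ Ωa := by
    refine (Finset.abs_sum_le_sum_abs _ _).trans (le_of_eq ?_)
    refine Finset.sum_congr rfl fun T _ => ?_
    rw [abs_mul]
    congr 1
    split_ifs <;> simp
  have h4 : 0 ≤ Ωa := (abs_nonneg _).trans h3
  have h5 : Λ * Ω - Δ * Ωa ≤ (if B2 = ∅ then (1 : ℝ) else 0) * Ω := by
    have h6 : (Λ - (if B2 = ∅ then (1 : ℝ) else 0)) * Ω ≤
        (Λ - (if B2 = ∅ then (1 : ℝ) else 0)) * Ωa :=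
      mul_le_mul_of_nonneg_left ((le_abs_self _).trans h3) (by linarith)
    have h7 : (Λ - (if B2 = ∅ then (1 : ℝ) else 0)) * Ωa ≤ Δ * Ωa :=
      mul_le_mul_of_nonneg_right h2 h4
    nlinarith
  refine h5.trans ?_
  by_cases hemp : B2 = ∅
  · rw [if_pos hemp, one_mul, e2]
    refine (SS_lower _ _ _ _ _).trans ?_
    by_cases hno : ∀ q ∈ PQ z0 N, q < pw N θ → q ∉ (PQ z0 N).filter (fun q => q ∣ p - 1)
    · rw [if_pos hno, if_pos]
      intro q hq hq2 hqd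
      by_contra hcon
      push Not at hcon
      have hpN := hp
      unfold AA at hpN
      rw [Finset.mem_filter, Finset.mem_Icc] at hpN
      have hp2 := hpN.2.1.two_le
      have hqle : q ≤ p - 1 := Nat.le_of_dvd (by omega) hqd
      have hz : z0 ≤ q := by
        by_contra hcon2
        push Not at hcon2
        have : q ∈ B2 := Finset.mem_filter.mpr ⟨mem_PO.mpr ⟨hcon2, hq, hq2⟩, hqd⟩
        rw [hemp] at this
        exact absurd this (Finset.notMem_empty q)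
      have hqP : q ∈ PQ z0 N := by
        unfold PQ
        rw [Finset.mem_filter, Finset.mem_Ico]
        exact ⟨⟨hz, by omega⟩, hq⟩
      exact hno q hqP ((lt_pw_iff N q θ).mpr hcon) (Finset.mem_filter.mpr ⟨hqP, hqd⟩)
    · rw [if_neg hno]
      split_ifs <;> norm_num
  · rw [if_neg hemp, zero_mul]
    split_ifs <;> norm_num

open Classical in
/-- the linear sieve lower bound for shifted primes -/
theorem sieve_lower (hLD : ∀ t : ℝ, t < 1 / 2 → BV.LD t) (hPNT : BV.PNT) (θ : ℝ) (hθ : 0 < θ)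
    (hθ1 : θ < 1 / 4) : ∃ c : ℝ, 0 < c ∧ ∃ N₀ : ℕ, ∀ N : ℕ, N₀ ≤ N →
      c * (N / (Real.log N) ^ 2) ≤ (#((AA N).filter (Good N θ)) : ℝ) := by
  obtain ⟨F, f, hD⟩ := dde_exists
  obtain ⟨L₀, hL₀, hblock⟩ := g2_block
  obtain ⟨b₀, hBH⟩ := brun_hooley2 L₀ hL₀
  obtain ⟨cV, hcV, hV⟩ := V2_ge
  obtain ⟨Cm, hCm, hmass⟩ := mass_le
  -- parameters
  set s0 : ℝ := (3 * θ + 1 / 4) / (2 * θ) with hs0
  have hs02 : 2 < s0 := by
    rw [hs0, lt_div_iff₀ (by positivity)]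
    linarith
  have hf0 : 0 < f s0 := f_pos2 hD s0 hs02
  set c1 : ℝ := f s0 / θ with hc1
  have hc10 : 0 < c1 := by positivity
  set η : ℝ := min θ (1 / 4 - θ) with hη
  have hη0 : 0 < η := lt_min hθ (by linarith)
  have hηθ : η ≤ θ := min_le_left _ _
  have hη2 : η ≤ 1 / 4 - θ := min_le_right _ _
  obtain ⟨b, δ, hb, hδ0, hδ1, hδb, hexp⟩ := param η c1 (Real.exp Cm) b₀ hη0 hc10 (Real.exp_pos _)
  have hbr : (0 : ℝ) ≤ b := Nat.cast_nonneg b
  have hδθ : δ ≤ θ := by nlinarith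
  obtain ⟨K₀, hK₀⟩ := main_ind F f hD δ (c1 * δ) hδ0 hδ1 (by positivity)
  obtain ⟨K1, hK1⟩ := exists_nat_ge (2 / (1 / 4 - θ) + 4)
  set K := max K₀ (max K1 1) with hK
  have hKK0 : K₀ ≤ K := le_max_left _ _
  have hKK1 : K1 ≤ K := (le_max_left _ _).trans (le_max_right _ _)
  have hK1' : 1 ≤ K := (le_max_right _ _).trans (le_max_right _ _)
  have hKr : 2 / (1 / 4 - θ) + 4 ≤ K := hK1.trans (by exact_mod_cast hKK1)
  have hK0r : (0 : ℝ) < K := by exact_mod_cast hK1'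
  have hKinv : 1 / (K : ℝ) ≤ (1 / 4 - θ) / 2 := by
    have h1 : 2 / (1 / 4 - θ) ≤ K := by linarith
    rw [div_le_iff₀ (by linarith)] at h1
    rw [div_le_iff₀ hK0r]
    linarith
  have hK4 : (4 : ℝ) ≤ K := by
    have : 0 ≤ 2 / (1 / 4 - θ) := div_nonneg (by norm_num) (by linarith)
    linarith
  obtain ⟨N4, hN4⟩ := hK₀ K hKK0
  obtain ⟨N5, hN5⟩ := hmass δ hδ0 (by linarith)
  set L := ⌊(θ + 1 / 4) * K⌋₊ with hL
  have hLle : (L : ℝ) / K ≤ θ + 1 / 4 := by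
    rw [div_le_iff₀ hK0r]
    exact Nat.floor_le (by positivity)
  have hLge : θ + 1 / 4 - 1 / K ≤ (L : ℝ) / K := by
    rw [le_div_iff₀ hK0r, sub_mul, one_div_mul_cancel hK0r.ne']
    have := Nat.lt_floor_add_one ((θ + 1 / 4) * (K : ℝ))
    linarith
  have hLs : s0 ≤ (L : ℝ) / K / θ := by
    rw [hs0, le_div_iff₀ hθ]
    have : (3 * θ + 1 / 4) / (2 * θ) * θ = (3 * θ + 1 / 4) / 2 := by field_simp
    rw [this]
    linarith
  have hL2θ : 2 * θ ≤ (L : ℝ) / K := by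
    have : 2 ≤ (L : ℝ) / K / θ := hs02.le.trans hLs
    rwa [le_div_iff₀ hθ] at this
  have hL1 : 1 ≤ L := by
    rw [hL, Nat.one_le_floor_iff]
    nlinarith
  have hL2K : L ≤ 2 * K := by
    have h1 : (L : ℝ) ≤ 2 * K := by
      have := Nat.floor_le (a := (θ + 1 / 4) * (K : ℝ)) (by positivity)
      nlinarith
    exact_mod_cast h1
  set t : ℝ := θ + 1 / 4 + η / 2 with ht
  have ht1 : t < 1 / 2 := by linarith
  obtain ⟨C, hC, hBV⟩ := hLD t ht1 4
  set c : ℝ := cV * c1 * δ / 16 with hc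
  have hc0 : 0 < c := by positivity
  have hpnt2 : ∀ᶠ N : ℕ in Filter.atTop, (1 / 2 : ℝ) < (Nat.primeCounting N : ℝ) * Real.log N / N :=
    hPNT.eventually_const_lt (by norm_num)
  have hev : ∀ᶠ N : ℕ in Filter.atTop, 3 * (N : ℝ) ^ (0 : ℝ) ≤ (N : ℝ) ^ δ ∧
      2 ^ (4 * b + 10) * (N : ℝ) ^ (η / 8) ≤ (N : ℝ) ^ (η / 4) ∧
      4 * (N : ℝ) ^ (0 : ℝ) ≤ (N : ℝ) ^ (η / 4) ∧
      max 1 (4 * C / c) ≤ Real.log N ∧
      (1 / 2 : ℝ) < (Nat.primeCounting N : ℝ) * Real.log N / N := by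
    filter_upwards [ev_pow 0 δ 3 hδ0, ev_pow (η / 8) (η / 4) (2 ^ (4 * b + 10)) (by linarith),
      ev_pow 0 (η / 4) 4 (by linarith), ev_log (max 1 (4 * C / c)), hpnt2]
      with N h1 h2 h3 h4 h5
    exact ⟨h1, h2, h3, h4, h5⟩
  obtain ⟨N6, hN6⟩ := Filter.eventually_atTop.mp hev
  refine ⟨c, hc0, max N4 (max N5 (max N6 2)), fun N hN => ?_⟩
  simp only [max_le_iff] at hN
  obtain ⟨hNN4, hNN5, hNN6, hNN⟩ := hN
  obtain ⟨hx1, hx2, hx3, hx4, hx5⟩ := hN6 N hNN6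
  rw [Real.rpow_zero, mul_one] at hx1 hx3
  have hN0 : (0 : ℝ) < N := by positivity
  have hN1 : (1 : ℝ) ≤ N := by exact_mod_cast (by omega : 1 ≤ N)
  have hlog1 : 1 ≤ Real.log N := (le_max_left _ _).trans hx4
  have hlog2 : 4 * C / c ≤ Real.log N := (le_max_right _ _).trans hx4
  have hlogN : 0 < Real.log N := by linarith
  set z0 := pw N δ with hz0
  have hz0ge : (N : ℝ) ^ δ ≤ z0 := Nat.le_ceil _
  have hz03 : 3 ≤ z0 := by
    have : (3 : ℝ) ≤ z0 := hx1.trans hz0ge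
    exact_mod_cast this
  have hNδ : (N : ℝ) ^ δ ≤ N := by
    calc (N : ℝ) ^ δ ≤ (N : ℝ) ^ (1 : ℝ) := Real.rpow_le_rpow_of_exponent_le hN1 (by linarith)
      _ = N := Real.rpow_one _
  have hz0N : z0 ≤ N := Nat.ceil_le.mpr hNδ
  have hz02 : (z0 : ℝ) ≤ 2 * (N : ℝ) ^ δ := by
    have h1 : (z0 : ℝ) < (N : ℝ) ^ δ + 1 := Nat.ceil_lt_add_one (by positivity)
    linarith
  have hz0r : (3 : ℝ) ≤ z0 := by exact_mod_cast hz03
  set D : ℝ := (z0 : ℝ) ^ (4 * b + 10) with hD'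
  have hDN : D ≤ (N : ℝ) ^ (η / 4) := by
    refine le_trans ?_ hx2
    calc D ≤ (2 * (N : ℝ) ^ δ) ^ (4 * b + 10) := pow_le_pow_left₀ (by positivity) hz02 _
      _ = 2 ^ (4 * b + 10) * ((N : ℝ) ^ δ) ^ (4 * b + 10) := mul_pow _ _ _
      _ = 2 ^ (4 * b + 10) * (N : ℝ) ^ (δ * (4 * b + 10)) := by
          rw [← Real.rpow_natCast ((N : ℝ) ^ δ), ← Real.rpow_mul hN0.le]
          push_cast
          ring_nf
      _ ≤ 2 ^ (4 * b + 10) * (N : ℝ) ^ (η / 8) := by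
          apply mul_le_mul_of_nonneg_left _ (by positivity)
          exact Real.rpow_le_rpow_of_exponent_le hN1 hδb
  obtain ⟨lp, dp, hlp1, hdp1, hsupp, hsub, hmain, herr⟩ := hBH b hb z0 (PO z0) g2
    (by omega) (fun p hp => ⟨(mem_PO.mp hp).2.1.two_le, (mem_PO.mp hp).1⟩)
    (fun p hp => ⟨g2_nonneg p, g2_half p (by
      have h6 := (mem_PO.1 hp).2
      have h7 := h6.1.two_le
      have h8 := h6.2
      omega)⟩) (hblock z0)
  set P := PQ z0 N with hP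
  set z := pw N θ with hz
  set φ : Finset ℕ → ℝ := rw0 P (cost K N) z L with hφ
  -- main terms
  have hGmain : c1 * δ ≤ ∑ T ∈ P.powerset, φ T * G2 T := by
    have h := (hN4 N hNN4 L hL1 hL2K z θ hδθ (by linarith) (fun p hp => by
      have h1 := (mi_mem_PQ (δ := δ) hNN).mp hp
      exact lt_pw_iff_log N p θ hNN h1.1.one_le)).2 hL2θ
    rw [SS_sum] at h
    refine le_trans ?_ h
    have h1 : f s0 ≤ f ((L : ℝ) / K / θ) := hD.fmono hLs
    have h2 : 0 < f (2 / δ) := f_pos2 hD _ (by rw [lt_div_iff₀ hδ0]; linarith)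
    have h3 : f (2 / δ) ≤ 1 / 3 := by
      have h4 : (3 : ℝ) ≤ 2 / δ := by rw [le_div_iff₀ hδ0]; linarith
      calc f (2 / δ) ≤ F (2 / δ) := hD.fF _ (by linarith)
        _ ≤ F 3 := hD.Fanti (Set.mem_Ioi.mpr (by norm_num)) (Set.mem_Ioi.mpr (by linarith)) h4
        _ = 1 / 3 := hD.F3 3 (by norm_num) le_rfl
    have h4 : 3 ≤ 1 / f (2 / δ) := by
      rw [le_div_iff₀ h2]; linarith
    have h5 : 3 * (δ / θ) * f s0 ≤ 1 / f (2 / δ) * (δ / θ) * f ((L : ℝ) / K / θ) := by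
      apply mul_le_mul _ h1 hf0.le (by positivity)
      exact mul_le_mul_of_nonneg_right h4 (by positivity)
    have h6 : 3 * (δ / θ) * f s0 = 3 * (c1 * δ) := by rw [hc1]; ring
    have h7 : 0 < c1 * δ := by positivity
    linarith
  have hGabs : ∑ T ∈ P.powerset, |φ T| * G2 T ≤ Real.exp Cm / δ :=
    U2_le N δ Cm hδ0 (hN5 N hNN5) φ (rw0_abs _ _ _ _)
  have hGabs0 : 0 ≤ ∑ T ∈ P.powerset, |φ T| * G2 T := by
    apply Finset.sum_nonneg
    intro T _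
    exact mul_nonneg (abs_nonneg _) (G2_nonneg T)
  -- the error terms
  set Q := ⌊(N : ℝ) ^ t⌋₊ with hQ
  have hlevel : ∀ d ∈ (PO z0).powerset, ∀ T ∈ P.powerset, (lp d ≠ 0 ∨ dp d ≠ 0) → φ T ≠ 0 →
      4 * ((∏ q ∈ d, q) * ∏ q ∈ T, q) ≤ Q := by
    intro d _ T _ h1 h2
    have h3 := (hsupp d h1).2
    have h4 : ((∏ p ∈ T, p : ℕ) : ℝ) ≤ (N : ℝ) ^ ((L : ℝ) / K) := by
      apply rw0_level K N L z z0 hK1' hNN (by omega) _ T h2
      intro p hp hpz
      have hpp := (mi_mem_PQ (δ := δ) hNN).mp hp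
      have h5 := (lt_pw_iff_log N p θ hNN hpp.1.one_le).mp hpz
      have h6 := (cost_close K N p hK1' hNN hpp.1.one_le).2
      have h7 : (cost K N p : ℝ) / K ≤ (L : ℝ) / K := by
        refine h6.trans ?_
        have : θ + 1 / K ≤ (L : ℝ) / K := by linarith
        linarith
      rw [div_le_div_iff_of_pos_right hK0r] at h7
      exact_mod_cast h7
    apply Nat.le_floor
    push_cast
    push_cast at h3 h4
    have h5 : (N : ℝ) ^ t = (N : ℝ) ^ (η / 4) * ((N : ℝ) ^ (η / 4) * (N : ℝ) ^ (θ + 1 / 4)) := by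
      rw [← Real.rpow_add hN0, ← Real.rpow_add hN0, ht]
      congr 1
      ring
    rw [h5]
    have h6 : (N : ℝ) ^ ((L : ℝ) / K) ≤ (N : ℝ) ^ (θ + 1 / 4) :=
      Real.rpow_le_rpow_of_exponent_le hN1 hLle
    apply mul_le_mul hx3 _ (by positivity) (by positivity)
    exact mul_le_mul (h3.trans hDN) (h4.trans h6) (by positivity) (by positivity)
  have hEr : ∑ q ∈ Icc 1 Q, |Er N q| ≤ C * N / Real.log N ^ 4 :=
    hBV N hNN (fun _ => N) cc (fun _ => le_rfl) cc_coprime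
  have hR1 := errb N z0 Q lp φ 1 1 zero_le_one hlp1 (rw0_abs _ _ _ _)
    (fun d hd T hT h1 h2 => hlevel d hd T hT (Or.inl h1) h2)
  have hR2 := errb N z0 Q dp (fun T => |φ T|) (nb z0 : ℕ) 1 (Nat.cast_nonneg _) hdp1
    (fun T => by rw [abs_abs]; exact rw0_abs _ _ _ _ T)
    (fun d hd T hT h1 h2 => hlevel d hd T hT (Or.inr h1) (by
      intro h; exact h2 (by rw [h, abs_zero])))
  have hexp1 := expand N z0 hz03 lp φ
  have hexp2 := expand N z0 hz03 dp (fun T => |φ T|)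
  -- summation
  have hsum : ∑ p ∈ AA N,
      ((∑ d ∈ (PO z0).powerset, lp d * (if ∀ q ∈ d, q ∣ p - 1 then (1 : ℝ) else 0)) *
        (∑ T ∈ (PQ z0 N).powerset, φ T * (if ∀ q ∈ T, q ∣ p - 1 then (1 : ℝ) else 0))) -
      ∑ p ∈ AA N,
      ((∑ d ∈ (PO z0).powerset, dp d * (if ∀ q ∈ d, q ∣ p - 1 then (1 : ℝ) else 0)) *
        (∑ T ∈ (PQ z0 N).powerset, |φ T| * (if ∀ q ∈ T, q ∣ p - 1 then (1 : ℝ) else 0))) ≤
      (#((AA N).filter (Good N θ)) : ℝ) := by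
    rw [← Finset.sum_sub_distrib, ← Finset.sum_boole]
    exact Finset.sum_le_sum fun p hp => comb N z0 θ K L lp dp hsub p hp
  rw [hexp1, hexp2] at hsum
  -- main term
  set V : ℝ := ∏ p ∈ PO z0, (1 - g2 p) with hVdef
  have hVge : cV / Real.log N ≤ V := by
    refine le_trans ?_ (hV z0 hz03)
    apply div_le_div_of_nonneg_left hcV.le (Real.log_pos (by linarith))
    exact Real.log_le_log (by linarith) (by exact_mod_cast hz0N)
  have hV0 : 0 < V := lt_of_lt_of_le (by positivity) hVge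
  set S1 := ∑ d ∈ (PO z0).powerset, lp d * G2 d with hS1
  set S2 := ∑ d ∈ (PO z0).powerset, dp d * G2 d with hS2
  set U1 := ∑ T ∈ P.powerset, φ T * G2 T with hU1
  set U2 := ∑ T ∈ P.powerset, |φ T| * G2 T with hU2
  set X : ℝ := (Nat.primeCounting N : ℝ) / 2 with hX
  have hXge : N / (4 * Real.log N) ≤ X := by
    rw [hX, div_le_div_iff₀ (by positivity) (by norm_num)]
    rw [lt_div_iff₀ hN0] at hx5
    linarith
  have hX0 : 0 ≤ X := by positivity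
  have hm1 : V * (c1 * δ) ≤ S1 * U1 :=
    mul_le_mul hmain hGmain (by positivity) (hV0.le.trans hmain)
  have hm2 : S2 * U2 ≤ V * (c1 * δ / 2) := by
    calc S2 * U2 ≤ (Real.exp (-b) * V) * U2 := mul_le_mul_of_nonneg_right herr hGabs0
      _ ≤ (Real.exp (-b) * V) * (Real.exp Cm / δ) :=
          mul_le_mul_of_nonneg_left hGabs (by positivity)
      _ = V * (Real.exp (-b) * (Real.exp Cm / δ)) := by ring
      _ ≤ V * (c1 * δ / 2) := mul_le_mul_of_nonneg_left hexp hV0.le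
  have hm3 : (cV / Real.log N) * (c1 * δ / 2) * (N / (4 * Real.log N)) ≤
      S1 * U1 * X - S2 * U2 * X := by
    have h1 : V * (c1 * δ / 2) * X ≤ S1 * U1 * X - S2 * U2 * X := by
      rw [← sub_mul]
      apply mul_le_mul_of_nonneg_right _ hX0
      linarith
    refine le_trans ?_ h1
    apply mul_le_mul _ hXge (by positivity) (by positivity)
    exact mul_le_mul_of_nonneg_right hVge (by positivity)
  have hm4 : (cV / Real.log N) * (c1 * δ / 2) * (N / (4 * Real.log N)) =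
      2 * (c * (N / (Real.log N) ^ 2)) := by
    rw [hc]; field_simp; ring
  have hnb := nb_le z0 N hz0N hlog1
  have hm5 : 1 * 1 * ∑ q ∈ Icc 1 Q, |Er N q| + (nb z0 : ℕ) * 1 * ∑ q ∈ Icc 1 Q, |Er N q| ≤
      c * (N / (Real.log N) ^ 2) := by
    have hE0 : 0 ≤ ∑ q ∈ Icc 1 Q, |Er N q| := Finset.sum_nonneg fun q _ => abs_nonneg _
    have h1 : 1 * 1 * ∑ q ∈ Icc 1 Q, |Er N q| + (nb z0 : ℕ) * 1 * ∑ q ∈ Icc 1 Q, |Er N q| ≤
        (4 * Real.log N) * ∑ q ∈ Icc 1 Q, |Er N q| := by nlinarith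
    refine h1.trans ((mul_le_mul_of_nonneg_left hEr (by positivity)).trans ?_)
    have h2 : 4 * Real.log N * (C * N / Real.log N ^ 4) =
        (4 * C) / Real.log N * (N / Real.log N ^ 2) := by
      field_simp
    rw [h2]
    apply mul_le_mul_of_nonneg_right _ (by positivity)
    rw [div_le_iff₀ hlogN]
    rw [div_le_iff₀ hc0] at hlog2
    linarith
  have hr1 := (abs_le.mp hR1).1
  have hr2 := (abs_le.mp hR2).2
  linarith

end Pool.Agent.Work.MP_34d05d_al.Sh
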