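import Mathlib
import Pool.Agent.Work.MP_34d05d_al.A5
import Pool.Agent.Work.MP_34d05d_al.C1
import Pool.Agent.Work.MP_34d05d_al.P7

set_option autoImplicit false

/-!
# Soluble groups with few conjugacy classes
-/

namespace Pool.Agent.Work.MP_34d05d_al

open Finset Sh

/-- the group attached to a prime `p = 3 mod 4` with rough `(p-1)/2` -/
theorem group_of_prime (p : ℕ) (hp : p.Prime) (hp4 : p % 4 = 3) (hp7 : 7 ≤ p) (y X : ℝ)
    (hy : 1 < y) (hpX : (p : ℝ) ≤ X)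
    (h : ∀ q : ℕ, q.Prime → q ≠ 2 → q ∣ p - 1 → y ≤ q) :
    ∃ (G : Type) (_ : Group G) (_ : Finite G), Group.IsSolvable G ∧
      p ≤ Nat.card (ConjClasses G) + 1 ∧
      (Nat.card (ConjClasses G) : ℝ) ≤ p + 2 ^ (Real.log X / Real.log y) * (p : ℝ) ^ 3 / y ∧
      Real.exp ((p : ℝ) / 4) ≤ Nat.card G := by
  have : Fact p.Prime := ⟨hp⟩
  obtain ⟨M, hM⟩ : ∃ M, p = 2 * M + 1 := ⟨(p - 1) / 2, by omega⟩
  have hModd : M % 2 = 1 := by omega
  have hM3 : 3 ≤ M := by omega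
  obtain ⟨n, hn⟩ : ∃ n, M = n + 1 := ⟨M - 1, by omega⟩
  have hchar : ∀ m : ℕ, 0 < m → m ≤ n → (m : ZMod p) ≠ 0 := by
    intro m hm hmn h0
    rw [ZMod.natCast_eq_zero_iff] at h0
    have := Nat.le_of_dvd hm h0
    omega
  have hrough : ∀ q : ℕ, q.Prime → q ∣ M → y ≤ q := by
    intro q hq hqM
    apply h q hq
    · rintro rfl
      omega
    · have : p - 1 = 2 * M := by omega
      rw [this]
      exact hqM.mul_left 2
  have hy0 : 0 < y := by linarith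
  have hMX : (M : ℝ) ≤ X := by
    have h1 : (M : ℝ) ≤ p := by
      rw [hM]; push_cast
      have : (0 : ℝ) ≤ M := Nat.cast_nonneg _
      linarith
    linarith
  have hcu : Nat.card (ZMod p)ˣ = p - 1 := by
    rw [Nat.card_eq_fintype_card, ZMod.card_units]
  have hck : Nat.card (ZMod p) = p := Nat.card_zmod p
  refine ⟨TP (ZMod p) n ≃ₐ[ZMod p] TP (ZMod p) n, inferInstance, finiteAut, soluble, ?_, ?_, ?_⟩
  · have h1 := le_classes (K := ZMod p) (n := n)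
    rw [hcu] at h1
    omega
  · have h1 := classes_le (K := ZMod p) (n := n) hchar
    rw [hcu, hck] at h1
    have h2 : ∑ d ∈ Icc 1 n, ((p - 1).gcd d) ^ 2 * p ≤ 4 * p * ∑ d ∈ Icc 1 n, (Nat.gcd M d) ^ 2 := by
      rw [Finset.mul_sum]
      refine Finset.sum_le_sum fun d _ => ?_
      have h3 := gcd_two M d
      have h4 : p - 1 = 2 * M := by omega
      rw [h4]
      calc (Nat.gcd (2 * M) d) ^ 2 * p ≤ (4 * (Nat.gcd M d) ^ 2) * p := Nat.mul_le_mul_right _ h3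
        _ = 4 * p * (Nat.gcd M d) ^ 2 := by ring
    have h3 := gcd_sum M (M / y) (by positivity) (proper_le M (by omega) y hy0 hrough) n (by omega)
    have h4 := tau_le M (by omega) y X hy hrough hMX
    set T : ℝ := 2 ^ (Real.log X / Real.log y) with hT
    have h5 : (Nat.card (ConjClasses (TP (ZMod p) n ≃ₐ[ZMod p] TP (ZMod p) n)) : ℝ) ≤
        p + 4 * p * ((∑ d ∈ Icc 1 n, (Nat.gcd M d) ^ 2 : ℕ) : ℝ) := by
      have h6 : Nat.card (ConjClasses (TP (ZMod p) n ≃ₐ[ZMod p] TP (ZMod p) n)) ≤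
          p + 4 * p * ∑ d ∈ Icc 1 n, (Nat.gcd M d) ^ 2 := by omega
      exact_mod_cast h6
    refine h5.trans ?_
    have hp0 : (0 : ℝ) ≤ p := Nat.cast_nonneg _
    have hn2 : (n : ℝ) ≤ p / 2 := by
      rw [hM, hn]; push_cast; linarith
    have hM2 : (M : ℝ) ≤ p / 2 := by
      rw [hM]; push_cast; linarith
    have h7 : (n : ℝ) * #M.divisors * (M / y) ≤ (p / 2) * T * ((p / 2) / y) := by
      apply mul_le_mul _ _ (by positivity) (by positivity)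
      · exact mul_le_mul hn2 h4 (Nat.cast_nonneg _) (by positivity)
      · exact div_le_div_of_nonneg_right hM2 hy0.le
    have h8 : 4 * (p : ℝ) * ((∑ d ∈ Icc 1 n, (Nat.gcd M d) ^ 2 : ℕ) : ℝ) ≤
        4 * p * ((p / 2) * T * ((p / 2) / y)) :=
      mul_le_mul_of_nonneg_left (h3.trans h7) (by positivity)
    have h9 : 4 * (p : ℝ) * ((p / 2) * T * ((p / 2) / y)) = T * (p : ℝ) ^ 3 / y := by
      field_simp
      ring
    linarith
  · have h1 := card_ge (K := ZMod p) (n := n)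
    rw [hck] at h1
    have h2 : ((p : ℝ) ^ n) ≤ Nat.card (TP (ZMod p) n ≃ₐ[ZMod p] TP (ZMod p) n) := by
      exact_mod_cast h1
    refine le_trans ?_ h2
    have h3 : (p : ℝ) / 4 ≤ n := by
      rw [hM, hn]; push_cast
      have : (2 : ℝ) ≤ n := by exact_mod_cast (by omega : 2 ≤ n)
      linarith
    have hp0 : (3 : ℝ) ≤ p := by exact_mod_cast (by omega : 3 ≤ p)
    calc Real.exp ((p : ℝ) / 4) ≤ Real.exp (n * 1) := by
          rw [mul_one]; exact Real.exp_le_exp.2 h3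
      _ = (Real.exp 1) ^ n := by rw [Real.exp_nat_mul]
      _ ≤ (p : ℝ) ^ n := by
          apply pow_le_pow_left₀ (Real.exp_pos _).le
          exact Real.exp_one_lt_three.le.trans hp0

open Classical in
/-- for large `N` there is a suitable prime close to `N` -/
theorem exists_prime (hLD : ∀ t : ℝ, t < 1 / 2 → BV.LD t) (hPNT : BV.PNT) (θ κ : ℝ) (hθ : 0 < θ)
    (hθ1 : θ < 1 / 4) (hκ : 0 < κ) (hκ1 : κ < 1) : ∃ N₀ : ℕ, ∀ N : ℕ, N₀ ≤ N →
      ∃ p : ℕ, p.Prime ∧ p % 4 = 3 ∧ 7 ≤ p ∧ p ≤ N ∧ (N : ℝ) ^ (1 - κ) ≤ p ∧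
        ∀ q : ℕ, q.Prime → q ≠ 2 → q ∣ p - 1 → (N : ℝ) ^ θ ≤ q := by
  obtain ⟨c, hc, N1, h1⟩ := sieve_lower hLD hPNT θ hθ hθ1
  have h2 := (isLittleO_log_rpow_rpow_atTop (s := κ) 2 hκ).def (show (0 : ℝ) < c / 8 by positivity)
  have h3 := (tendsto_natCast_atTop_atTop (R := ℝ)).eventually h2
  obtain ⟨N2, h4⟩ := Filter.eventually_atTop.mp h3
  obtain ⟨N3, h4'⟩ := Filter.eventually_atTop.mp (ev_pow 0 (1 - κ) 2 (by linarith))
  refine ⟨max N1 (max N2 (max N3 3)), fun N hN => ?_⟩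
  simp only [max_le_iff] at hN
  obtain ⟨hN1, hN2, hN3', hN3⟩ := hN
  have h14 := h4' N hN3'
  rw [Real.rpow_zero, mul_one] at h14
  have h5 := h1 N hN1
  have h6 := h4 N hN2
  have hN0 : (0 : ℝ) < N := by exact_mod_cast (by omega : 0 < N)
  have hN1r : (1 : ℝ) ≤ N := by exact_mod_cast (by omega : 1 ≤ N)
  have hlog : 0 < Real.log N := Real.log_pos (by exact_mod_cast (by omega : 1 < N))
  rw [Real.norm_of_nonneg (by positivity), Real.norm_of_nonneg (by positivity)] at h6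
  have h7 : Real.log N ^ (2 : ℝ) = Real.log N ^ 2 := by
    rw [← Real.rpow_natCast]; norm_num
  rw [h7] at h6
  have hNκ : (N : ℝ) = (N : ℝ) ^ (1 - κ) * (N : ℝ) ^ κ := by
    rw [← Real.rpow_add hN0]; norm_num
  have h8 : 8 * (N : ℝ) ^ (1 - κ) ≤ c * (N / Real.log N ^ 2) := by
    rw [← mul_div_assoc, le_div_iff₀ (by positivity)]
    calc 8 * (N : ℝ) ^ (1 - κ) * Real.log N ^ 2 ≤ 8 * (N : ℝ) ^ (1 - κ) * (c / 8 * (N : ℝ) ^ κ) :=
          mul_le_mul_of_nonneg_left h6 (by positivity)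
      _ = c * ((N : ℝ) ^ (1 - κ) * (N : ℝ) ^ κ) := by ring
      _ = c * N := by rw [← hNκ]
  by_contra hcon
  push Not at hcon
  have h9 : (AA N).filter (Good N θ) ⊆ Finset.range (⌈(N : ℝ) ^ (1 - κ)⌉₊ + 7) := by
    intro p hp
    rw [Finset.mem_filter] at hp
    obtain ⟨hpA, hpG⟩ := hp
    unfold AA at hpA
    rw [Finset.mem_filter, Finset.mem_Icc] at hpA
    rw [Finset.mem_range]
    by_contra hlt
    push Not at hlt
    have ha : (N : ℝ) ^ (1 - κ) ≤ p := by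
      have hb : (N : ℝ) ^ (1 - κ) ≤ ⌈(N : ℝ) ^ (1 - κ)⌉₊ := Nat.le_ceil _
      have hd : ((⌈(N : ℝ) ^ (1 - κ)⌉₊ : ℕ) : ℝ) ≤ p := by exact_mod_cast (by omega)
      linarith
    obtain ⟨q, hq1, hq2, hq3, hq4⟩ := hcon p hpA.2.1 hpA.2.2 (by omega) hpA.1.2 ha
    exact absurd (hpG q hq1 hq2 hq3) (not_le.2 hq4)
  have h10 := Finset.card_le_card h9
  rw [Finset.card_range] at h10
  have h11 : (#((AA N).filter (Good N θ)) : ℝ) ≤ (⌈(N : ℝ) ^ (1 - κ)⌉₊ : ℝ) + 7 := by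
    exact_mod_cast h10
  have h12 : (⌈(N : ℝ) ^ (1 - κ)⌉₊ : ℝ) < (N : ℝ) ^ (1 - κ) + 1 := Nat.ceil_lt_add_one (by positivity)
  linarith

/-- the family of groups -/
theorem family (hLD : ∀ t : ℝ, t < 1 / 2 → BV.LD t) (hPNT : BV.PNT) (θ κ : ℝ) (hθ : 0 < θ)
    (hθ1 : θ < 1 / 4) (hκ : 0 < κ) (hκ1 : κ < 1) : ∃ C : ℝ, 0 < C ∧ ∃ N₀ : ℕ, ∀ N : ℕ, N₀ ≤ N →
      ∃ (G : Type) (_ : Group G) (_ : Finite G), Group.IsSolvable G ∧
        (N : ℝ) ^ (1 - κ) ≤ Nat.card (ConjClasses G) + 1 ∧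
        (Nat.card (ConjClasses G) : ℝ) ≤ C * (N : ℝ) ^ (3 - θ) ∧
        Real.exp ((N : ℝ) ^ (1 - κ) / 4) ≤ Nat.card G := by
  obtain ⟨N1, h1⟩ := exists_prime hLD hPNT θ κ hθ hθ1 hκ hκ1
  refine ⟨1 + 2 ^ (1 / θ), by positivity, max N1 2, fun N hN => ?_⟩
  simp only [max_le_iff] at hN
  obtain ⟨hN1, hN2⟩ := hN
  obtain ⟨p, hp, hp4, hp7, hpN, hpκ, hq⟩ := h1 N hN1
  have hN0 : (0 : ℝ) < N := by exact_mod_cast (by omega : 0 < N)
  have hN1r : (1 : ℝ) < N := by exact_mod_cast (by omega : 1 < N)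
  have hlog : 0 < Real.log N := Real.log_pos hN1r
  have hy : 1 < (N : ℝ) ^ θ := Real.one_lt_rpow hN1r hθ
  have hpNr : (p : ℝ) ≤ N := by exact_mod_cast hpN
  obtain ⟨G, iG, fG, hs, hk1, hk2, hk3⟩ := group_of_prime p hp hp4 hp7 ((N : ℝ) ^ θ) N hy hpNr hq
  refine ⟨G, iG, fG, hs, ?_, ?_, ?_⟩
  · have : (p : ℝ) ≤ Nat.card (ConjClasses G) + 1 := by exact_mod_cast hk1
    exact hpκ.trans this
  · refine hk2.trans ?_
    have e1 : Real.log N / Real.log ((N : ℝ) ^ θ) = 1 / θ := by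
      rw [Real.log_rpow hN0]
      field_simp
    rw [e1]
    have e2 : (N : ℝ) ^ (3 - θ) = (N : ℝ) ^ 3 / (N : ℝ) ^ θ := by
      rw [Real.rpow_sub hN0]
      congr 1
      rw [← Real.rpow_natCast]
      norm_num
    have h2 : (p : ℝ) ≤ (N : ℝ) ^ (3 - θ) := by
      refine hpNr.trans ?_
      calc (N : ℝ) = (N : ℝ) ^ (1 : ℝ) := (Real.rpow_one _).symm
        _ ≤ _ := Real.rpow_le_rpow_of_exponent_le hN1r.le (by linarith)
    have h3 : (2 : ℝ) ^ (1 / θ) * (p : ℝ) ^ 3 / (N : ℝ) ^ θ ≤ 2 ^ (1 / θ) * (N : ℝ) ^ (3 - θ) := by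
      rw [e2, ← mul_div_assoc]
      apply div_le_div_of_nonneg_right _ (by positivity)
      apply mul_le_mul_of_nonneg_left _ (by positivity)
      exact pow_le_pow_left₀ (Nat.cast_nonneg _) hpNr 3
    linarith
  · refine le_trans (Real.exp_le_exp.2 ?_) hk3
    linarith

/-- the main theorem -/
theorem main_aux (hLD : ∀ t : ℝ, t < 1 / 2 → BV.LD t) (hPNT : BV.PNT) (ε : ℝ) (hε : 0 < ε)
    (hε1 : ε ≤ 1 / 11) : ∃ R₀ : ℝ, ∀ R : ℝ, R₀ ≤ R →
      ∃ (G : Type) (_ : Group G) (_ : Finite G), Group.IsSolvable G ∧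
        R ^ (4 / 11 - ε) ≤ Nat.card (ConjClasses G) ∧
        (Nat.card (ConjClasses G) : ℝ) ≤ R ∧
        Real.exp (R ^ (4 / 11 - ε)) ≤ Nat.card G := by
  obtain ⟨C, hC, N₀, hfam⟩ := family hLD hPNT (1 / 4 - ε) ε (by linarith) (by linarith) hε
    (by linarith)
  set a : ℝ := 3 - (1 / 4 - ε) with ha
  have ha0 : 0 < a := by rw [ha]; linarith
  set e : ℝ := 4 / 11 - ε with he
  have he0 : 0 < e := by rw [he]; linarith
  have hea : e < (1 - ε) / a := by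
    rw [lt_div_iff₀ ha0, he, ha]
    nlinarith
  set c' : ℝ := (1 / 2 * (1 / C) ^ (1 / a)) ^ (1 - ε) / 4 with hc'
  have hc0 : 0 < c' := by positivity
  have t1 : Filter.Tendsto (fun R : ℝ => (1 / C) ^ (1 / a) * R ^ (1 / a)) Filter.atTop
      Filter.atTop := (tendsto_rpow_atTop (by positivity)).const_mul_atTop (by positivity)
  have t2 : Filter.Tendsto (fun R : ℝ => c' * R ^ ((1 - ε) / a - e)) Filter.atTop
      Filter.atTop := (tendsto_rpow_atTop (by linarith)).const_mul_atTop hc0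
  obtain ⟨R1, hR1⟩ := Filter.eventually_atTop.mp (t1.eventually_ge_atTop ((N₀ : ℝ) + 2))
  obtain ⟨R2, hR2⟩ := Filter.eventually_atTop.mp (t2.eventually_ge_atTop 1)
  refine ⟨max R1 (max R2 1), fun R hR => ?_⟩
  simp only [max_le_iff] at hR
  obtain ⟨h1, h2, h3⟩ := hR
  have hR0 : 0 < R := by linarith
  have g1 := hR1 R h1
  have g2 := hR2 R h2
  set w : ℝ := (1 / C) ^ (1 / a) * R ^ (1 / a) with hw
  have hN₀ : (0 : ℝ) ≤ N₀ := Nat.cast_nonneg _
  have hw0 : 0 < w := by positivity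
  obtain ⟨N, hN⟩ : ∃ N, N = ⌊w⌋₊ := ⟨_, rfl⟩
  have hNw : (N : ℝ) ≤ w := by rw [hN]; exact Nat.floor_le hw0.le
  have hNw2 : w < N + 1 := by rw [hN]; exact Nat.lt_floor_add_one w
  have hNN : N₀ ≤ N := by
    rw [hN]
    apply Nat.le_floor
    linarith
  have hwN : 1 / 2 * w ≤ N := by linarith
  obtain ⟨G, iG, fG, hs, hk1, hk2, hk3⟩ := hfam N hNN
  have hwa : w ^ a = R / C := by
    rw [hw, ← Real.mul_rpow (by positivity) hR0.le, ← Real.rpow_mul (by positivity),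
      one_div_mul_cancel ha0.ne', Real.rpow_one]
    ring
  have hkR : C * (N : ℝ) ^ a ≤ R := by
    calc C * (N : ℝ) ^ a ≤ C * w ^ a :=
          mul_le_mul_of_nonneg_left (Real.rpow_le_rpow (Nat.cast_nonneg _) hNw ha0.le) hC.le
      _ = R := by rw [hwa]; field_simp
  have hlow : R ^ e ≤ (N : ℝ) ^ (1 - ε) / 4 := by
    have h4 : (1 / 2 * w) ^ (1 - ε) ≤ (N : ℝ) ^ (1 - ε) :=
      Real.rpow_le_rpow (by positivity) hwN (by linarith)
    have h5 : (1 / 2 * w) ^ (1 - ε) / 4 = c' * R ^ ((1 - ε) / a) := by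
      rw [hc', hw, ← mul_assoc, Real.mul_rpow (by positivity) (by positivity),
        ← Real.rpow_mul hR0.le]
      have : 1 / a * (1 - ε) = (1 - ε) / a := by ring
      rw [this]
      ring
    have h6 : R ^ ((1 - ε) / a) = R ^ ((1 - ε) / a - e) * R ^ e := by
      rw [← Real.rpow_add hR0]; congr 1; ring
    have h7 : R ^ e ≤ c' * R ^ ((1 - ε) / a) := by
      rw [h6, ← mul_assoc]
      have : 0 < R ^ e := by positivity
      nlinarith
    linarith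
  have hRe : 1 ≤ R ^ e := Real.one_le_rpow h3 he0.le
  refine ⟨G, iG, fG, hs, ?_, hk2.trans hkR, ?_⟩
  · linarith
  · exact le_trans (Real.exp_le_exp.2 hlow) hk3

end Pool.Agent.Work.MP_34d05d_al
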