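import Mathlib

set_option autoImplicit false

/-!
# Automorphisms of truncated polynomial rings: basics
-/

namespace Pool.Agent.Work.MP_34d05d_al

open Polynomial

/-- truncated polynomial ring `K[X]/(X^(n+2))` -/
abbrev TP (K : Type) [Field K] (n : ℕ) : Type := AdjoinRoot ((X : K[X]) ^ (n + 2))

/-- the class of the variable -/
noncomputable abbrev rt (K : Type) [Field K] (n : ℕ) : TP K n :=
  AdjoinRoot.root ((X : K[X]) ^ (n + 2))

variable {K : Type} [Field K] {n : ℕ}

theorem rt_eq : rt K n = AdjoinRoot.mk ((X : K[X]) ^ (n + 2)) X := by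
  rw [AdjoinRoot.mk_X]

theorem rt_pow : (rt K n) ^ (n + 2) = 0 := by
  rw [rt_eq, ← map_pow, AdjoinRoot.mk_self]

theorem rt_pow_ne : (rt K n) ^ (n + 1) ≠ 0 := by
  rw [rt_eq, ← map_pow]
  intro h
  rw [AdjoinRoot.mk_eq_zero] at h
  have h2 := (Polynomial.X_pow_dvd_iff.mp h) (n + 1) (by omega)
  simp at h2

theorem rt_pow_zero {m : ℕ} (h : n + 2 ≤ m) : (rt K n) ^ m = 0 := by
  obtain ⟨k, rfl⟩ := Nat.exists_eq_add_of_le h
  rw [pow_add, rt_pow, zero_mul]

theorem ntp : Nontrivial (TP K n) := by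
  refine ⟨⟨(rt K n) ^ (n + 1), 0, rt_pow_ne⟩⟩

theorem dec (r : TP K n) : ∃ (c : K) (s : TP K n), r = algebraMap K (TP K n) c + rt K n * s := by
  obtain ⟨P, rfl⟩ := AdjoinRoot.mk_surjective r
  refine ⟨P.coeff 0, AdjoinRoot.mk _ P.divX, ?_⟩
  conv_lhs => rw [← Polynomial.X_mul_divX_add P]
  rw [map_add, map_mul, rt_eq, add_comm]
  rfl

theorem rep (r : TP K n) : ∃ P : K[X], r = aeval (rt K n) P := by
  obtain ⟨P, rfl⟩ := AdjoinRoot.mk_surjective r
  exact ⟨P, by rw [AdjoinRoot.aeval_eq]⟩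

theorem hom_congr (f g : TP K n →ₐ[K] TP K n) (w : TP K n)
    (h : w ∣ f (rt K n) - g (rt K n)) (r : TP K n) : w ∣ f r - g r := by
  obtain ⟨P, rfl⟩ := rep r
  rw [← Polynomial.aeval_algHom_apply, ← Polynomial.aeval_algHom_apply]
  refine dvd_trans h ?_
  have := Polynomial.sub_dvd_eval_sub (f (rt K n)) (g (rt K n)) (P.map (algebraMap K (TP K n)))
  rwa [Polynomial.eval_map_algebraMap, Polynomial.eval_map_algebraMap] at this

theorem hom_ext (f g : TP K n →ₐ[K] TP K n) (h : f (rt K n) = g (rt K n)) : f = g :=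
  AdjoinRoot.algHom_ext h

theorem aut_ext (f g : TP K n ≃ₐ[K] TP K n) (h : f (rt K n) = g (rt K n)) : f = g := by
  have : (f : TP K n →ₐ[K] TP K n) = g := hom_ext _ _ h
  ext r
  exact DFunLike.congr_fun this r

/-- the substitution homomorphism -/
noncomputable def hm (z : TP K n) (hz : z ^ (n + 2) = 0) : TP K n →ₐ[K] TP K n :=
  AdjoinRoot.liftAlgHom _ (Algebra.ofId K _) z (by simp [hz])

theorem hm_rt (z : TP K n) (hz : z ^ (n + 2) = 0) : hm z hz (rt K n) = z := by
  simp [hm]

theorem unit_of (t : K) (ht : t ≠ 0) (s : TP K n) :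
    IsUnit (algebraMap K (TP K n) t + rt K n * s) := by
  have h1 : IsNilpotent (rt K n * s) := ⟨n + 2, by rw [mul_pow, rt_pow, zero_mul]⟩
  have h2 : IsUnit (algebraMap K (TP K n) t) := (IsUnit.mk0 t ht).map _
  exact IsNilpotent.isUnit_add_left_of_commute h1 h2 (Commute.all _ _)

theorem pow_rt_mul_zero (u : TP K n) : (rt K n * u) ^ (n + 2) = 0 := by
  rw [mul_pow, rt_pow, zero_mul]

instance finTP : FiniteDimensional K (TP K n) :=
  (AdjoinRoot.powerBasis (pow_ne_zero (n + 2) (X_ne_zero (R := K)))).finite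

theorem exists_aut (u : TP K n) (hu : IsUnit u) :
    ∃ σ : TP K n ≃ₐ[K] TP K n, σ (rt K n) = rt K n * u := by
  set f := hm (rt K n * u) (pow_rt_mul_zero u) with hf
  have hfx : f (rt K n) = rt K n * u := hm_rt _ _
  have key : ∀ k : ℕ, k ≤ n + 2 → ∀ r : TP K n, (rt K n) ^ (n + 2 - k) * r ∈ f.range := by
    intro k
    induction k with
    | zero =>
      intro _ r
      rw [Nat.sub_zero, rt_pow, zero_mul]
      exact f.range.zero_mem
    | succ k ih =>
      intro hk r
      obtain ⟨m, hm⟩ : ∃ m, m = n + 2 - (k + 1) := ⟨_, rfl⟩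
      have hm2 : n + 2 - k = m + 1 := by omega
      have ih2 := ih (by omega)
      rw [hm2] at ih2
      rw [← hm]
      obtain ⟨c, s, rfl⟩ := dec r
      obtain ⟨v, hv⟩ := (hu.pow m).exists_right_inv
      obtain ⟨v0, v1, rfl⟩ := dec v
      have h1 : (rt K n) ^ m ∈ f.range := by
        have e : (rt K n) ^ m = f ((rt K n) ^ m * algebraMap K _ v0) +
            (rt K n) ^ (m + 1) * (u ^ m * v1) := by
          rw [map_mul, map_pow, hfx, AlgHom.commutes, mul_pow]
          calc (rt K n) ^ m = (rt K n) ^ m * (u ^ m * (algebraMap K _ v0 + rt K n * v1)) := by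
                rw [hv, mul_one]
            _ = _ := by ring
        rw [e]
        exact f.range.add_mem ⟨_, rfl⟩ (ih2 _)
      have e2 : (rt K n) ^ m * (algebraMap K _ c + rt K n * s) =
          (rt K n) ^ m * algebraMap K _ c + (rt K n) ^ (m + 1) * s := by ring
      rw [e2]
      refine f.range.add_mem (f.range.mul_mem h1 (f.range.algebraMap_mem c)) (ih2 _)
  have hsurj : Function.Surjective f := by
    intro r
    have := key (n + 2) le_rfl r
    rw [Nat.sub_self, pow_zero, one_mul] at this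
    exact this
  have hinj : Function.Injective f := by
    have : Function.Injective f.toLinearMap :=
      LinearMap.injective_iff_surjective.mpr hsurj
    exact this
  exact ⟨AlgEquiv.ofBijective f ⟨hinj, hsurj⟩, hfx⟩

theorem alg_inj {c : K} {s : TP K n} (h : algebraMap K (TP K n) c = rt K n * s) : c = 0 := by
  by_contra hc
  have h1 : algebraMap K (TP K n) (-c) + rt K n * s = 0 := by rw [← h, map_neg]; ring
  have h2 := unit_of (n := n) (-c) (neg_ne_zero.mpr hc) s
  rw [h1] at h2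
  have := ntp (K := K) (n := n)
  exact not_isUnit_zero h2

theorem aut_form (σ : TP K n ≃ₐ[K] TP K n) :
    ∃ (t : K) (s : TP K n), t ≠ 0 ∧ σ (rt K n) = rt K n * (algebraMap K _ t + rt K n * s) := by
  obtain ⟨c, s, hs⟩ := dec (σ (rt K n))
  have hc : c = 0 := by
    by_contra hc
    have h2 := unit_of (n := n) c hc s
    rw [← hs] at h2
    have h3 := h2.pow (n + 2)
    rw [← map_pow, rt_pow, map_zero] at h3
    have := ntp (K := K) (n := n)
    exact not_isUnit_zero h3
  obtain ⟨t, s', rfl⟩ := dec s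
  refine ⟨t, s', ?_, by rw [hs, hc, map_zero, zero_add]⟩
  rintro rfl
  have h1 : σ ((rt K n) ^ (n + 1)) = 0 := by
    rw [map_pow, hs, hc, map_zero, zero_add, zero_add]
    have : (rt K n * (rt K n * s')) ^ (n + 1) = (rt K n) ^ (2 * (n + 1)) * s' ^ (n + 1) := by
      ring
    rw [this, rt_pow_zero (by omega), zero_mul]
  have h2 : (rt K n) ^ (n + 1) = 0 := by
    apply σ.injective
    rw [h1, map_zero]
  exact rt_pow_ne h2

end Pool.Agent.Work.MP_34d05d_al
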