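import Pool.Agent.Work.MP_34d05d_al.A1

set_option autoImplicit false

/-!
# Conjugation of automorphisms of truncated polynomial rings
-/

namespace Pool.Agent.Work.MP_34d05d_al

open Polynomial

variable {K : Type} [Field K] {n : ℕ}

theorem exists_el (j : ℕ) (hj : 1 ≤ j) (c : K) : ∃ ε : TP K n ≃ₐ[K] TP K n,
    ε (rt K n) = rt K n + algebraMap K (TP K n) c * (rt K n) ^ (j + 1) := by
  obtain ⟨j', rfl⟩ := Nat.exists_eq_add_of_le' hj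
  obtain ⟨ε, hε⟩ := exists_aut (n := n) (algebraMap K (TP K n) 1 +
    rt K n * (algebraMap K (TP K n) c * (rt K n) ^ j')) (unit_of 1 one_ne_zero _)
  refine ⟨ε, ?_⟩
  rw [hε, map_one]
  ring

theorem exists_sc (s : K) (hs : s ≠ 0) : ∃ ε : TP K n ≃ₐ[K] TP K n,
    ε (rt K n) = algebraMap K (TP K n) s * rt K n := by
  obtain ⟨ε, hε⟩ := exists_aut (n := n) (algebraMap K (TP K n) s + rt K n * 0)
    (unit_of s hs _)
  refine ⟨ε, ?_⟩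
  rw [hε]
  ring

theorem el_dvd (ε : TP K n ≃ₐ[K] TP K n) (j : ℕ) (c : TP K n)
    (hε : ε (rt K n) = rt K n + c * (rt K n) ^ (j + 1)) (k : ℕ) (s : TP K n) :
    ∃ r, ε ((rt K n) ^ k * s) = (rt K n) ^ k * s + (rt K n) ^ (k + j) * r := by
  have h1 : (rt K n) ^ (j + 1) ∣ (ε : TP K n →ₐ[K] TP K n) s - (AlgHom.id K (TP K n)) s := by
    apply hom_congr
    refine ⟨c, ?_⟩
    have e : (ε : TP K n →ₐ[K] TP K n) (rt K n) = ε (rt K n) := rfl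
    rw [e, hε, AlgHom.id_apply]
    ring
  obtain ⟨r1, hr1⟩ := h1
  have e1 : ε s = s + (rt K n) ^ (j + 1) * r1 := by
    have e : (ε : TP K n →ₐ[K] TP K n) s = ε s := rfl
    rw [e, AlgHom.id_apply] at hr1
    rw [← hr1]
    ring
  obtain ⟨q, hq⟩ := Polynomial.powAddExpansion (1 : TP K n) (c * (rt K n) ^ j) k
  rw [map_mul, map_pow, hε, e1]
  have e2 : rt K n + c * (rt K n) ^ (j + 1) = rt K n * (1 + c * (rt K n) ^ j) := by ring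
  rw [e2, mul_pow, hq]
  refine ⟨rt K n * r1 + ((k : TP K n) * c + q * c ^ 2 * (rt K n) ^ j) *
    (s + (rt K n) ^ (j + 1) * r1), ?_⟩
  rw [one_pow, one_pow]
  ring

theorem conj_mod (σ ε : TP K n ≃ₐ[K] TP K n) (z w : TP K n) (hz : z ^ (n + 2) = 0)
    (h : w ∣ hm z hz (ε (rt K n)) - ε (σ (rt K n))) :
    w ∣ (ε * σ * ε⁻¹) (rt K n) - z := by
  have h1 := hom_congr ((hm z hz).comp (ε : TP K n →ₐ[K] TP K n))
    ((ε : TP K n →ₐ[K] TP K n).comp (σ : TP K n →ₐ[K] TP K n)) w h (ε⁻¹ (rt K n))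
  have e1 : ((hm z hz).comp (ε : TP K n →ₐ[K] TP K n)) (ε⁻¹ (rt K n)) = z := by
    have : ((hm z hz).comp (ε : TP K n →ₐ[K] TP K n)) (ε⁻¹ (rt K n)) =
        hm z hz ((ε * ε⁻¹) (rt K n)) := rfl
    rw [this, mul_inv_cancel, AlgEquiv.one_apply, hm_rt]
  have e2 : ((ε : TP K n →ₐ[K] TP K n).comp (σ : TP K n →ₐ[K] TP K n)) (ε⁻¹ (rt K n)) =
      (ε * σ * ε⁻¹) (rt K n) := rfl
  rw [e1, e2] at h1
  rw [dvd_sub_comm]
  exact h1

theorem case1 (σ : TP K n ≃ₐ[K] TP K n) (i : ℕ) (hi : 1 ≤ i) (t : K) (s : TP K n)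
    (hσ : σ (rt K n) = rt K n * (algebraMap K (TP K n) t + rt K n * s)) (ht : t ≠ 0)
    (hti : t ^ i ≠ 1) (lam : K) : ∃ ε : TP K n ≃ₐ[K] TP K n,
      (rt K n) ^ (i + 2) ∣ (ε * σ * ε⁻¹) (rt K n) -
        (σ (rt K n) + algebraMap K (TP K n) lam * (rt K n) ^ (i + 1)) := by
  have h1 : (1 - t ^ i : K) ≠ 0 := sub_ne_zero.mpr (Ne.symm hti)
  obtain ⟨c, hc⟩ : ∃ c : K, lam = c * t * (1 - t ^ i) := by
    refine ⟨lam / (t * (1 - t ^ i)), ?_⟩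
    field_simp
  obtain ⟨ε, hε⟩ := exists_el (n := n) i hi c
  refine ⟨ε, ?_⟩
  set x := rt K n with hx
  set T := algebraMap K (TP K n) t with hT
  set C := algebraMap K (TP K n) c with hC
  set Λ := algebraMap K (TP K n) lam with hΛ
  have hΛ2 : Λ = C * T * (1 - T ^ i) := by
    rw [hΛ, hc, hC, hT]
    simp only [map_mul, map_sub, map_one, map_pow]
  obtain ⟨i', rfl⟩ := Nat.exists_eq_add_of_le' hi
  have hzx : σ x + Λ * x ^ (i' + 1 + 1) = x * (T + x * (s + Λ * x ^ i')) := by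
    rw [hσ]; ring
  have hz : (σ x + Λ * x ^ (i' + 1 + 1)) ^ (n + 2) = 0 := by
    rw [hzx]; exact pow_rt_mul_zero _
  apply conj_mod σ ε _ _ hz
  have e1 : hm (σ x + Λ * x ^ (i' + 1 + 1)) hz (ε x) =
      (σ x + Λ * x ^ (i' + 1 + 1)) + C * (σ x + Λ * x ^ (i' + 1 + 1)) ^ (i' + 1 + 1) := by
    rw [hε, map_add, map_mul, map_pow, hm_rt, hC, AlgHom.commutes]
  rw [e1]
  obtain ⟨q, hq⟩ := Polynomial.powAddExpansion T (x * (s + Λ * x ^ i')) (i' + 1 + 1)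
  have e2 : (σ x + Λ * x ^ (i' + 1 + 1)) ^ (i' + 1 + 1) = x ^ (i' + 1 + 1) * (T ^ (i' + 1 + 1) +
      ((i' + 1 + 1 : ℕ) : TP K n) * T ^ (i' + 1) * (x * (s + Λ * x ^ i')) +
        q * (x * (s + Λ * x ^ i')) ^ 2) := by
    rw [hzx, mul_pow, hq]
    rfl
  rw [e2]
  have e3 : σ x = T * x + x ^ 2 * s := by rw [hσ]; ring
  obtain ⟨r, hr⟩ := el_dvd ε (i' + 1) C hε 2 s
  have e4 : ε (σ x) = T * (x + C * x ^ (i' + 1 + 1)) + (x ^ 2 * s + x ^ (2 + (i' + 1)) * r) := by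
    rw [e3, map_add, hr, map_mul, hε, hT, AlgEquiv.commutes]
  rw [e4, e3, hΛ2]
  refine ⟨C * (((i' + 1 + 1 : ℕ) : TP K n) * T ^ (i' + 1) * (s + Λ * x ^ i') +
    q * x * (s + Λ * x ^ i') ^ 2) - r, ?_⟩
  rw [hΛ2]
  ring

theorem case2 (σ : TP K n ≃ₐ[K] TP K n) (d j : ℕ) (hd : 1 ≤ d) (hj : 1 ≤ j) (t a : K)
    (s : TP K n)
    (hσ : σ (rt K n) = algebraMap K (TP K n) t * rt K n +
      algebraMap K (TP K n) a * (rt K n) ^ (d + 1) + (rt K n) ^ (d + 2) * s)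
    (ha : a ≠ 0) (htj : t ^ j = 1) (hdj : (d : K) ≠ (j : K)) (lam : K) :
    ∃ ε : TP K n ≃ₐ[K] TP K n,
      (rt K n) ^ (d + j + 2) ∣ (ε * σ * ε⁻¹) (rt K n) -
        (σ (rt K n) + algebraMap K (TP K n) lam * (rt K n) ^ (d + j + 1)) := by
  have h1 : (d - j : K) ≠ 0 := sub_ne_zero.mpr hdj
  obtain ⟨c, hc⟩ : ∃ c : K, lam = a * c * (d - j) := by
    refine ⟨lam / (a * (d - j)), ?_⟩
    field_simp
  obtain ⟨ε, hε⟩ := exists_el (n := n) j hj c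
  refine ⟨ε, ?_⟩
  set x := rt K n with hx
  set T := algebraMap K (TP K n) t with hT
  set A := algebraMap K (TP K n) a with hA
  set C := algebraMap K (TP K n) c with hC
  set Λ := algebraMap K (TP K n) lam with hΛ
  have hΛ2 : Λ = A * C * ((d : TP K n) - (j : TP K n)) := by
    rw [hΛ, hc, hC, hA]
    simp only [map_mul, map_sub, map_natCast]
  have hTj : T ^ j = 1 := by rw [hT, ← map_pow, htj, map_one]
  obtain ⟨j', rfl⟩ := Nat.exists_eq_add_of_le' hj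
  obtain ⟨d', rfl⟩ := Nat.exists_eq_add_of_le' hd
  obtain ⟨V, hV⟩ : ∃ V, V = A + x * s + Λ * x ^ (j' + 1) := ⟨_, rfl⟩
  have hzx : σ x + Λ * x ^ (d' + 1 + (j' + 1) + 1) = x * (T + x ^ (d' + 1) * V) := by
    rw [hσ, hV]; ring
  have hz : (σ x + Λ * x ^ (d' + 1 + (j' + 1) + 1)) ^ (n + 2) = 0 := by
    rw [hzx]; exact pow_rt_mul_zero _
  apply conj_mod σ ε _ _ hz
  have e1 : hm (σ x + Λ * x ^ (d' + 1 + (j' + 1) + 1)) hz (ε x) =
      (σ x + Λ * x ^ (d' + 1 + (j' + 1) + 1)) +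
        C * (σ x + Λ * x ^ (d' + 1 + (j' + 1) + 1)) ^ (j' + 1 + 1) := by
    rw [hε, map_add, map_mul, map_pow, hm_rt, hC, AlgHom.commutes]
  rw [e1]
  obtain ⟨q, hq⟩ := Polynomial.powAddExpansion T (x ^ (d' + 1) * V) (j' + 1 + 1)
  have e2 : (σ x + Λ * x ^ (d' + 1 + (j' + 1) + 1)) ^ (j' + 1 + 1) =
      x ^ (j' + 1 + 1) * (T +
      ((j' + 1 + 1 : ℕ) : TP K n) * (x ^ (d' + 1) * V) +
        q * (x ^ (d' + 1) * V) ^ 2) := by
    rw [hzx, mul_pow, hq, Nat.add_sub_cancel, hTj, pow_succ T (j' + 1), hTj]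
    ring
  rw [e2]
  obtain ⟨r, hr⟩ := el_dvd ε (j' + 1) C hε (d' + 1 + 2) s
  obtain ⟨q', hq'⟩ := Polynomial.powAddExpansion (1 : TP K n) (C * x ^ (j' + 1)) (d' + 1 + 1)
  have e5 : (x + C * x ^ (j' + 1 + 1)) ^ (d' + 1 + 1) = x ^ (d' + 1 + 1) * (1 +
      ((d' + 1 + 1 : ℕ) : TP K n) * (C * x ^ (j' + 1)) + q' * (C * x ^ (j' + 1)) ^ 2) := by
    have : x + C * x ^ (j' + 1 + 1) = x * (1 + C * x ^ (j' + 1)) := by ring
    rw [this, mul_pow, hq', one_pow, one_pow]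
    ring
  have e4 : ε (σ x) = T * (x + C * x ^ (j' + 1 + 1)) + A * (x ^ (d' + 1 + 1) * (1 +
      ((d' + 1 + 1 : ℕ) : TP K n) * (C * x ^ (j' + 1)) + q' * (C * x ^ (j' + 1)) ^ 2)) +
      (x ^ (d' + 1 + 2) * s + x ^ (d' + 1 + 2 + (j' + 1)) * r) := by
    rw [hσ, map_add, map_add, hr, map_mul, map_mul, map_pow, hε, e5, hT, hA, AlgEquiv.commutes,
      AlgEquiv.commutes]
  rw [e4, hσ]
  refine ⟨C * ((j' + 1 + 1 : ℕ) : TP K n) * (s + Λ * x ^ j') + C * q * x ^ d' * V ^ 2 -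
    A * q' * C ^ 2 * x ^ j' - r, ?_⟩
  rw [hV, hΛ2]
  push_cast
  ring

end Pool.Agent.Work.MP_34d05d_al
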