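import Pool.Agent.Work.MP_34d05d_al.A2

set_option autoImplicit false

/-!
# Normal forms of automorphisms of truncated polynomial rings up to conjugation
-/

namespace Pool.Agent.Work.MP_34d05d_al

open Polynomial

variable {K : Type} [Field K] {n : ℕ}

/-- the normal form modulo `x^(k+1)` -/
def NForm (k : ℕ) (σ : TP K n ≃ₐ[K] TP K n) : Prop :=
  ∃ t : K, t ≠ 0 ∧
    ((rt K n) ^ (k + 1) ∣ σ (rt K n) - algebraMap K (TP K n) t * rt K n ∨
      ∃ (d : ℕ) (a b : K), 1 ≤ d ∧ d < k ∧ t ^ d = 1 ∧ a ≠ 0 ∧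
        (rt K n) ^ (k + 1) ∣ σ (rt K n) - (algebraMap K (TP K n) t * rt K n +
          algebraMap K (TP K n) a * (rt K n) ^ (d + 1) +
          algebraMap K (TP K n) b * (rt K n) ^ (2 * d + 1)))

theorem conj_isConj (σ σ' ε : TP K n ≃ₐ[K] TP K n) (h : IsConj σ σ') :
    IsConj σ (ε * σ' * ε⁻¹) := by
  refine h.trans ?_
  rw [isConj_iff]
  exact ⟨ε, rfl⟩

theorem normal (hchar : ∀ m : ℕ, 0 < m → m ≤ n → (m : K) ≠ 0) (σ : TP K n ≃ₐ[K] TP K n) :
    ∀ k : ℕ, 1 ≤ k → k ≤ n + 1 → ∃ σ' : TP K n ≃ₐ[K] TP K n, IsConj σ σ' ∧ NForm k σ' := by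
  intro k hk
  induction k, hk using Nat.le_induction with
  | base =>
    intro _
    obtain ⟨t, s, ht, hs⟩ := aut_form σ
    refine ⟨σ, IsConj.refl _, t, ht, Or.inl ⟨s, ?_⟩⟩
    rw [hs]
    ring
  | succ k hk ih =>
    intro hkn
    obtain ⟨σ', hc, t, ht, h⟩ := ih (by omega)
    rcases h with h | ⟨d, a, b, hd, hdk, htd, ha, h⟩
    · obtain ⟨r, hr⟩ := h
      obtain ⟨c, s, rfl⟩ := dec r
      obtain ⟨k', rfl⟩ := Nat.exists_eq_add_of_le' hk
      by_cases htk : t ^ (k' + 1) = 1
      · refine ⟨σ', hc, t, ht, ?_⟩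
        by_cases hc0 : c = 0
        · left
          refine ⟨s, ?_⟩
          rw [hr, hc0, map_zero]
          ring
        · right
          refine ⟨k' + 1, c, 0, by omega, by omega, htk, hc0, s, ?_⟩
          have : σ' (rt K n) = algebraMap K (TP K n) t * rt K n + (rt K n) ^ (k' + 1 + 1) *
              (algebraMap K (TP K n) c + rt K n * s) := by rw [← hr]; ring
          rw [this, map_zero]
          ring
      · have hσ : σ' (rt K n) = rt K n * (algebraMap K (TP K n) t + rt K n *
            ((rt K n) ^ k' * (algebraMap K (TP K n) c + rt K n * s))) := by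
          have : σ' (rt K n) = algebraMap K (TP K n) t * rt K n + (rt K n) ^ (k' + 1 + 1) *
              (algebraMap K (TP K n) c + rt K n * s) := by rw [← hr]; ring
          rw [this]
          ring
        obtain ⟨ε, hε⟩ := case1 σ' (k' + 1) (by omega) t _ hσ ht htk (-c)
        refine ⟨ε * σ' * ε⁻¹, conj_isConj _ _ _ hc, t, ht, Or.inl ?_⟩
        obtain ⟨w, hw⟩ := hε
        refine ⟨w + s, ?_⟩
        have e : (ε * σ' * ε⁻¹) (rt K n) = σ' (rt K n) +
            algebraMap K (TP K n) (-c) * (rt K n) ^ (k' + 1 + 1) +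
              (rt K n) ^ (k' + 1 + 2) * w := by rw [← hw]; ring
        rw [e, hσ, map_neg]
        ring
    · obtain ⟨r, hr⟩ := h
      obtain ⟨c, s, rfl⟩ := dec r
      obtain ⟨d', rfl⟩ := Nat.exists_eq_add_of_le' hd
      have hσ : σ' (rt K n) = algebraMap K (TP K n) t * rt K n +
          algebraMap K (TP K n) a * (rt K n) ^ (d' + 1 + 1) +
          algebraMap K (TP K n) b * (rt K n) ^ (2 * (d' + 1) + 1) +
          (rt K n) ^ (k + 1) * (algebraMap K (TP K n) c + rt K n * s) := by
        rw [← hr]; ring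
      by_cases htk : t ^ k = 1
      · obtain ⟨j, rfl⟩ := Nat.exists_eq_add_of_lt hdk
        have htj : t ^ (j + 1) = 1 := by
          have : t ^ (d' + 1 + j + 1) = t ^ (d' + 1) * t ^ (j + 1) := by
            rw [← pow_add]; congr 1
          rw [this, htd, one_mul] at htk
          exact htk
        by_cases hjd : d' + 1 = j + 1
        · have hjd' : j = d' := by omega
          subst hjd'
          refine ⟨σ', hc, t, ht, Or.inr ⟨j + 1, a, b + c, by omega, by omega, htd, ha, s, ?_⟩⟩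
          rw [hσ, map_add]
          ring
        · have hdj : ((d' + 1 : ℕ) : K) ≠ ((j + 1 : ℕ) : K) := by
            intro h
            rcases lt_or_gt_of_ne hjd with h1 | h1
            · apply hchar (j + 1 - (d' + 1)) (by omega) (by omega)
              rw [Nat.cast_sub (by omega), h, sub_self]
            · apply hchar (d' + 1 - (j + 1)) (by omega) (by omega)
              rw [Nat.cast_sub (by omega), h, sub_self]
          have hσ2 : σ' (rt K n) = algebraMap K (TP K n) t * rt K n +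
              algebraMap K (TP K n) a * (rt K n) ^ (d' + 1 + 1) +
              (rt K n) ^ (d' + 1 + 2) * (algebraMap K (TP K n) b * (rt K n) ^ d' +
                (rt K n) ^ j * (algebraMap K (TP K n) c + rt K n * s)) := by
            rw [hσ]; ring
          obtain ⟨ε, hε⟩ := case2 σ' (d' + 1) (j + 1) (by omega) (by omega) t a _ hσ2 ha htj
            hdj (-c)
          refine ⟨ε * σ' * ε⁻¹, conj_isConj _ _ _ hc, t, ht,
            Or.inr ⟨d' + 1, a, b, by omega, by omega, htd, ha, ?_⟩⟩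
          obtain ⟨w, hw⟩ := hε
          refine ⟨w + s, ?_⟩
          have e : (ε * σ' * ε⁻¹) (rt K n) = σ' (rt K n) +
              algebraMap K (TP K n) (-c) * (rt K n) ^ (d' + 1 + (j + 1) + 1) +
                (rt K n) ^ (d' + 1 + (j + 1) + 2) * w := by rw [← hw]; ring
          rw [e, hσ, map_neg]
          ring
      · obtain ⟨k', rfl⟩ := Nat.exists_eq_add_of_le' hk
        have hσ2 : σ' (rt K n) = rt K n * (algebraMap K (TP K n) t + rt K n *
            (algebraMap K (TP K n) a * (rt K n) ^ d' + algebraMap K (TP K n) b *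
              (rt K n) ^ (2 * d' + 1) +
              (rt K n) ^ k' * (algebraMap K (TP K n) c + rt K n * s))) := by
          rw [hσ]
          ring
        obtain ⟨ε, hε⟩ := case1 σ' (k' + 1) (by omega) t _ hσ2 ht htk (-c)
        refine ⟨ε * σ' * ε⁻¹, conj_isConj _ _ _ hc, t, ht,
          Or.inr ⟨d' + 1, a, b, by omega, by omega, htd, ha, ?_⟩⟩
        obtain ⟨w, hw⟩ := hε
        refine ⟨w + s, ?_⟩
        have e : (ε * σ' * ε⁻¹) (rt K n) = σ' (rt K n) +
            algebraMap K (TP K n) (-c) * (rt K n) ^ (k' + 1 + 1) +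
              (rt K n) ^ (k' + 1 + 2) * w := by rw [← hw]; ring
        rw [e, hσ, map_neg]
        ring

/-- the exact normal form, with the leading coefficient normalised modulo `d`-th powers -/
theorem normal_final (hchar : ∀ m : ℕ, 0 < m → m ≤ n → (m : K) ≠ 0)
    (σ : TP K n ≃ₐ[K] TP K n) :
    (∃ t : Kˣ, ∃ σ' : TP K n ≃ₐ[K] TP K n, IsConj σ σ' ∧
      σ' (rt K n) = algebraMap K (TP K n) t * rt K n) ∨
    (∃ d : ℕ, 1 ≤ d ∧ d ≤ n ∧ ∃ t : Kˣ, t ^ d = 1 ∧ ∃ a : Kˣ, ∀ s : Kˣ,
      ∃ (b' : K) (σ' : TP K n ≃ₐ[K] TP K n), IsConj σ σ' ∧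
      σ' (rt K n) = algebraMap K (TP K n) t * rt K n +
          algebraMap K (TP K n) (a * s ^ d : Kˣ) * (rt K n) ^ (d + 1) +
          algebraMap K (TP K n) b' * (rt K n) ^ (2 * d + 1)) := by
  obtain ⟨σ', hc, t, ht, h⟩ := normal hchar σ (n + 1) (by omega) le_rfl
  rcases h with h | ⟨d, a, b, hd, hdk, htd, ha, h⟩
  · left
    rw [show (rt K n) ^ (n + 1 + 1) = 0 from rt_pow, zero_dvd_iff, sub_eq_zero] at h
    exact ⟨Units.mk0 t ht, σ', hc, h⟩
  · right
    rw [show (rt K n) ^ (n + 1 + 1) = 0 from rt_pow, zero_dvd_iff, sub_eq_zero] at h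
    refine ⟨d, hd, by omega, Units.mk0 t ht, ?_, Units.mk0 a ha, fun s => ?_⟩
    · ext
      simp [htd]
    · obtain ⟨ε, hε⟩ := exists_sc (n := n) (s : K) s.ne_zero
      refine ⟨b * s ^ (2 * d), ε * σ' * ε⁻¹, conj_isConj _ _ _ hc, ?_⟩
      have e1 : ε⁻¹ (rt K n) = algebraMap K (TP K n) (s⁻¹ : Kˣ) * rt K n := by
        apply ε.injective
        have : ε (ε⁻¹ (rt K n)) = (ε * ε⁻¹) (rt K n) := rfl
        rw [this, mul_inv_cancel, AlgEquiv.one_apply, map_mul, AlgEquiv.commutes, hε, ← mul_assoc,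
          ← map_mul, ← Units.val_mul, inv_mul_cancel, Units.val_one, map_one, one_mul]
      have e2 : (ε * σ' * ε⁻¹) (rt K n) = ε (σ' (ε⁻¹ (rt K n))) := rfl
      rw [e2, e1]
      simp only [map_mul, AlgEquiv.commutes, h, map_add, map_pow, hε, Units.val_mul,
        Units.val_mk0, Units.val_pow_eq_pow_val]
      have e3 : algebraMap K (TP K n) (s⁻¹ : Kˣ) * algebraMap K (TP K n) s = 1 := by
        rw [← map_mul, ← Units.val_mul, inv_mul_cancel, Units.val_one, map_one]
      generalize algebraMap K (TP K n) (s⁻¹ : Kˣ) = S' at *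
      generalize algebraMap K (TP K n) (s : K) = S at *
      generalize algebraMap K (TP K n) a = A
      generalize algebraMap K (TP K n) b = B
      generalize algebraMap K (TP K n) t = T
      generalize rt K n = x
      have e4 : S' * (T * (S * x) + A * (S * x) ^ (d + 1) + B * (S * x) ^ (2 * d + 1)) =
          (S' * S) * (T * x + A * S ^ d * x ^ (d + 1) + B * S ^ (2 * d) * x ^ (2 * d + 1)) := by
        ring
      rw [e4, e3, one_mul]

end Pool.Agent.Work.MP_34d05d_al
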