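import Pool.Agent.Work.MP_34d05d_al.A3

set_option autoImplicit false

/-!
# Counting the conjugacy classes of the automorphism group of a truncated polynomial ring
-/

namespace Pool.Agent.Work.MP_34d05d_al

open Polynomial

variable {K : Type} [Field K] {n : ℕ}

/-- the index set of the normal forms -/
abbrev Idx (K : Type) [Field K] (n : ℕ) : Type :=
  Kˣ ⊕ Σ d : Finset.Icc 1 n, ((powMonoidHom (d : ℕ) : Kˣ →* Kˣ).ker ×
    (Kˣ ⧸ (powMonoidHom (d : ℕ) : Kˣ →* Kˣ).range)) × K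

/-- the value at `x` -/
noncomputable def val (i : Idx K n) : TP K n :=
  match i with
  | Sum.inl t => algebraMap K (TP K n) t * rt K n
  | Sum.inr ⟨d, ((t, q), b)⟩ => algebraMap K (TP K n) ((t : Kˣ) : K) * rt K n +
          algebraMap K (TP K n) (q.out : Kˣ) * (rt K n) ^ ((d : ℕ) + 1) +
          algebraMap K (TP K n) b * (rt K n) ^ (2 * (d : ℕ) + 1)

open Classical in
/-- the automorphism with a prescribed value at `x` -/
noncomputable def autOf (z : TP K n) : TP K n ≃ₐ[K] TP K n :=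
  if h : ∃ σ : TP K n ≃ₐ[K] TP K n, σ (rt K n) = z then h.choose else 1

theorem autOf_eq (σ : TP K n ≃ₐ[K] TP K n) : autOf (σ (rt K n)) = σ := by
  have h : ∃ τ : TP K n ≃ₐ[K] TP K n, τ (rt K n) = σ (rt K n) := ⟨σ, rfl⟩
  unfold autOf
  rw [dif_pos h]
  exact aut_ext _ _ h.choose_spec

theorem surj (hchar : ∀ m : ℕ, 0 < m → m ≤ n → (m : K) ≠ 0) :
    Function.Surjective (fun i : Idx K n => ConjClasses.mk (autOf (val i))) := by
  intro c
  obtain ⟨σ, rfl⟩ := ConjClasses.exists_rep c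
  rcases normal_final hchar σ with ⟨t, σ', hc, h⟩ | ⟨d, hd, hdn, t, htd, a, h⟩
  · refine ⟨Sum.inl t, ?_⟩
    have e : autOf (val (Sum.inl t : Idx K n)) = σ' := by
      rw [← autOf_eq σ', h]
      rfl
    simp only [e]
    exact (ConjClasses.mk_eq_mk_iff_isConj.mpr hc).symm
  · obtain ⟨⟨h0, s, rfl⟩, hs⟩ := QuotientGroup.mk_out_eq_mul
      (powMonoidHom (d : ℕ) : Kˣ →* Kˣ).range a
    obtain ⟨b', σ', hc, h2⟩ := h s
    refine ⟨Sum.inr ⟨⟨d, Finset.mem_Icc.mpr ⟨hd, hdn⟩⟩, ((⟨t, htd⟩, (a : Kˣ ⧸ _)), b')⟩, ?_⟩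
    have e : autOf (val (Sum.inr ⟨⟨d, Finset.mem_Icc.mpr ⟨hd, hdn⟩⟩,
        ((⟨t, htd⟩, (a : Kˣ ⧸ _)), b')⟩ : Idx K n)) = σ' := by
      rw [← autOf_eq σ', h2]
      simp only [val]
      rw [hs]
      rfl
    simp only [e]
    exact (ConjClasses.mk_eq_mk_iff_isConj.mpr hc).symm

theorem card_idx [Finite K] : Nat.card (Idx K n) = Nat.card Kˣ +
    ∑ d ∈ Finset.Icc 1 n, ((Nat.card Kˣ).gcd d) ^ 2 * Nat.card K := by
  rw [Nat.card_sum, Nat.card_sigma, ← Finset.sum_coe_sort (Finset.Icc 1 n)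
    (fun d => ((Nat.card Kˣ).gcd d) ^ 2 * Nat.card K)]
  congr 1
  refine Finset.sum_congr rfl fun d _ => ?_
  rw [Nat.card_prod, Nat.card_prod, IsCyclic.card_powMonoidHom_ker, ← Subgroup.index,
    IsCyclic.index_powMonoidHom_range, sq]

/-- upper bound for the class number -/
theorem classes_le [Finite K] (hchar : ∀ m : ℕ, 0 < m → m ≤ n → (m : K) ≠ 0) :
    Nat.card (ConjClasses (TP K n ≃ₐ[K] TP K n)) ≤ Nat.card Kˣ +
      ∑ d ∈ Finset.Icc 1 n, ((Nat.card Kˣ).gcd d) ^ 2 * Nat.card K := by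
  rw [← card_idx]
  exact Nat.card_le_card_of_surjective _ (surj hchar)

instance finiteTP [Finite K] : Finite (TP K n) := Module.finite_of_finite K

instance finiteAut [Finite K] : Finite (TP K n ≃ₐ[K] TP K n) :=
  Finite.of_injective (fun σ => (σ : TP K n → TP K n)) DFunLike.coe_injective

/-- lower bound for the class number -/
theorem le_classes [Finite K] :
    Nat.card Kˣ ≤ Nat.card (ConjClasses (TP K n ≃ₐ[K] TP K n)) := by
  have := finiteAut (K := K) (n := n)
  choose f hf using fun t : Kˣ => exists_sc (n := n) (t : K) t.ne_zero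
  refine Nat.card_le_card_of_injective (fun t : Kˣ => ConjClasses.mk (f t)) ?_
  intro t s hts
  simp only at hts
  rw [ConjClasses.mk_eq_mk_iff_isConj, isConj_iff] at hts
  obtain ⟨τ, hτ⟩ := hts
  have h1 : τ * f t = f s * τ := by rw [← hτ]; group
  have h2 : τ (f t (rt K n)) = f s (τ (rt K n)) := by
    have := DFunLike.congr_fun h1 (rt K n)
    exact this
  obtain ⟨u, w, hu, hw⟩ := aut_form τ
  rw [hf, map_mul, AlgEquiv.commutes, hw, map_mul, map_add, map_mul, hf,
    AlgEquiv.commutes] at h2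
  by_contra hne
  have hne' : (t : K) - s ≠ 0 := sub_ne_zero.mpr (fun h => hne (Units.ext h))
  have h3 : algebraMap K (TP K n) (((t : K) - s) * u) * rt K n =
      (rt K n) ^ 2 * (algebraMap K (TP K n) (s : K) ^ 2 * f s w - algebraMap K (TP K n) t * w) := by
    rw [map_mul, map_sub]
    linear_combination h2
  obtain ⟨v, hv⟩ := ((IsUnit.mk0 _ (mul_ne_zero hne' hu)).map (algebraMap K (TP K n))).exists_left_inv
  have h4 : rt K n = (rt K n) ^ 2 * (v *
      (algebraMap K (TP K n) (s : K) ^ 2 * f s w - algebraMap K (TP K n) t * w)) := by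
    calc rt K n = (v * algebraMap K (TP K n) (((t : K) - s) * u)) * rt K n := by rw [hv, one_mul]
      _ = v * ((rt K n) ^ 2 * (algebraMap K (TP K n) (s : K) ^ 2 * f s w -
          algebraMap K (TP K n) t * w)) := by rw [mul_assoc, h3]
      _ = _ := by ring
  apply rt_pow_ne (K := K) (n := n)
  generalize v * (algebraMap K (TP K n) (s : K) ^ 2 * f s w - algebraMap K (TP K n) t * w) = W
    at h4
  calc (rt K n) ^ (n + 1) = (rt K n) ^ n * rt K n := pow_succ _ _
    _ = (rt K n) ^ n * ((rt K n) ^ 2 * W) := by rw [← h4]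
    _ = (rt K n) ^ (n + 2) * W := by ring
    _ = 0 := by rw [rt_pow, zero_mul]

/-- lower bound for the order -/
theorem card_ge [Finite K] : (Nat.card K) ^ n ≤ Nat.card (TP K n ≃ₐ[K] TP K n) := by
  have := finiteAut (K := K) (n := n)
  have h0 : ∀ v : Fin n → K, ∃ σ : TP K n ≃ₐ[K] TP K n, σ (rt K n) = rt K n *
      (algebraMap K (TP K n) 1 + rt K n * AdjoinRoot.mk _ (∑ i : Fin n, C (v i) * X ^ (i : ℕ))) :=
    fun v => exists_aut _ (unit_of 1 one_ne_zero _)
  choose f hf using h0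
  have hcard : Nat.card (Fin n → K) = (Nat.card K) ^ n := by
    rw [Nat.card_fun, Nat.card_fin]
  rw [← hcard]
  refine Nat.card_le_card_of_injective f ?_
  intro v w hvw
  have h1 := hf v
  rw [hvw, hf w] at h1
  have h2 : AdjoinRoot.mk ((X : K[X]) ^ (n + 2)) (X ^ 2 *
      (∑ i : Fin n, C (v i) * X ^ (i : ℕ) - ∑ i : Fin n, C (w i) * X ^ (i : ℕ))) = 0 := by
    rw [map_mul, map_pow, map_sub, ← rt_eq]
    linear_combination -h1
  rw [AdjoinRoot.mk_eq_zero, Polynomial.X_pow_dvd_iff] at h2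
  have hco : ∀ (u : Fin n → K) (i : Fin n),
      (∑ j : Fin n, C (u j) * X ^ (j : ℕ)).coeff (i : ℕ) = u i := by
    intro u i
    rw [Polynomial.finset_sum_coeff]
    simp only [Polynomial.coeff_C_mul, Polynomial.coeff_X_pow]
    rw [Finset.sum_eq_single i]
    · simp
    · intro j _ hj
      rw [if_neg (fun h => hj (Fin.ext h.symm)), mul_zero]
    · simp
  funext i
  have h3 := h2 ((i : ℕ) + 2) (by omega)
  rw [mul_comm, Polynomial.coeff_mul_X_pow, Polynomial.coeff_sub, hco, hco, sub_eq_zero] at h3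
  exact h3

end Pool.Agent.Work.MP_34d05d_al
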